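import Pool.Agent.Lib.MP_28303a_al.NK.Defs

/-! # Finite projective resolutions: Schanuel's lemma -/

set_option autoImplicit false

namespace Pool.Agent.NegK

universe u v w

section

variable {R : Type u} [Ring R]

theorem HasFPRes.congr {n : ℕ} {M N : Type u} [AddCommGroup M] [Module R M] [AddCommGroup N]
    [Module R N] (e : M ≃ₗ[R] N) (h : HasFPRes R n M) : HasFPRes R n N := by
  cases n with
  | zero =>
    obtain ⟨h1, h2⟩ := h
    exact ⟨Module.Finite.equiv e, Module.Projective.of_equiv e⟩
  | succ n =>
    obtain ⟨P, _, _, f, h1, h2, h3, h4⟩ := h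
    refine ⟨P, _, _, e.toLinearMap ∘ₗ f, h1, h2, e.surjective.comp h3, ?_⟩
    rw [LinearEquiv.ker_comp]
    exact h4

/-- A surjection onto a projective module splits. -/
noncomputable def splitEquiv {W Q : Type u} [AddCommGroup W] [Module R W] [AddCommGroup Q]
    [Module R Q] (h : W →ₗ[R] Q) (s : Q →ₗ[R] W) (hs : h ∘ₗ s = LinearMap.id) :
    W ≃ₗ[R] LinearMap.ker h × Q where
  toFun w := (⟨w - s (h w), by
    have := LinearMap.congr_fun hs (h w)
    rw [LinearMap.mem_ker, map_sub]
    rw [LinearMap.comp_apply, LinearMap.id_apply] at this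
    rw [this, sub_self]⟩, h w)
  invFun x := x.1 + s x.2
  map_add' x y := by
    refine Prod.ext (Subtype.ext ?_) (map_add h x y)
    simp only [map_add, Prod.fst_add, Submodule.coe_add]
    abel
  map_smul' r x := by
    refine Prod.ext (Subtype.ext ?_) (map_smul h r x)
    simp only [map_smul, Prod.smul_fst, SetLike.val_smul, RingHom.id_apply, smul_sub]
  left_inv w := by simp
  right_inv x := by
    obtain ⟨⟨k, hk⟩, q⟩ := x
    have hq : h (s q) = q := LinearMap.congr_fun hs q
    have hk' : h k = 0 := hk
    refine Prod.ext (Subtype.ext ?_) ?_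
    · show k + s q - s (h (k + s q)) = k
      rw [map_add, hk', hq, zero_add, add_sub_cancel_right]
    · show h (k + s q) = q
      rw [map_add, hk', hq, zero_add]

theorem exists_splitEquiv {W Q : Type u} [AddCommGroup W] [Module R W] [AddCommGroup Q]
    [Module R Q] (hQ : Module.Projective R Q) (h : W →ₗ[R] Q) (hh : Function.Surjective h) :
    Nonempty (W ≃ₗ[R] LinearMap.ker h × Q) := by
  obtain ⟨s, hs⟩ := Module.projective_lifting_property h LinearMap.id hh
  exact ⟨splitEquiv h s hs⟩

theorem HasFPRes.prod {n : ℕ} : ∀ {N P : Type u} [AddCommGroup N] [Module R N] [AddCommGroup P]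
    [Module R P], Module.Finite R P → Module.Projective R P → HasFPRes R n N →
      HasFPRes R n (N × P) := by
  induction n with
  | zero =>
    intro N P _ _ _ _ hP1 hP2 h
    obtain ⟨h1, h2⟩ := h
    exact ⟨inferInstance, inferInstance⟩
  | succ n ih =>
    intro N P _ _ _ _ hP1 hP2 h
    obtain ⟨Q, _, _, f, h1, h2, h3, h4⟩ := h
    refine ⟨Q × P, _, _, f.prodMap LinearMap.id, inferInstance, inferInstance, ?_, ?_⟩
    · rintro ⟨x, p⟩
      obtain ⟨y, rfl⟩ := h3 x
      exact ⟨(y, p), rfl⟩
    · refine h4.congr (R := R) ?_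
      exact
        { toFun := fun x => ⟨((x : Q), 0), by
            have := x.2
            rw [LinearMap.mem_ker] at this ⊢
            exact Prod.ext this rfl⟩
          invFun := fun x => ⟨(x : Q × P).1, by
            have := x.2
            rw [LinearMap.mem_ker] at this ⊢
            exact congrArg Prod.fst this⟩
          map_add' := fun x y => Subtype.ext (Prod.ext rfl (add_zero (0 : P)).symm)
          map_smul' := fun r x => Subtype.ext (Prod.ext rfl (smul_zero (A := P) r).symm)
          left_inv := fun x => rfl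
          right_inv := fun x => by
            refine Subtype.ext (Prod.ext rfl ?_)
            have := x.2
            rw [LinearMap.mem_ker] at this
            exact (congrArg Prod.snd this).symm }

theorem HasFPRes.of_prod {n : ℕ} {N Q : Type u} [AddCommGroup N] [Module R N] [AddCommGroup Q]
    [Module R Q] (hQ1 : Module.Finite R Q) (hQ2 : Module.Projective R Q)
    (h : HasFPRes R n (N × Q)) : HasFPRes R n N := by
  cases n with
  | zero =>
    obtain ⟨h1, h2⟩ := h
    refine ⟨Module.Finite.of_surjective (LinearMap.fst R N Q) (fun x => ⟨(x, 0), rfl⟩), ?_⟩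
    exact Module.Projective.of_split (LinearMap.inl R N Q) (LinearMap.fst R N Q)
      (by ext x; rfl)
  | succ n =>
    obtain ⟨P, _, _, g, h1, h2, h3, h4⟩ := h
    refine ⟨P, _, _, LinearMap.fst R N Q ∘ₗ g, h1, h2, ?_, ?_⟩
    · intro x
      obtain ⟨y, hy⟩ := h3 (x, 0)
      exact ⟨y, congrArg Prod.fst hy⟩
    · -- `ker (fst ∘ g) ≃ ker g × Q`
      let φ : LinearMap.ker (LinearMap.fst R N Q ∘ₗ g) →ₗ[R] Q :=
        (LinearMap.snd R N Q ∘ₗ g) ∘ₗ (LinearMap.ker (LinearMap.fst R N Q ∘ₗ g)).subtype
      have hφ : Function.Surjective φ := by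
        intro q
        obtain ⟨y, hy⟩ := h3 (0, q)
        exact ⟨⟨y, congrArg Prod.fst hy⟩, congrArg Prod.snd hy⟩
      obtain ⟨e⟩ := exists_splitEquiv hQ2 φ hφ
      have e2 : LinearMap.ker g ≃ₗ[R] LinearMap.ker φ :=
        { toFun := fun x => ⟨⟨(x : P), by
            have := x.2
            rw [LinearMap.mem_ker] at this ⊢
            rw [LinearMap.comp_apply, this]; rfl⟩, by
            have := x.2
            rw [LinearMap.mem_ker] at this ⊢
            show (g (x : P)).2 = 0
            rw [this]; rfl⟩
          invFun := fun x => ⟨((x : LinearMap.ker (LinearMap.fst R N Q ∘ₗ g)) : P), by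
            have h5 : (g ((x : LinearMap.ker (LinearMap.fst R N Q ∘ₗ g)) : P)).1 = 0 := x.1.2
            have h6 : (g ((x : LinearMap.ker (LinearMap.fst R N Q ∘ₗ g)) : P)).2 = 0 := x.2
            rw [LinearMap.mem_ker]
            exact Prod.ext h5 h6⟩
          map_add' := fun x y => rfl
          map_smul' := fun r x => rfl
          left_inv := fun x => rfl
          right_inv := fun x => rfl }
      exact ((h4.congr e2).prod hQ1 hQ2).congr e.symm

/-- Schanuel's lemma. -/
theorem schanuel {M P Q : Type u} [AddCommGroup M] [Module R M] [AddCommGroup P] [Module R P]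
    [AddCommGroup Q] [Module R Q] (hP : Module.Projective R P) (hQ : Module.Projective R Q)
    (f : P →ₗ[R] M) (g : Q →ₗ[R] M) (hf : Function.Surjective f) (hg : Function.Surjective g) :
    Nonempty ((LinearMap.ker g × P) ≃ₗ[R] (LinearMap.ker f × Q)) := by
  let W : Submodule R (P × Q) :=
    LinearMap.ker (f ∘ₗ LinearMap.fst R P Q - g ∘ₗ LinearMap.snd R P Q)
  have hW : ∀ x : P × Q, x ∈ W ↔ f x.1 = g x.2 := by
    intro x
    rw [LinearMap.mem_ker]
    exact sub_eq_zero
  let a : W →ₗ[R] P := LinearMap.fst R P Q ∘ₗ W.subtype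
  let b : W →ₗ[R] Q := LinearMap.snd R P Q ∘ₗ W.subtype
  have ha : Function.Surjective a := by
    intro p
    obtain ⟨q, hq⟩ := hg (f p)
    exact ⟨⟨(p, q), (hW _).2 hq.symm⟩, rfl⟩
  have hb : Function.Surjective b := by
    intro q
    obtain ⟨p, hp⟩ := hf (g q)
    exact ⟨⟨(p, q), (hW _).2 hp⟩, rfl⟩
  obtain ⟨ea⟩ := exists_splitEquiv hP a ha
  obtain ⟨eb⟩ := exists_splitEquiv hQ b hb
  have e1 : LinearMap.ker a ≃ₗ[R] LinearMap.ker g :=
    { toFun := fun x => ⟨(x : W).1.2, by
        have h1 : (x : W).1.1 = 0 := x.2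
        have h2 := (hW _).1 (x : W).2
        rw [LinearMap.mem_ker, ← h2, h1, map_zero]⟩
      invFun := fun y => ⟨⟨(0, (y : Q)), by
        rw [hW]
        have := y.2
        rw [LinearMap.mem_ker] at this
        rw [map_zero, this]⟩, rfl⟩
      map_add' := fun x y => rfl
      map_smul' := fun r x => rfl
      left_inv := fun x => by
        have h1 : (x : W).1.1 = 0 := x.2
        exact Subtype.ext (Subtype.ext (Prod.ext h1.symm rfl))
      right_inv := fun y => rfl }
  have e2 : LinearMap.ker b ≃ₗ[R] LinearMap.ker f :=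
    { toFun := fun x => ⟨(x : W).1.1, by
        have h1 : (x : W).1.2 = 0 := x.2
        have h2 := (hW _).1 (x : W).2
        rw [LinearMap.mem_ker, h2, h1, map_zero]⟩
      invFun := fun y => ⟨⟨((y : P), 0), by
        rw [hW]
        have := y.2
        rw [LinearMap.mem_ker] at this
        rw [map_zero, this]⟩, rfl⟩
      map_add' := fun x y => rfl
      map_smul' := fun r x => rfl
      left_inv := fun x => by
        have h1 : (x : W).1.2 = 0 := x.2
        exact Subtype.ext (Subtype.ext (Prod.ext rfl h1.symm))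
      right_inv := fun y => rfl }
  exact ⟨((LinearEquiv.prodCongr e1.symm (LinearEquiv.refl R P)).trans ea.symm).trans
    (eb.trans (LinearEquiv.prodCongr e2 (LinearEquiv.refl R Q)))⟩

/-- Syzygies of a module of projective dimension at most `n + 1` have projective dimension at
most `n`. -/
theorem HasFPRes.syz {n : ℕ} {M P : Type u} [AddCommGroup M] [Module R M] [AddCommGroup P]
    [Module R P] (hP1 : Module.Finite R P) (hP2 : Module.Projective R P)
    (f : P →ₗ[R] M) (hf : Function.Surjective f) (h : HasFPRes R (n + 1) M) :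
    HasFPRes R n (LinearMap.ker f) := by
  obtain ⟨Q, _, _, g, h1, h2, h3, h4⟩ := h
  obtain ⟨e⟩ := schanuel hP2 h2 f g hf h3
  exact ((h4.prod hP1 hP2).congr e).of_prod h1 h2

end

end Pool.Agent.NegK
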