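import Pool.Agent.Lib.MP_28303a_al.NK.Basic
import Pool.Agent.Lib.MP_28303a_al.NK.FPRes
import Mathlib.GroupTheory.HNNExtension

/-! # Interface of the two-generator theorem

Goal: there is a two-generated torsionfree group `Γ` such that for every regular ring `R`:
`K_{-n}(RG) = 0` for all torsionfree `G` and `n ≥ 1` iff `K_{-1}(RΓ) = 0`.
`Γ` is an HNN extension of `U × F₂` (`U = UGrp`) with free associated subgroups. -/

set_option autoImplicit false

namespace Pool.Agent.NegK

universe u v w

/-- The star of a vertex of a tree with an action of `Γ`, in terms of subsets of `Γ`: `G` is the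
stabilizer of the vertex `o`, `A j` is the stabilizer of an edge `e j` starting at `o` (one edge
for each orbit), `S j` is the set of all `x` such that `x o` lies beyond `e j`. -/
structure StarData {Γ : Type v} [Group Γ] (G : Subgroup Γ) {J : Type} (A : J → Subgroup Γ)
    (S : J → Set Γ) : Prop where
  le : ∀ j, A j ≤ G
  left : ∀ j, ∀ a ∈ A j, ∀ x ∈ S j, a * x ∈ S j
  right : ∀ j, ∀ x ∈ S j, ∀ g ∈ G, x * g ∈ S j
  disj : ∀ i j, ∀ g ∈ G, ∀ x ∈ S i, g * x ∈ S j → i = j ∧ g ∈ A i
  notMem : ∀ j, ∀ x ∈ S j, x ∉ G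
  cover : ∀ x, x ∉ G → ∃ j, ∃ g ∈ G, g * x ∈ S j
  fin : ∀ j, ∀ x : Γ, ∃ F : Finset Γ, ∀ g : Γ, ¬ (g ∈ S j ↔ g * x ∈ S j) →
    ∃ a ∈ A j, ∃ f ∈ F, g = a * f

/-- HNNT (group theory, about 200 lines). The star of the base vertex of the Bass-Serre tree of an
HNN extension.  `S true` = all elements with a reduced word `w`, `w.toList` starting with the
exponent `-1` and `w.head ∈ A`; `S false` = all elements with a reduced word starting with the
exponent `1` and `w.head ∈ B`.  Tools: `HNNExtension.NormalWord`,
`HNNExtension.ReducedWord.map_fst_eq_and_of_prod_eq`.  For `fin`: if it holds for `x` and `y`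
(and all `g`) then it holds for `x * y` and `x⁻¹`; for `x = of g` the set is empty; for
`x = t` it is one coset. -/
def HnntStatement : Prop :=
  ∀ (G : Type) [Group G] (A B : Subgroup G) (φ : A ≃* B),
    ∃ S : Bool → Set (HNNExtension G A B φ),
      StarData (HNNExtension.of (φ := φ)).range
        (fun b : Bool => (if b then A else B).map (HNNExtension.of (φ := φ))) S

/-- HNNTF (group theory, about 150 lines). HNN extensions of torsionfree groups are torsionfree.
An element conjugate to a cyclically reduced one of length `n ≥ 1` has infinite order. -/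
def HnntfStatement : Prop :=
  ∀ (G : Type) [Group G] (A B : Subgroup G) (φ : A ≃* B), TorsionFree G →
    TorsionFree (HNNExtension G A B φ)

/-- EMB (group theory, about 200 lines). `U = {g_0 = 1, g_1, ...}` countable, `F` free on `x, y`.
`A = ⟨(1, x^{-i} y x^i) : i ≥ 0⟩`, `B = ⟨(g_i, y^{-i} x y^i) : i ≥ 0⟩` are free on these elements
(map `F` to `FreeGroup ℤ ⋊ ℤ`); in the HNN extension `t y t⁻¹ = x`, and `t`, `y` generate. -/
def EmbStatement : Prop :=
  ∀ (U : Type) [Group U] [Countable U], ∃ (A B : Subgroup (U × FreeGroup Bool)) (φ : A ≃* B),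
    Nonempty (A ≃* FreeGroup ℕ) ∧
      ∃ a b : HNNExtension (U × FreeGroup Bool) A B φ, Subgroup.closure {a, b} = ⊤

/-- EXT (homological algebra, about 150 lines). `0 → X → Y → M → 0` exact (up to isomorphism:
`M` is the cokernel of an injective map `i`), `X` and `Y` have finite resolutions: so has `M`. -/
def ExtStatement : Prop :=
  ∀ (R : Type u) [Ring R] (X Y M : Type u) [AddCommGroup X] [Module R X] [AddCommGroup Y]
    [Module R Y] [AddCommGroup M] [Module R M] (i : X →ₗ[R] Y) (f : Y →ₗ[R] M),
    Function.Injective i → Function.Surjective f → LinearMap.range i = LinearMap.ker f →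
    (∃ n, HasFPRes R n X) → (∃ n, HasFPRes R n Y) → ∃ n, HasFPRes R n M

/-- LREG (about 300 lines, may use EXT). Laurent polynomials over a regular ring. -/
def LregStatement : Prop :=
  ∀ (R : Type u) [Ring R], RegularRing R → RegularRing (LaurentPolynomial R)

/-- FREE (about 350 lines). For a regular ring `S` and a free group `F` of finite rank,
`K₀(S) → K₀(S[F])` is surjective. -/
def FreeStatement : Prop :=
  ∀ (S : Type u) [Ring S], RegularRing S → ∀ (k : ℕ),
    Function.Surjective (K0.map (MonoidAlgebra.singleOneRingHom :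
      S →+* MonoidAlgebra S (FreeGroup (Fin k))))

/-- INJ (helper6). `K_{-1}(A) → K_{-1}(B)` is injective if the kernel of
`K₀(A[t, t⁻¹]) → K₀(B[t, t⁻¹])` lies in the images of `K₀(A[t])`, `K₀(A[t⁻¹])`. -/
def InjStatement : Prop :=
  ∀ (A B : Type u) [Ring A] [Ring B] (f : A →+* B),
    (∀ z : K0 (LaurentPolynomial A), K0.map (lmap f) z = 0 → z ∈ K0Fun.polySub A) →
    ∀ z : K0 (LaurentPolynomial A), K0.map (lmap f) z ∈ K0Fun.polySub B → z ∈ K0Fun.polySub A

/-- VERT (helper6). Vertex exactness of `K₀` for groups acting on trees. -/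
def VertStatement : Prop :=
  ∀ (k : Type u) [Ring k] (Γ : Type) [Group Γ] (G : Subgroup Γ) (J : Type) [Finite J]
    (A : J → Subgroup Γ) (S : J → Set Γ) (h : StarData G A S)
    (z : K0 (MonoidAlgebra k G)), K0.map (MonoidAlgebra.mapDomainRingHom k G.subtype) z = 0 →
    z ∈ (K0.map (MonoidAlgebra.singleOneRingHom : k →+* MonoidAlgebra k G)).range ⊔
      ⨆ j, (K0.map (MonoidAlgebra.mapDomainRingHom k (Subgroup.inclusion (h.le j)))).range

end Pool.Agent.NegK
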