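import Pool.Agent.Lib.MP_28303a_al.NK.Lift

/-! # The universal group: reduction of `K_{-n}(RG)` to `K_{-1}(RU)` -/

set_option autoImplicit false

namespace Pool.Agent.NegK

universe u v w

/-- If every idempotent matrix over `A[t, t⁻¹]` comes from a ring `B → A` with `K_{-1}(B) = 0`,
then `K_{-1}(A) = 0`. -/
theorem subsingleton_KNeg_one {A : Type u} [Ring A]
    (h : ∀ p : Idem (LaurentPolynomial A), ∃ (B : Type u) (_ : Ring B) (f : B →+* A)
      (q : Idem (LaurentPolynomial B)), q.map (lmap f) = p ∧ Subsingleton (KNeg 1 B)) :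
    Subsingleton (KNeg 1 A) := by
  have key : ∀ x : KNeg 1 A, x = 0 := by
    intro x
    have h1 : (QuotientAddGroup.mk' (K0Fun.polySub A)) = 0 := by
      refine K0.hom_ext fun p => ?_
      obtain ⟨B, _, f, q, hq, hB⟩ := h p
      have h2 : (KNegFun.{u} 1).hom f (QuotientAddGroup.mk' (K0Fun.polySub B) (K0.cls q)) =
          QuotientAddGroup.mk' (K0Fun.polySub A) (K0.cls p) := by
        rw [← hq, ← K0.map_cls]
        rfl
      have h3 : (QuotientAddGroup.mk' (K0Fun.polySub B) (K0.cls q) : KNeg 1 B) = 0 :=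
        @Subsingleton.elim _ hB _ _
      refine h2.symm.trans ?_
      exact (congrArg ((KNegFun.{u} 1).hom f) h3).trans (map_zero ((KNegFun.{u} 1).hom f))
    obtain ⟨y, rfl⟩ := QuotientAddGroup.mk'_surjective _ x
    exact DFunLike.congr_fun h1 y
  exact ⟨fun x y => by rw [key x, key y]⟩

/-- If `K_{-1}(RU) = 0` then `K_{-1}(RG) = 0` for every torsionfree group `G`. -/
theorem univ_one (R : Type u) [Ring R] (h : Subsingleton (KNeg 1 (MonoidAlgebra R UGrp)))
    (G : Type u) [Group G] (hG : TorsionFree G) : Subsingleton (KNeg 1 (MonoidAlgebra R G)) := by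
  refine subsingleton_KNeg_one fun p => ?_
  obtain ⟨T, π, p₀, hp⟩ := lift_idem p
  refine ⟨MonoidAlgebra R (TF T.grp), inferInstance,
    MonoidAlgebra.mapDomainRingHom R (TF.lift hG π),
    p₀.map (lmap (MonoidAlgebra.mapDomainRingHom R (QuotientGroup.mk' (tfKer T.grp)))), ?_, ?_⟩
  · rw [Idem.map_map, ← lmap_comp, ← MonoidAlgebra.mapDomainRingHom_comp]
    exact hp
  · refine (KNegFun 1).subsingleton_of_retract
      (MonoidAlgebra.mapDomainRingHom R (toSum (fun T : Table => TF T.grp) T))
      (MonoidAlgebra.mapDomainRingHom R (fromSum (fun T : Table => TF T.grp) T)) ?_ h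
    rw [← MonoidAlgebra.mapDomainRingHom_comp, fromSum_comp_toSum,
      MonoidAlgebra.mapDomainRingHom_id]

theorem torsionFree_ulift {G : Type v} [Group G] (h : TorsionFree G) :
    TorsionFree (ULift.{u} G) := by
  intro g n hn hg
  have h1 : g.down ^ n = 1 := congrArg ULift.down hg
  have h2 := h g.down n hn h1
  exact ULift.ext _ _ h2

theorem univ_iff (R : Type u) [Ring R] :
    (∀ (G : Type u) [Group G], TorsionFree G →
        ∀ n : ℕ, Subsingleton (KNeg (n + 1) (MonoidAlgebra R G))) ↔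
      Subsingleton (KNeg 1 (MonoidAlgebra R UGrp)) := by
  constructor
  · intro h
    have h1 : Subsingleton (KNeg 1 (MonoidAlgebra R (ULift.{u} UGrp))) :=
      h (ULift.{u} UGrp) (torsionFree_ulift torsionFree_UGrp) 0
    exact (KNegFun 1).subsingleton_congr
      (MonoidAlgebra.mapDomainRingEquiv R (MulEquiv.ulift : ULift.{u} UGrp ≃* UGrp).symm) h1
  · intro h G _ hG n
    exact all_of_one R (fun G _ hG => univ_one R h G hG) n G hG

/-- Reduction of the coefficient ring: if for a torsionfree group `G` and every finite subset of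
`R` there is a subring `R₀` containing it with `K_{-1}(R₀G) = 0`, then `K_{-1}(RG) = 0`. -/
theorem coeff_red (R : Type u) [Ring R] (G : Type u) [Group G]
    (h : ∀ F : Finset R, ∃ R₀ : Subring R, (F : Set R) ⊆ R₀ ∧
      Subsingleton (KNeg 1 (MonoidAlgebra R₀ G))) : Subsingleton (KNeg 1 (MonoidAlgebra R G)) := by
  refine subsingleton_KNeg_one fun p => ?_
  obtain ⟨F, hF⟩ := restrict_idem p
  obtain ⟨R₀, h1, h2⟩ := h F
  obtain ⟨p₀, hp⟩ := hF R₀ h1
  exact ⟨MonoidAlgebra R₀ G, inferInstance, MonoidAlgebra.mapRingHom G R₀.subtype, p₀, hp, h2⟩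

end Pool.Agent.NegK
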