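import Pool.Agent.Lib.MP_28303a_al.NK.Defs

/-! # Basic facts about functors on rings and the functors `K_{-n}` -/

set_option autoImplicit false

namespace Pool.Agent.NegK

universe u v

theorem RFun.subsingleton_of_retract (F : RFun.{u}) {A B : Type u} [Ring A] [Ring B]
    (i : A →+* B) (r : B →+* A) (h : r.comp i = RingHom.id A) (hB : Subsingleton (F.obj B)) :
    Subsingleton (F.obj A) := by
  refine ⟨fun x y => ?_⟩
  have h1 : ∀ z : F.obj A, F.hom r (F.hom i z) = z := by
    intro z
    rw [← AddMonoidHom.comp_apply, ← F.hom_comp, h, F.hom_id]; rfl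
  rw [← h1 x, ← h1 y, Subsingleton.elim (F.hom i x) (F.hom i y)]

theorem RFun.subsingleton_congr (F : RFun.{u}) {A B : Type u} [Ring A] [Ring B]
    (e : A ≃+* B) (hB : Subsingleton (F.obj B)) : Subsingleton (F.obj A) :=
  F.subsingleton_of_retract (e : A →+* B) (e.symm : B →+* A)
    (by ext x; simp) hB

/-- `R[G][t, t⁻¹] ≃ R[ℤ × G]`. -/
noncomputable def laurentEquiv (R : Type u) (G : Type v) [Ring R] [Group G] :
    LaurentPolynomial (MonoidAlgebra R G) ≃+* MonoidAlgebra R (Multiplicative ℤ × G) :=
  (AddMonoidAlgebra.toMultiplicative (MonoidAlgebra R G) ℤ).trans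
    (MonoidAlgebra.curryRingEquiv (R := R) (M := Multiplicative ℤ) (N := G)).symm

theorem torsionFree_int_prod {G : Type u} [Group G] (h : TorsionFree G) :
    TorsionFree (Multiplicative ℤ × G) := by
  rintro ⟨a, g⟩ n hn hg
  rw [Prod.ext_iff] at hg
  obtain ⟨h1, h2⟩ := hg
  have ha : a = 1 := by
    have h3 : a.toAdd * n = 0 := by
      have := congrArg Multiplicative.toAdd h1
      simpa [mul_comm] using this
    have h4 : (n : ℤ) ≠ 0 := by exact_mod_cast hn.ne'
    have h5 : a.toAdd = 0 := by
      rcases mul_eq_zero.1 h3 with h | h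
      · exact h
      · exact absurd h h4
    exact h5
  have hg' : g = 1 := h g n hn h2
  rw [ha, hg']; rfl

/-- If `K_{-1}(RG) = 0` for all torsionfree groups `G`, then `K_{-n}(RG) = 0` for all `n ≥ 1`. -/
theorem all_of_one (R : Type u) [Ring R]
    (h : ∀ (G : Type u) [Group G], TorsionFree G → Subsingleton (KNeg 1 (MonoidAlgebra R G)))
    (n : ℕ) : ∀ (G : Type u) [Group G], TorsionFree G →
      Subsingleton (KNeg (n + 1) (MonoidAlgebra R G)) := by
  induction n with
  | zero => exact h
  | succ n ih =>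
    intro G _ hG
    have h1 : Subsingleton (KNeg (n + 1) (MonoidAlgebra R (Multiplicative ℤ × G))) :=
      ih (Multiplicative ℤ × G) (torsionFree_int_prod hG)
    have h3 : Subsingleton (KNeg (n + 1) (LaurentPolynomial (MonoidAlgebra R G))) :=
      (KNegFun (n + 1)).subsingleton_congr (laurentEquiv R G) h1
    show Subsingleton (KNeg (n + 1) (LaurentPolynomial (MonoidAlgebra R G)) ⧸ _)
    exact Quotient.instSubsingletonQuotient _

end Pool.Agent.NegK
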