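import Pool.Agent.Lib.MP_28303a_al.NK.K0Api

/-! # Close idempotents -/

set_option autoImplicit false

namespace Pool.Agent.NegK

universe u v w

open Matrix

section

variable {B : Type u} [Ring B] {L : Type v} [Ring L]

/-- Matrices with entries in the image of a ring homomorphism. -/
def EntIn {ι κ : Type} (j : B →+* L) (M : Matrix ι κ L) : Prop := ∀ x y, ∃ b, j b = M x y

theorem EntIn.add {ι κ : Type} {j : B →+* L} {M N : Matrix ι κ L} (hM : EntIn j M)
    (hN : EntIn j N) : EntIn j (M + N) := fun x y => by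
  obtain ⟨a, ha⟩ := hM x y
  obtain ⟨b, hb⟩ := hN x y
  exact ⟨a + b, by rw [map_add, ha, hb]; rfl⟩

theorem EntIn.sub {ι κ : Type} {j : B →+* L} {M N : Matrix ι κ L} (hM : EntIn j M)
    (hN : EntIn j N) : EntIn j (M - N) := fun x y => by
  obtain ⟨a, ha⟩ := hM x y
  obtain ⟨b, hb⟩ := hN x y
  exact ⟨a - b, by rw [map_sub, ha, hb]; rfl⟩

theorem entIn_one {ι : Type} [DecidableEq ι] {j : B →+* L} : EntIn j (1 : Matrix ι ι L) :=
  fun x y => by
  by_cases h : x = y
  · subst h
    exact ⟨1, by rw [map_one, Matrix.one_apply_eq]⟩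
  · exact ⟨0, by rw [map_zero, Matrix.one_apply_ne h]⟩

theorem entIn_zero {ι κ : Type} {j : B →+* L} : EntIn j (0 : Matrix ι κ L) :=
  fun _ _ => ⟨0, map_zero j⟩

theorem EntIn.blocks {ι κ ι' κ' : Type} {j : B →+* L} {M : Matrix ι κ L} {N : Matrix ι κ' L}
    {P : Matrix ι' κ L} {Q : Matrix ι' κ' L} (h1 : EntIn j M) (h2 : EntIn j N)
    (h3 : EntIn j P) (h4 : EntIn j Q) : EntIn j (fromBlocks M N P Q) := by
  rintro (x | x) (y | y)
  · exact h1 x y
  · exact h2 x y
  · exact h3 x y
  · exact h4 x y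

theorem EntIn.exists_eq {ι κ : Type} {j : B →+* L} {M : Matrix ι κ L} (h : EntIn j M) :
    ∃ N : Matrix ι κ B, N.map j = M := by
  choose f hf using h
  exact ⟨Matrix.of f, by ext x y; exact hf x y⟩

end

section

variable {B : Type u} [Ring B] {L : Type u} [Ring L]

theorem mcls_mem_range {ι : Type} [Fintype ι] [DecidableEq ι] (j : B →+* L)
    (hj : Function.Injective j) {e : Matrix ι ι L} (he : e * e = e) (h : EntIn j e) :
    mcls e he ∈ (K0.map j).range := by
  obtain ⟨N, rfl⟩ := h.exists_eq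
  have hN : N * N = N := by
    apply Matrix.map_injective hj
    show (N * N).map j = N.map j
    rw [Matrix.map_mul, he]
  exact ⟨mcls N hN, by rw [mcls_map]⟩

/-- Close idempotents: their classes differ by an element of the image of `K₀(B)`. -/
theorem close {ι : Type} [Fintype ι] [DecidableEq ι] (j : B →+* L)
    (hj : Function.Injective j) {a b : Matrix ι ι L} (ha : a * a = a) (hb : b * b = b)
    (h1 : EntIn j (a - b)) (h2 : EntIn j (b * (a - b))) (h3 : EntIn j ((a - b) * b))
    (h4 : EntIn j (b * (a - b) * b)) :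
    mcls a ha - mcls b hb ∈ (K0.map j).range := by
  let U : Matrix (ι ⊕ ι) (ι ⊕ ι) L := fromBlocks b (1 - b) (1 - b) b
  let D : Matrix (ι ⊕ ι) (ι ⊕ ι) L := fromBlocks a 0 0 (1 - b)
  have hb' : (1 - b) * (1 - b) = 1 - b := idem_compl hb
  have e1 : b * (1 - b) = 0 := by rw [mul_sub, mul_one, hb, sub_self]
  have e2 : (1 - b) * b = 0 := by rw [sub_mul, one_mul, hb, sub_self]
  have hUU : U * U = 1 := by
    show fromBlocks b (1 - b) (1 - b) b * fromBlocks b (1 - b) (1 - b) b = 1
    rw [Matrix.fromBlocks_multiply, hb, hb', e1, e2, ← Matrix.fromBlocks_one]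
    simp
  have hD : D * D = D := idem_blocks ha hb'
  have hX : (U * D * U) * (U * D * U) = U * D * U := by
    rw [Matrix.mul_assoc, ← Matrix.mul_assoc U (U * D) U, ← Matrix.mul_assoc U U D, hUU,
      Matrix.one_mul, ← Matrix.mul_assoc, Matrix.mul_assoc U D D, hD]
  have hXe : U * D * U = fromBlocks (1 + b * (a - b) * b) (b * (a - b) * (1 - b))
      ((1 - b) * (a - b) * b) ((1 - b) * (a - b) * (1 - b)) := by
    show fromBlocks b (1 - b) (1 - b) b * fromBlocks a 0 0 (1 - b) *
      fromBlocks b (1 - b) (1 - b) b = _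
    have f1 : b * a = b * (a - b) + b := by rw [mul_sub, hb, sub_add_cancel]
    have f2 : (1 - b) * a = (1 - b) * (a - b) := by rw [mul_sub, e2, sub_zero]
    rw [Matrix.fromBlocks_multiply, Matrix.fromBlocks_multiply, Matrix.fromBlocks_inj]
    simp only [Matrix.mul_zero, add_zero, zero_add, hb', e1, f1, f2]
    refine ⟨?_, ?_, ?_, ?_⟩
    · rw [add_mul, hb]; abel
    · rw [add_mul, e1, e2]; abel
    · simp
    · simp
  have hmem : EntIn j (U * D * U) := by
    rw [hXe]
    have g1 : b * (a - b) * (1 - b) = b * (a - b) - b * (a - b) * b := by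
      rw [mul_sub (b * (a - b)) 1 b, mul_one]
    have g2 : (1 - b) * (a - b) * b = (a - b) * b - b * (a - b) * b := by
      rw [sub_mul 1 b (a - b), one_mul, sub_mul (a - b) (b * (a - b)) b]
    have g3 : (1 - b) * (a - b) * (1 - b) =
        (a - b) - b * (a - b) - ((a - b) * b - b * (a - b) * b) := by
      rw [mul_sub ((1 - b) * (a - b)) 1 b, mul_one, g2, sub_mul 1 b (a - b), one_mul]
    rw [g1, g2, g3]
    exact (entIn_one.add h4).blocks (h2.sub h4) (h3.sub h4) ((h1.sub h2).sub (h3.sub h4))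
  have k1 : mcls (U * D * U) hX = mcls D hD := by
    symm
    exact mcls_conj hD hX U U hUU rfl
  have k2 : mcls D hD = mcls a ha + mcls (1 - b) hb' := mcls_blocks ha hb'
  have k3 := mcls_mem_range j hj hX hmem
  have k4 : mcls (1 : Matrix ι ι L) (one_mul 1) ∈ (K0.map j).range :=
    mcls_mem_range j hj (one_mul 1) entIn_one
  have k5 := mcls_compl hb
  have k6 : mcls a ha - mcls b hb = mcls (U * D * U) hX - mcls (1 : Matrix ι ι L) (one_mul 1) := by
    rw [k1, k2, ← k5]
    abel
  rw [k6]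
  exact AddSubgroup.sub_mem _ k3 k4

end

end Pool.Agent.NegK
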