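import Mathlib

/-! # Negative K-groups of (noncommutative) rings, regular rings, torsionfree groups

`K0 A` is the Grothendieck group of finitely generated projective `A`-modules, presented by
idempotent matrices: a matrix `e = e * e` stands for the projective left module `A^n e`, two
idempotents `e`, `f` give isomorphic modules iff `e = a * b`, `f = b * a` for some matrices, and
the direct sum corresponds to the block diagonal matrix.  `KNeg n A` is `K_{-n}(A)`, defined by
Bass's recursion `K_{n-1}(A) = coker (K_n(A[t]) ⊕ K_n(A[t⁻¹]) → K_n(A[t,t⁻¹]))`. -/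

set_option autoImplicit false

namespace Pool.Agent.NegK

universe u v

/-- An idempotent matrix over a ring. -/
structure Idem (A : Type u) [Ring A] where
  n : ℕ
  e : Matrix (Fin n) (Fin n) A
  idem : e * e = e

/-- `p` and `q` are equivalent (they define isomorphic projective modules). -/
def Idem.Equiv {A : Type u} [Ring A] (p q : Idem A) : Prop :=
  ∃ (a : Matrix (Fin p.n) (Fin q.n) A) (b : Matrix (Fin q.n) (Fin p.n) A),
    a * b = p.e ∧ b * a = q.e

/-- The block sum of two idempotent matrices. -/
def Idem.sum {A : Type u} [Ring A] (p q : Idem A) : Idem A where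
  n := p.n + q.n
  e := (Matrix.fromBlocks p.e 0 0 q.e).submatrix finSumFinEquiv.symm finSumFinEquiv.symm
  idem := by
    rw [Matrix.submatrix_mul_equiv, Matrix.fromBlocks_multiply]
    simp [p.idem, q.idem]

/-- The relations of `K₀`. -/
def K0Rel (A : Type u) [Ring A] : AddSubgroup (FreeAbelianGroup (Idem A)) :=
  AddSubgroup.closure
    ({x | ∃ p q : Idem A, p.Equiv q ∧ x = FreeAbelianGroup.of p - FreeAbelianGroup.of q} ∪
      {x | ∃ p q : Idem A, x = FreeAbelianGroup.of (p.sum q) -
        (FreeAbelianGroup.of p + FreeAbelianGroup.of q)})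

/-- `K₀(A)`. -/
abbrev K0 (A : Type u) [Ring A] : Type u := FreeAbelianGroup (Idem A) ⧸ K0Rel A

/-- The class of an idempotent matrix in `K₀`. -/
def K0.cls {A : Type u} [Ring A] (p : Idem A) : K0 A :=
  QuotientAddGroup.mk (FreeAbelianGroup.of p)

/-- The image of an idempotent matrix under a ring homomorphism. -/
def Idem.map {A B : Type u} [Ring A] [Ring B] (f : A →+* B) (p : Idem A) : Idem B where
  n := p.n
  e := p.e.map f
  idem := by rw [← Matrix.map_mul, p.idem]

theorem Idem.map_equiv {A B : Type u} [Ring A] [Ring B] (f : A →+* B) {p q : Idem A}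
    (h : p.Equiv q) : (p.map f).Equiv (q.map f) := by
  obtain ⟨a, b, h1, h2⟩ := h
  refine ⟨a.map f, b.map f, ?_, ?_⟩
  · show a.map f * b.map f = p.e.map f
    rw [← Matrix.map_mul, h1]
  · show b.map f * a.map f = q.e.map f
    rw [← Matrix.map_mul, h2]

theorem Idem.map_sum {A B : Type u} [Ring A] [Ring B] (f : A →+* B) (p q : Idem A) :
    (p.sum q).map f = (p.map f).sum (q.map f) := by
  unfold Idem.sum Idem.map
  congr 1
  ext i j
  simp only [Matrix.map_apply, Matrix.submatrix_apply]
  rcases finSumFinEquiv.symm i with i | i <;> rcases finSumFinEquiv.symm j with j | j <;>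
    simp [Matrix.fromBlocks]

theorem K0Rel_le_comap {A B : Type u} [Ring A] [Ring B] (f : A →+* B) :
    K0Rel A ≤ (K0Rel B).comap (FreeAbelianGroup.map (Idem.map f)) := by
  unfold K0Rel
  rw [AddSubgroup.closure_le]
  rintro x (⟨p, q, h, rfl⟩ | ⟨p, q, rfl⟩)
  · refine AddSubgroup.subset_closure (Or.inl ⟨p.map f, q.map f, Idem.map_equiv f h, ?_⟩)
    simp [FreeAbelianGroup.map_of_apply]
  · refine AddSubgroup.subset_closure (Or.inr ⟨p.map f, q.map f, ?_⟩)
    simp [FreeAbelianGroup.map_of_apply, Idem.map_sum]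

/-- Functoriality of `K₀`. -/
def K0.map {A B : Type u} [Ring A] [Ring B] (f : A →+* B) : K0 A →+ K0 B :=
  QuotientAddGroup.map _ _ (FreeAbelianGroup.map (Idem.map f)) (K0Rel_le_comap f)

theorem K0.map_cls {A B : Type u} [Ring A] [Ring B] (f : A →+* B) (p : Idem A) :
    K0.map f (K0.cls p) = K0.cls (p.map f) := by
  unfold K0.map K0.cls
  simp [FreeAbelianGroup.map_of_apply]

theorem K0.hom_ext {A : Type u} [Ring A] {M : Type*} [AddCommGroup M] {f g : K0 A →+ M}
    (h : ∀ p, f (K0.cls p) = g (K0.cls p)) : f = g := by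
  refine QuotientAddGroup.addMonoidHom_ext _ (FreeAbelianGroup.lift_ext _ _ fun p => h p)

/-- A functor from rings to abelian groups. -/
structure RFun where
  obj : (A : Type u) → [Ring A] → Type u
  grp : (A : Type u) → [Ring A] → AddCommGroup (obj A)
  hom : {A B : Type u} → [Ring A] → [Ring B] → (A →+* B) → (obj A →+ obj B)
  hom_id : ∀ {A : Type u} [Ring A], hom (RingHom.id A) = AddMonoidHom.id (obj A)
  hom_comp : ∀ {A B C : Type u} [Ring A] [Ring B] [Ring C] (g : B →+* C) (f : A →+* B),
    hom (g.comp f) = (hom g).comp (hom f)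

attribute [instance] RFun.grp

/-- The functor `K₀`. -/
def K0Fun : RFun.{u} where
  obj := fun A _ => K0 A
  grp := fun A _ => inferInstance
  hom := fun f => K0.map f
  hom_id := by
    intro A _
    refine K0.hom_ext fun p => ?_
    rw [K0.map_cls]
    simp [Idem.map]
  hom_comp := by
    intro A B C _ _ _ g f
    refine K0.hom_ext fun p => ?_
    simp only [AddMonoidHom.comp_apply, K0.map_cls]
    simp [Idem.map]

/-- The inclusion `A[t] → A[t, t⁻¹]`. -/
noncomputable def posMap (A : Type u) [Ring A] : Polynomial A →+* LaurentPolynomial A :=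
  Polynomial.toLaurent

/-- The automorphism `t ↦ t⁻¹` of `A[t, t⁻¹]`. -/
noncomputable def invMap (A : Type u) [Ring A] : LaurentPolynomial A →+* LaurentPolynomial A :=
  AddMonoidAlgebra.mapDomainRingHom A (-AddMonoidHom.id ℤ)

/-- The inclusion `A[t⁻¹] → A[t, t⁻¹]` (the polynomial variable goes to `t⁻¹`). -/
noncomputable def negMap (A : Type u) [Ring A] : Polynomial A →+* LaurentPolynomial A :=
  (invMap A).comp (posMap A)

/-- The map `A[t, t⁻¹] → B[t, t⁻¹]` induced by `A → B`. -/
noncomputable def lmap {A B : Type u} [Ring A] [Ring B] (f : A →+* B) :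
    LaurentPolynomial A →+* LaurentPolynomial B :=
  AddMonoidAlgebra.mapRingHom ℤ f

theorem lmap_C {A B : Type u} [Ring A] [Ring B] (f : A →+* B) (a : A) :
    lmap f (LaurentPolynomial.C a) = LaurentPolynomial.C (f a) := by
  show AddMonoidAlgebra.mapRingHom ℤ f (AddMonoidAlgebra.single 0 a) =
    AddMonoidAlgebra.single 0 (f a)
  rw [AddMonoidAlgebra.mapRingHom_single]

theorem lmap_T {A B : Type u} [Ring A] [Ring B] (f : A →+* B) (n : ℤ) :
    lmap f (LaurentPolynomial.T n) = LaurentPolynomial.T n := by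
  show AddMonoidAlgebra.mapRingHom ℤ f (AddMonoidAlgebra.single n 1) =
    AddMonoidAlgebra.single n 1
  rw [AddMonoidAlgebra.mapRingHom_single, map_one]

theorem invMap_C (A : Type u) [Ring A] (a : A) :
    invMap A (LaurentPolynomial.C a) = LaurentPolynomial.C a := by
  show AddMonoidAlgebra.mapDomain (⇑(-AddMonoidHom.id ℤ)) (AddMonoidAlgebra.single 0 a) =
    AddMonoidAlgebra.single 0 a
  rw [AddMonoidAlgebra.mapDomain_single]
  simp

theorem invMap_T (A : Type u) [Ring A] (n : ℤ) :
    invMap A (LaurentPolynomial.T n) = LaurentPolynomial.T (-n) := by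
  show AddMonoidAlgebra.mapDomain (⇑(-AddMonoidHom.id ℤ)) (AddMonoidAlgebra.single n 1) =
    AddMonoidAlgebra.single (-n) 1
  rw [AddMonoidAlgebra.mapDomain_single]
  rfl

/-- Two homomorphisms from `A[t, t⁻¹]` which agree on `A` and on `t` are equal. -/
theorem laurent_ext {A : Type u} {B : Type v} [Ring A] [Ring B] {f g : LaurentPolynomial A →+* B}
    (h : ∀ a, f (LaurentPolynomial.C a) = g (LaurentPolynomial.C a))
    (hT : ∀ n, f (LaurentPolynomial.T n) = g (LaurentPolynomial.T n)) : f = g :=
  AddMonoidAlgebra.ringHom_ext h hT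

theorem lmap_comp_posMap {A B : Type u} [Ring A] [Ring B] (f : A →+* B) :
    (lmap f).comp (posMap A) = (posMap B).comp (Polynomial.mapRingHom f) := by
  refine Polynomial.ringHom_ext (fun a => ?_) ?_
  · simp only [posMap, RingHom.comp_apply, Polynomial.toLaurent_C, Polynomial.coe_mapRingHom,
      Polynomial.map_C, lmap_C]
  · simp only [posMap, RingHom.comp_apply, Polynomial.toLaurent_X, Polynomial.coe_mapRingHom,
      Polynomial.map_X, lmap_T]

theorem lmap_comp_invMap {A B : Type u} [Ring A] [Ring B] (f : A →+* B) :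
    (lmap f).comp (invMap A) = (invMap B).comp (lmap f) := by
  refine laurent_ext (fun a => ?_) (fun n => ?_)
  · simp only [RingHom.comp_apply, lmap_C, invMap_C]
  · simp only [RingHom.comp_apply, lmap_T, invMap_T]

theorem lmap_comp_negMap {A B : Type u} [Ring A] [Ring B] (f : A →+* B) :
    (lmap f).comp (negMap A) = (negMap B).comp (Polynomial.mapRingHom f) := by
  unfold negMap
  rw [← RingHom.comp_assoc, lmap_comp_invMap, RingHom.comp_assoc, lmap_comp_posMap,
    ← RingHom.comp_assoc]

/-- The subgroup `im F(A[t]) + im F(A[t⁻¹])` of `F(A[t, t⁻¹])`. -/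
noncomputable def RFun.polySub (F : RFun.{u}) (A : Type u) [Ring A] :
    AddSubgroup (F.obj (LaurentPolynomial A)) :=
  (F.hom (posMap A)).range ⊔ (F.hom (negMap A)).range

theorem RFun.polySub_le_comap (F : RFun.{u}) {A B : Type u} [Ring A] [Ring B] (f : A →+* B) :
    F.polySub A ≤ (F.polySub B).comap (F.hom (lmap f)) := by
  refine sup_le ?_ ?_
  · rintro _ ⟨x, rfl⟩
    refine AddSubgroup.mem_sup_left ⟨F.hom (Polynomial.mapRingHom f) x, ?_⟩
    rw [← AddMonoidHom.comp_apply, ← F.hom_comp, ← lmap_comp_posMap, F.hom_comp]; rfl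
  · rintro _ ⟨x, rfl⟩
    refine AddSubgroup.mem_sup_right ⟨F.hom (Polynomial.mapRingHom f) x, ?_⟩
    rw [← AddMonoidHom.comp_apply, ← F.hom_comp, ← lmap_comp_negMap, F.hom_comp]; rfl

theorem lmap_id (A : Type u) [Ring A] : lmap (RingHom.id A) = RingHom.id _ := by
  simp [lmap]

theorem lmap_comp {A B C : Type u} [Ring A] [Ring B] [Ring C] (g : B →+* C) (f : A →+* B) :
    lmap (g.comp f) = (lmap g).comp (lmap f) := by
  simp [lmap]

/-- Bass's construction: `A ↦ coker (F(A[t]) ⊕ F(A[t⁻¹]) → F(A[t, t⁻¹]))`. -/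
noncomputable def RFun.bass (F : RFun.{u}) : RFun.{u} where
  obj := fun A _ => F.obj (LaurentPolynomial A) ⧸ F.polySub A
  grp := fun A _ => inferInstance
  hom := fun f => QuotientAddGroup.map _ _ (F.hom (lmap f)) (F.polySub_le_comap f)
  hom_id := by
    intro A _
    refine QuotientAddGroup.addMonoidHom_ext _ ?_
    ext x
    simp [lmap_id, F.hom_id]
  hom_comp := by
    intro A B C _ _ _ g f
    refine QuotientAddGroup.addMonoidHom_ext _ ?_
    ext x
    simp [lmap_comp, F.hom_comp]

/-- The functors `K_{-n}`. -/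
noncomputable def KNegFun : ℕ → RFun.{u}
  | 0 => K0Fun
  | n + 1 => (KNegFun n).bass

/-- `K_{-n}(A)`. -/
abbrev KNeg (n : ℕ) (A : Type u) [Ring A] : Type u := (KNegFun n).obj A

/-- `M` has a resolution `0 → P_n → ... → P_0 → M → 0` by finitely generated projective
modules. -/
def HasFPRes (R : Type u) [Ring R] : ℕ → (M : Type u) → [AddCommGroup M] → [Module R M] → Prop
  | 0, M, _, _ => Module.Finite R M ∧ Module.Projective R M
  | n + 1, M, _, _ => ∃ (P : Type u) (_ : AddCommGroup P) (_ : Module R P) (f : P →ₗ[R] M),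
      Module.Finite R P ∧ Module.Projective R P ∧ Function.Surjective f ∧
        HasFPRes R n (LinearMap.ker f)

/-- Regular rings: left noetherian, and every finitely generated left module has a finite
resolution by finitely generated projective modules. -/
def RegularRing (R : Type u) [Ring R] : Prop :=
  IsNoetherian R R ∧ ∀ (M : Type u) [AddCommGroup M] [Module R M], Module.Finite R M →
    ∃ n, HasFPRes R n M

/-- Torsionfree groups: every nontrivial element has infinite order. -/
def TorsionFree (G : Type u) [Group G] : Prop :=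
  ∀ (g : G) (n : ℕ), 0 < n → g ^ n = 1 → g = 1

end Pool.Agent.NegK
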