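import Pool.Agent.Lib.MP_28303a_al.NK.Skolem
import Pool.Agent.Lib.MP_28303a_al.NK.FPRes

/-! # Countable regular subrings of regular rings -/

set_option autoImplicit false

namespace Pool.Agent.NegK

universe u v w

section

variable {R : Type u} [Ring R] {R₀ : Subring R}

/-- The matrix over `R` of a matrix over the subring `R₀`. -/
abbrev up {n m : ℕ} (A : Matrix (Fin n) (Fin m) R₀) : Matrix (Fin n) (Fin m) R :=
  A.map R₀.subtype

/-- The vector over `R` of a vector over the subring `R₀`. -/
abbrev upv {n : ℕ} (x : Fin n → R₀) : Fin n → R := fun i => (x i : R)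

theorem up_mul {k n m : ℕ} (A : Matrix (Fin k) (Fin n) R₀) (B : Matrix (Fin n) (Fin m) R₀) :
    up (A * B) = up A * up B := Matrix.map_mul

theorem up_vecMul {n m : ℕ} (x : Fin n → R₀) (A : Matrix (Fin n) (Fin m) R₀) :
    upv (Matrix.vecMul x A) = Matrix.vecMul (upv x) (up A) := by
  ext j
  simp [Matrix.vecMul, dotProduct, upv, up]

theorem upv_inj {n : ℕ} {x y : Fin n → R₀} (h : upv x = upv y) : x = y :=
  funext fun i => Subtype.ext (congrFun h i)

theorem up_inj {n m : ℕ} {A B : Matrix (Fin n) (Fin m) R₀} (h : up A = up B) : A = B := by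
  ext i j
  exact congrFun (congrFun h i) j

theorem Good.solve' (h : Good R₀) {n m : ℕ} (A : Matrix (Fin n) (Fin m) R₀) (b : Fin m → R₀)
    (hx : ∃ x : Fin n → R, Matrix.vecMul x (up A) = upv b) :
    ∃ x : Fin n → R₀, Matrix.vecMul x A = b := by
  obtain ⟨x, h1, h2⟩ := h.solve n m (up A) (upv b) (fun i j => (A i j).2) (fun j => (b j).2) hx
  refine ⟨fun i => ⟨x i, h1 i⟩, upv_inj ?_⟩
  rw [up_vecMul]
  exact h2

theorem Good.ker' (h : Good R₀) {n m : ℕ} (A : Matrix (Fin n) (Fin m) R₀) :
    ∃ (k : ℕ) (B : Matrix (Fin k) (Fin n) R₀), B * A = 0 ∧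
      (∀ x : Fin n → R, Matrix.vecMul x (up A) = 0 → ∃ y : Fin k → R,
        Matrix.vecMul y (up B) = x) ∧
      (∀ x : Fin n → R₀, Matrix.vecMul x A = 0 → ∃ y : Fin k → R₀, Matrix.vecMul y B = x) := by
  obtain ⟨k, B, h1, h2, h3⟩ := h.ker n m (up A) (fun i j => (A i j).2)
  let B₀ : Matrix (Fin k) (Fin n) R₀ := Matrix.of fun i j => ⟨B i j, h1 i j⟩
  have hB : up B₀ = B := rfl
  refine ⟨k, B₀, ?_, ?_, ?_⟩
  · refine up_inj ?_
    rw [up_mul, hB, h2]
    ext i j
    simp
  · intro x hx
    rw [hB]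
    exact h3 x hx
  · intro x hx
    refine h.solve' B₀ x ?_
    rw [hB]
    refine h3 _ ?_
    rw [← up_vecMul, hx]
    ext j
    simp [upv]

theorem Good.split' (h : Good R₀) {k n m : ℕ} (B : Matrix (Fin k) (Fin n) R₀)
    (A : Matrix (Fin n) (Fin m) R₀)
    (hE : ∃ E : Matrix (Fin n) (Fin n) R, up B * E = 0 ∧ E * up A = up A) :
    ∃ E : Matrix (Fin n) (Fin n) R₀, B * E = 0 ∧ E * A = A := by
  obtain ⟨E, h1, h2, h3⟩ := h.split k n m (up B) (up A) (fun i j => (B i j).2)
    (fun i j => (A i j).2) hE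
  refine ⟨Matrix.of fun i j => ⟨E i j, h1 i j⟩, up_inj ?_, up_inj ?_⟩
  · rw [up_mul]
    refine Eq.trans h2 ?_
    ext i j
    simp
  · rw [up_mul]
    exact h3

/-- A good subring of a left noetherian ring is left noetherian. -/
theorem Good.noetherian (h : Good R₀) (hR : IsNoetherian R R) : IsNoetherian R₀ R₀ := by
  refine ⟨fun I => ?_⟩
  let s : Set R := (fun x : R₀ => (x : R)) '' (I : Set R₀)
  have h1 : (Submodule.span R s).FG := IsNoetherian.noetherian _
  rw [Submodule.fg_span_iff_fg_span_finset_subset] at h1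
  obtain ⟨t, ht1, ht2⟩ := h1
  have h2 : ∀ x : t, ∃ y : R₀, y ∈ I ∧ (y : R) = x := fun x => by
    obtain ⟨y, hy1, hy2⟩ := ht1 x.2
    exact ⟨y, hy1, hy2⟩
  choose g hg1 hg2 using h2
  classical
  let e : t ≃ Fin t.card := t.equivFin
  let A : Matrix (Fin t.card) (Fin 1) R₀ := Matrix.of fun i _ => g (e.symm i)
  refine Submodule.fg_def.2 ⟨Set.range g, Set.finite_range g, ?_⟩
  refine le_antisymm (Submodule.span_le.2 ?_) ?_
  · rintro _ ⟨x, rfl⟩
    exact hg1 x
  · intro b hb
    have h3 : (b : R) ∈ Submodule.span R (t : Set R) := by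
      rw [← ht2]
      exact Submodule.subset_span ⟨b, hb, rfl⟩
    rw [Submodule.mem_span_finset'] at h3
    obtain ⟨f, hf⟩ := h3
    obtain ⟨x, hx⟩ := h.solve' A (fun _ => b) ⟨fun i => f (e.symm i), by
      ext j
      have h4 : Matrix.vecMul (fun i => f (e.symm i)) (up A) j =
          ∑ i, f (e.symm i) * ((e.symm i : t) : R) := by
        simp only [Matrix.vecMul, dotProduct, up, A, Matrix.map_apply, Matrix.of_apply]
        refine Finset.sum_congr rfl fun i _ => ?_
        rw [← hg2]; rfl
      refine h4.trans (Eq.trans ?_ hf)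
      exact Equiv.sum_comp e.symm (fun a : t => f a * (a : R))⟩
    have h5 : b = ∑ i, x i * g (e.symm i) := by
      have := congrFun hx 0
      simp only [Matrix.vecMul, dotProduct, A, Matrix.of_apply] at this
      exact this.symm
    rw [h5]
    refine Submodule.sum_mem _ fun i _ => ?_
    exact Submodule.smul_mem _ _ (Submodule.subset_span ⟨_, rfl⟩)

theorem range_eq_ker {A : Type u} [Ring A] {k n m : ℕ} (B : Matrix (Fin k) (Fin n) A)
    (C : Matrix (Fin n) (Fin m) A) (h1 : B * C = 0)
    (h2 : ∀ x : Fin n → A, Matrix.vecMul x C = 0 → ∃ y : Fin k → A, Matrix.vecMul y B = x) :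
    LinearMap.ker (LinearMap.rangeRestrict C.vecMulLinear) = LinearMap.range B.vecMulLinear := by
  rw [LinearMap.ker_rangeRestrict]
  ext x
  constructor
  · intro hx
    obtain ⟨y, hy⟩ := h2 x hx
    exact ⟨y, hy⟩
  · rintro ⟨y, rfl⟩
    rw [LinearMap.mem_ker]
    show Matrix.vecMul (Matrix.vecMul y B) C = 0
    rw [Matrix.vecMul_vecMul, h1, Matrix.vecMul_zero]

/-- Resolutions of images of matrices descend to good subrings. -/
theorem Good.res (h : Good R₀) (d : ℕ) : ∀ {n m : ℕ} (A : Matrix (Fin n) (Fin m) R₀),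
    HasFPRes R d (LinearMap.range (up A).vecMulLinear) →
    HasFPRes R₀ d (LinearMap.range A.vecMulLinear) := by
  induction d with
  | zero =>
    intro n m A hA
    obtain ⟨_, hproj⟩ := hA
    obtain ⟨k, B, hB1, hB2, hB3⟩ := h.ker' A
    obtain ⟨s, hs⟩ := Module.projective_lifting_property
      (LinearMap.rangeRestrict (up A).vecMulLinear) LinearMap.id (LinearMap.surjective_rangeRestrict _)
    let F : (Fin n → R) →ₗ[R] (Fin n → R) := s ∘ₗ LinearMap.rangeRestrict (up A).vecMulLinear
    let E : Matrix (Fin n) (Fin n) R := LinearMap.toMatrixRight' F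
    have hE : ∀ x : Fin n → R, Matrix.vecMul x E = F x := by
      intro x
      have h1 : Matrix.toLinearMapRight' E = F := LinearEquiv.symm_apply_apply _ _
      rw [← h1]
      rfl
    have hFA : ∀ x : Fin n → R, Matrix.vecMul (F x) (up A) = Matrix.vecMul x (up A) := by
      intro x
      have h1 := LinearMap.congr_fun hs (LinearMap.rangeRestrict (up A).vecMulLinear x)
      exact congrArg Subtype.val h1
    obtain ⟨E₀, hE1, hE2⟩ := h.split' B A ⟨E, by
      ext i j
      have h1 : (up B * E) i = Matrix.vecMul ((up B) i) E := rfl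
      rw [h1, hE]
      have h2 : LinearMap.rangeRestrict (up A).vecMulLinear ((up B) i) = 0 := by
        refine Subtype.ext ?_
        show (up B * up A) i = 0
        rw [← up_mul, hB1]
        ext j
        simp
      show (s (LinearMap.rangeRestrict (up A).vecMulLinear ((up B) i))) j = 0
      rw [h2, map_zero]; rfl, by
      ext1 i j
      have h1 : (E * up A) i = Matrix.vecMul (E i) (up A) := rfl
      have h2 : E i = F (Pi.single i 1) := by
        rw [← hE, Matrix.single_one_vecMul]; rfl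
      rw [h1, h2, hFA, Matrix.single_one_vecMul]; rfl⟩
    refine ⟨inferInstance, ?_⟩
    -- the section over `R₀`
    have hker : LinearMap.ker A.vecMulLinear ≤ LinearMap.ker E₀.vecMulLinear := by
      intro x hx
      obtain ⟨y, rfl⟩ := hB3 x hx
      rw [LinearMap.mem_ker]
      show Matrix.vecMul (Matrix.vecMul y B) E₀ = 0
      rw [Matrix.vecMul_vecMul, hE1, Matrix.vecMul_zero]
    let s₀ : LinearMap.range A.vecMulLinear →ₗ[R₀] (Fin n → R₀) :=
      ((LinearMap.ker A.vecMulLinear).liftQ E₀.vecMulLinear hker) ∘ₗ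
        (LinearMap.quotKerEquivRange A.vecMulLinear).symm.toLinearMap
    refine Module.Projective.of_split s₀ (LinearMap.rangeRestrict A.vecMulLinear) ?_
    refine LinearMap.ext ?_
    rintro ⟨_, x, rfl⟩
    have h1 : s₀ ⟨A.vecMulLinear x, ⟨x, rfl⟩⟩ = E₀.vecMulLinear x := by
      have h2 : (LinearMap.quotKerEquivRange A.vecMulLinear).symm
          ⟨A.vecMulLinear x, ⟨x, rfl⟩⟩ = Submodule.Quotient.mk x := by
        rw [LinearEquiv.symm_apply_eq]
        rfl
      show (LinearMap.ker A.vecMulLinear).liftQ E₀.vecMulLinear hker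
        ((LinearMap.quotKerEquivRange A.vecMulLinear).symm _) = _
      rw [h2]
      rfl
    refine Subtype.ext ?_
    show A.vecMulLinear (s₀ ⟨A.vecMulLinear x, ⟨x, rfl⟩⟩) = A.vecMulLinear x
    rw [h1]
    show Matrix.vecMul (Matrix.vecMul x E₀) A = Matrix.vecMul x A
    rw [Matrix.vecMul_vecMul, hE2]
  | succ d ih =>
    intro n m A hA
    obtain ⟨k, B, hB1, hB2, hB3⟩ := h.ker' A
    have h1 := hA.syz (R := R) (P := Fin n → R) inferInstance inferInstance
      (LinearMap.rangeRestrict (up A).vecMulLinear) (LinearMap.surjective_rangeRestrict _)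
    rw [range_eq_ker (up B) (up A) (by
      rw [← up_mul, hB1]
      ext i j
      simp) hB2] at h1
    have h2 := ih B h1
    rw [← range_eq_ker B A hB1 hB3] at h2
    exact ⟨Fin n → R₀, inferInstance, inferInstance, LinearMap.rangeRestrict A.vecMulLinear,
      inferInstance, inferInstance, (LinearMap.surjective_rangeRestrict _), h2⟩

/-- A good subring of a regular ring is regular. -/
theorem Good.regular (h : Good R₀) (hR : RegularRing R) : RegularRing R₀ := by
  have hN : IsNoetherian R₀ R₀ := h.noetherian hR.1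
  refine ⟨hN, fun M _ _ hM => ?_⟩
  obtain ⟨m, g, hg⟩ := Module.Finite.exists_fin' R₀ M
  have h1 : (LinearMap.ker g).FG := IsNoetherian.noetherian _
  rw [Submodule.fg_iff_exists_fin_generating_family] at h1
  obtain ⟨n, A, hA⟩ := h1
  have h2 : LinearMap.ker g =
      LinearMap.range (Matrix.vecMulLinear (A : Matrix (Fin n) (Fin m) R₀)) := by
    rw [range_vecMulLinear]
    exact hA.symm
  obtain ⟨d, hd⟩ := hR.2 (LinearMap.range (up (A : Matrix (Fin n) (Fin m) R₀)).vecMulLinear)
    inferInstance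
  have h3 := h.res d A hd
  rw [← h2] at h3
  exact ⟨d + 1, Fin m → R₀, inferInstance, inferInstance, g, inferInstance, inferInstance, hg, h3⟩

end

/-- Every countable subset of a regular ring lies in a countable regular subring. -/
theorem exists_countable_regular {R : Type u} [Ring R] (hR : RegularRing R) (X : Set R)
    (hX : X.Countable) : ∃ R₀ : Subring R, X ⊆ R₀ ∧ Countable R₀ ∧ RegularRing R₀ := by
  obtain ⟨R₀, h1, h2, h3⟩ := exists_good hR.1 X hX
  exact ⟨R₀, h1, h2, h3.regular hR⟩

end Pool.Agent.NegK
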