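import Pool.Agent.Lib.MP_28303a_al.NK.Inj
import Pool.Agent.Lib.MP_28303a_al.NK.Hull
import Pool.Agent.Lib.MP_28303a_al.NK.H12.Emb
import Pool.Agent.Lib.MP_28303a_al.NK.H12.Hnntf
import Pool.Agent.Lib.MP_28303a_al.NK.H21.Hnnt
import Pool.Agent.Lib.MP_28303a_al.NK.H50.Ext
import Pool.Agent.Lib.MP_28303a_al.NK.H50.Free
import Pool.Agent.Lib.MP_28303a_al.NK.H64.Kfree
import Pool.Agent.Lib.MP_28303a_al.NK.H78.Lreg
import Pool.Agent.Lib.MP_28303a_al.NK.H91.Vert

/-! # `K_{-1}` of HNN extensions and the two-generated universal group -/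

set_option autoImplicit false

namespace Pool.Agent.NegK

universe u v w

open H64 (swapEquiv)

theorem polySub_eq_top_of {A : Type u} [Ring A] (h : Subsingleton (KNeg 1 A)) :
    K0Fun.polySub A = ⊤ := by
  rw [eq_top_iff]
  rintro z -
  have h1 : (QuotientAddGroup.mk' (K0Fun.polySub A) z : KNeg 1 A) = 0 :=
    @Subsingleton.elim _ h _ _
  exact (QuotientAddGroup.eq_zero_iff z).1 h1

theorem KNeg_one_of_top {A : Type u} [Ring A] (h : K0Fun.polySub A = ⊤) :
    Subsingleton (KNeg 1 A) := by
  show Subsingleton (K0 (LaurentPolynomial A) ⧸ K0Fun.polySub A)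
  rw [h]
  exact QuotientAddGroup.subsingleton_quotient_top

theorem swapEquiv_single_single (R : Type u) [Ring R] (F : Type v) [Group F] (g : F) (n : ℤ)
    (r : R) : swapEquiv R F (MonoidAlgebra.single g (AddMonoidAlgebra.single n r)) =
      AddMonoidAlgebra.single n (MonoidAlgebra.single g r) := by
  show (AddMonoidAlgebra.toMultiplicative (MonoidAlgebra R F) ℤ).symm
    (MonoidAlgebra.commRingEquiv (R := R) (M := Multiplicative ℤ) (N := F)
      (MonoidAlgebra.mapRingEquiv F (AddMonoidAlgebra.toMultiplicative R ℤ)
        (MonoidAlgebra.single g (AddMonoidAlgebra.single n r)))) = _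
  rw [MonoidAlgebra.mapRingEquiv_single, AddMonoidAlgebra.toMultiplicative_single,
    MonoidAlgebra.commRingEquiv_single_single, RingEquiv.symm_apply_eq]
  exact (AddMonoidAlgebra.toMultiplicative_single _ _).symm

theorem swap_ext {R : Type u} [Ring R] {F : Type v} [Group F] {B : Type w} [Ring B]
    {f g : MonoidAlgebra (LaurentPolynomial R) F →+* B}
    (h : ∀ (a : F) (n : ℤ) (r : R),
      f (MonoidAlgebra.single a (AddMonoidAlgebra.single n r)) =
        g (MonoidAlgebra.single a (AddMonoidAlgebra.single n r))) : f = g := by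
  refine RingHom.ext fun x => ?_
  induction x using MonoidAlgebra.induction_linear with
  | zero => rw [map_zero, map_zero]
  | add x y hx hy => rw [map_add, map_add, hx, hy]
  | single a r =>
    induction r using AddMonoidAlgebra.induction_linear with
    | zero => rw [MonoidAlgebra.single_zero, map_zero, map_zero]
    | add x y hx hy => rw [MonoidAlgebra.single_add, map_add, map_add, hx, hy]
    | single n r => exact h a n r

theorem lmap_single {A B : Type u} [Ring A] [Ring B] (f : A →+* B) (n : ℤ) (a : A) :
    lmap f (AddMonoidAlgebra.single n a) = AddMonoidAlgebra.single n (f a) := by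
  unfold lmap
  rw [AddMonoidAlgebra.mapRingHom_single]

theorem swap_nat (R : Type u) [Ring R] {F G : Type} [Group F] [Group G] (f : F →* G) :
    ((swapEquiv R G : _ →+* _).comp
      (MonoidAlgebra.mapDomainRingHom (LaurentPolynomial R) f)) =
    (lmap (MonoidAlgebra.mapDomainRingHom R f)).comp (swapEquiv R F : _ →+* _) := by
  refine swap_ext fun a n r => ?_
  show swapEquiv R G (MonoidAlgebra.mapDomainRingHom (LaurentPolynomial R) f
    (MonoidAlgebra.single a (AddMonoidAlgebra.single n r))) =
    lmap (MonoidAlgebra.mapDomainRingHom R f) (swapEquiv R F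
      (MonoidAlgebra.single a (AddMonoidAlgebra.single n r)))
  rw [swapEquiv_single_single, lmap_single, MonoidAlgebra.mapDomainRingHom_apply,
    MonoidAlgebra.mapDomainRingHom_apply, MonoidAlgebra.mapDomain_single,
    MonoidAlgebra.mapDomain_single]
  exact swapEquiv_single_single R G (f a) n r

theorem swap_one (R : Type u) [Ring R] (F : Type) [Group F] :
    ((swapEquiv R F : _ →+* _).comp
      (MonoidAlgebra.singleOneRingHom : LaurentPolynomial R →+*
        MonoidAlgebra (LaurentPolynomial R) F)) =
    lmap (MonoidAlgebra.singleOneRingHom : R →+* MonoidAlgebra R F) := by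
  refine RingHom.ext fun x => ?_
  show swapEquiv R F (MonoidAlgebra.single 1 x) = lmap _ x
  induction x using AddMonoidAlgebra.induction_linear with
  | zero => rw [MonoidAlgebra.single_zero, map_zero, map_zero]
  | add x y hx hy => rw [MonoidAlgebra.single_add, map_add, map_add, hx, hy]
  | single n r =>
    rw [swapEquiv_single_single, lmap_single]
    rfl

/-- The vertex group of an HNN extension: if `K_{-1}` of the group ring of the associated subgroup
vanishes, then `K_{-1}` of the group ring of the base group injects into `K_{-1}` of the group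
ring of the HNN extension (here in terms of the subgroups `polySub`). -/
theorem mem_polySub_of_hnn (R : Type u) [Ring R] (K : Type) [Group K] (A B : Subgroup K)
    (φ : A ≃* B) (hA : Subsingleton (KNeg 1 (MonoidAlgebra R A)))
    (z : K0 (LaurentPolynomial (MonoidAlgebra R K)))
    (hz : K0.map (lmap (MonoidAlgebra.mapDomainRingHom R
      (HNNExtension.of : K →* HNNExtension K A B φ))) z ∈
        K0Fun.polySub (MonoidAlgebra R (HNNExtension K A B φ))) :
    z ∈ K0Fun.polySub (MonoidAlgebra R K) := by
  obtain ⟨S, hS⟩ := H21.hnnt K A B φ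
  let of' : K →* HNNExtension K A B φ := HNNExtension.of
  have hof : Function.Injective of' := HNNExtension.of_injective φ
  have hR : Subsingleton (KNeg 1 R) := by
    refine (KNegFun 1).subsingleton_of_retract (MonoidAlgebra.singleOneRingHom)
      (MonoidAlgebra.liftNCRingHom (RingHom.id R) (1 : A →* R)
        (fun _ _ => Commute.one_right _)) ?_ hA
    ext r
    have h1 := MonoidAlgebra.liftNCRingHom_single (RingHom.id R) (1 : A →* R)
      (fun _ _ => Commute.one_right _) 1 r
    refine Eq.trans h1 ?_
    simp
  have hB : Subsingleton (KNeg 1 (MonoidAlgebra R B)) :=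
    (KNegFun 1).subsingleton_congr (MonoidAlgebra.mapDomainRingEquiv R φ).symm hA
  let A' : Bool → Subgroup (HNNExtension K A B φ) := fun b => (if b then A else B).map of'
  have hA' : ∀ b, Subsingleton (KNeg 1 (MonoidAlgebra R (A' b))) := by
    intro b
    cases b with
    | false => exact (KNegFun 1).subsingleton_congr (MonoidAlgebra.mapDomainRingEquiv R
        (B.equivMapOfInjective of' hof)).symm hB
    | true => exact (KNegFun 1).subsingleton_congr (MonoidAlgebra.mapDomainRingEquiv R
        (A.equivMapOfInjective of' hof)).symm hA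
  let e : K ≃* of'.range := MonoidHom.ofInjective hof
  have key : ∀ z : K0 (LaurentPolynomial (MonoidAlgebra R K)),
      K0.map (lmap (MonoidAlgebra.mapDomainRingHom R of')) z = 0 →
      z ∈ K0Fun.polySub (MonoidAlgebra R K) := by
    intro z hz
    let z1 : K0 (MonoidAlgebra (LaurentPolynomial R) of'.range) :=
      K0.map (MonoidAlgebra.mapDomainRingHom (LaurentPolynomial R) (e : K →* of'.range))
        (K0.map ((swapEquiv R K).symm :
          LaurentPolynomial (MonoidAlgebra R K) →+* MonoidAlgebra (LaurentPolynomial R) K) z)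
    have hz1 : K0.map (MonoidAlgebra.mapDomainRingHom (LaurentPolynomial R) of'.range.subtype) z1 = 0 := by
      show K0.map (MonoidAlgebra.mapDomainRingHom (LaurentPolynomial R) of'.range.subtype)
        (K0.map (MonoidAlgebra.mapDomainRingHom (LaurentPolynomial R) (e : K →* of'.range))
        (K0.map ((swapEquiv R K).symm :
          LaurentPolynomial (MonoidAlgebra R K) →+* MonoidAlgebra (LaurentPolynomial R) K) z)) = 0
      rw [K0.map_map, K0.map_map, ← MonoidAlgebra.mapDomainRingHom_comp]
      have h1 : of'.range.subtype.comp (e : K →* of'.range) = of' := by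
        ext x
        rfl
      rw [h1]
      have h2 : (MonoidAlgebra.mapDomainRingHom (LaurentPolynomial R) of').comp
          ((swapEquiv R K).symm :
          LaurentPolynomial (MonoidAlgebra R K) →+* MonoidAlgebra (LaurentPolynomial R) K) =
          ((swapEquiv R (HNNExtension K A B φ)).symm : _ →+* _).comp
            (lmap (MonoidAlgebra.mapDomainRingHom R of')) := by
        refine RingHom.ext fun x => ?_
        show MonoidAlgebra.mapDomainRingHom (LaurentPolynomial R) of' ((swapEquiv R K).symm x) =
          (swapEquiv R (HNNExtension K A B φ)).symm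
            (lmap (MonoidAlgebra.mapDomainRingHom R of') x)
        rw [RingEquiv.eq_symm_apply]
        have h3 := RingHom.congr_fun (swap_nat R of') ((swapEquiv R K).symm x)
        refine Eq.trans h3 ?_
        show lmap (MonoidAlgebra.mapDomainRingHom R of')
          (swapEquiv R K ((swapEquiv R K).symm x)) = _
        rw [RingEquiv.apply_symm_apply]
      rw [h2, ← K0.map_map, hz, map_zero]
    have h1 := H91.vert (LaurentPolynomial R) (HNNExtension K A B φ) of'.range Bool A' S hS z1 hz1
    let ρ : MonoidAlgebra (LaurentPolynomial R) of'.range →+* LaurentPolynomial (MonoidAlgebra R K) :=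
      (swapEquiv R K : _ →+* _).comp
        (MonoidAlgebra.mapDomainRingHom (LaurentPolynomial R) (e.symm : of'.range →* K))
    have hρ : K0.map ρ z1 = z := by
      show K0.map ρ (K0.map (MonoidAlgebra.mapDomainRingHom (LaurentPolynomial R) (e : K →* of'.range))
        (K0.map ((swapEquiv R K).symm :
          LaurentPolynomial (MonoidAlgebra R K) →+* MonoidAlgebra (LaurentPolynomial R) K) z)) = z
      rw [K0.map_map, K0.map_map]
      have h2 : (ρ.comp (MonoidAlgebra.mapDomainRingHom (LaurentPolynomial R) (e : K →* of'.range))).comp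
          ((swapEquiv R K).symm :
          LaurentPolynomial (MonoidAlgebra R K) →+* MonoidAlgebra (LaurentPolynomial R) K) = RingHom.id _ := by
        refine RingHom.ext fun x => ?_
        have h3 : (MonoidAlgebra.mapDomainRingHom (LaurentPolynomial R)
            (e.symm : of'.range →* K)).comp (MonoidAlgebra.mapDomainRingHom (LaurentPolynomial R)
            (e : K →* of'.range)) = RingHom.id _ := by
          rw [← MonoidAlgebra.mapDomainRingHom_comp]
          have h4 : (e.symm : of'.range →* K).comp (e : K →* of'.range) = MonoidHom.id K := by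
            ext x
            exact e.symm_apply_apply x
          rw [h4, MonoidAlgebra.mapDomainRingHom_id]
        have h5 := RingHom.congr_fun h3 ((swapEquiv R K).symm x)
        refine Eq.trans (congrArg (swapEquiv R K) h5) ?_
        exact (swapEquiv R K).apply_symm_apply x
      rw [h2, K0.map_id]
    rw [← hρ]
    have h4 : (K0.map (MonoidAlgebra.singleOneRingHom : LaurentPolynomial R →+* MonoidAlgebra (LaurentPolynomial R) of'.range)).range ⊔
        ⨆ j, (K0.map (MonoidAlgebra.mapDomainRingHom (LaurentPolynomial R)
          (Subgroup.inclusion (hS.le j)))).range ≤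
        (K0Fun.polySub (MonoidAlgebra R K)).comap (K0.map ρ) := by
      refine sup_le ?_ (iSup_le fun j => ?_)
      · rintro _ ⟨y, rfl⟩
        show K0.map ρ (K0.map _ y) ∈ K0Fun.polySub (MonoidAlgebra R K)
        rw [K0.map_map]
        have h5 : ρ.comp (MonoidAlgebra.singleOneRingHom : LaurentPolynomial R →+* MonoidAlgebra (LaurentPolynomial R) of'.range) =
            lmap (MonoidAlgebra.singleOneRingHom : R →+* MonoidAlgebra R K) := by
          rw [← swap_one R K]
          show ((swapEquiv R K : MonoidAlgebra (LaurentPolynomial R) K →+*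
            LaurentPolynomial (MonoidAlgebra R K)).comp
            (MonoidAlgebra.mapDomainRingHom (LaurentPolynomial R) (e.symm : of'.range →* K))).comp _ = _
          rw [RingHom.comp_assoc]
          congr 1
          refine RingHom.ext fun x => ?_
          show MonoidAlgebra.mapDomainRingHom (LaurentPolynomial R) (e.symm : of'.range →* K)
            (MonoidAlgebra.single 1 x) = MonoidAlgebra.single 1 x
          rw [MonoidAlgebra.mapDomainRingHom_apply, MonoidAlgebra.mapDomain_single, map_one]
        rw [h5]
        refine K0Fun.polySub_le_comap (MonoidAlgebra.singleOneRingHom : R →+*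
          MonoidAlgebra R K) ?_
        rw [polySub_eq_top_of hR]
        exact AddSubgroup.mem_top _
      · rintro _ ⟨y, rfl⟩
        show K0.map ρ (K0.map _ y) ∈ K0Fun.polySub (MonoidAlgebra R K)
        rw [K0.map_map]
        have h5 : ρ.comp (MonoidAlgebra.mapDomainRingHom (LaurentPolynomial R) (Subgroup.inclusion (hS.le j))) =
            (lmap (MonoidAlgebra.mapDomainRingHom R ((e.symm : of'.range →* K).comp
              (Subgroup.inclusion (hS.le j))))).comp (swapEquiv R (A' j) : _ →+* _) := by
          rw [← swap_nat R]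
          show ((swapEquiv R K : MonoidAlgebra (LaurentPolynomial R) K →+*
            LaurentPolynomial (MonoidAlgebra R K)).comp
            (MonoidAlgebra.mapDomainRingHom (LaurentPolynomial R) (e.symm : of'.range →* K))).comp _ = _
          rw [RingHom.comp_assoc, ← MonoidAlgebra.mapDomainRingHom_comp]
        rw [h5, ← K0.map_map]
        refine K0Fun.polySub_le_comap (MonoidAlgebra.mapDomainRingHom R
          ((e.symm : of'.range →* K).comp (Subgroup.inclusion (hS.le j)))) ?_
        rw [polySub_eq_top_of (hA' j)]
        exact AddSubgroup.mem_top _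
    exact h4 h1
  exact inj (MonoidAlgebra R K) (MonoidAlgebra R (HNNExtension K A B φ))
    (MonoidAlgebra.mapDomainRingHom R of') key z hz

/-- The base group of an HNN extension: if `K_{-1}` of the group ring of the associated subgroup
vanishes, then `K_{-1}(RK) → K_{-1}(R HNN)` is injective. -/
theorem kneg_hnn_injective (R : Type u) [Ring R] (K : Type) [Group K] (A B : Subgroup K)
    (φ : A ≃* B) (hA : Subsingleton (KNeg 1 (MonoidAlgebra R A))) :
    Function.Injective ((KNegFun.{u} 1).hom (MonoidAlgebra.mapDomainRingHom R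
      (HNNExtension.of : K →* HNNExtension K A B φ))) := by
  rw [injective_iff_map_eq_zero]
  intro x hx
  obtain ⟨z, rfl⟩ := QuotientAddGroup.mk'_surjective (K0Fun.polySub (MonoidAlgebra R K)) x
  have h1 : K0Fun.hom (lmap (MonoidAlgebra.mapDomainRingHom R
      (HNNExtension.of : K →* HNNExtension K A B φ))) z ∈
        K0Fun.polySub (MonoidAlgebra R (HNNExtension K A B φ)) :=
    (QuotientAddGroup.eq_zero_iff (K0Fun.hom (lmap (MonoidAlgebra.mapDomainRingHom R
      (HNNExtension.of : K →* HNNExtension K A B φ))) z)).1 hx
  exact (QuotientAddGroup.eq_zero_iff _).2 (mem_polySub_of_hnn R K A B φ hA z h1)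

/-- If moreover `K_{-1}` of the group ring of the HNN extension vanishes, then `K_{-1}` of the
group ring of the base group vanishes. -/
theorem kneg_hnn (R : Type u) [Ring R] (K : Type) [Group K] (A B : Subgroup K) (φ : A ≃* B)
    (hA : Subsingleton (KNeg 1 (MonoidAlgebra R A)))
    (hΓ : Subsingleton (KNeg 1 (MonoidAlgebra R (HNNExtension K A B φ)))) :
    Subsingleton (KNeg 1 (MonoidAlgebra R K)) := by
  refine KNeg_one_of_top ?_
  rw [eq_top_iff]
  rintro z -
  refine mem_polySub_of_hnn R K A B φ hA z ?_
  rw [polySub_eq_top_of hΓ]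
  exact AddSubgroup.mem_top _

/-- `K_{-1}(R[F]) = 0` for regular `R` and the free group `F` of countable rank. -/
theorem kneg_free (R : Type u) [Ring R] (hR : RegularRing R) :
    Subsingleton (KNeg 1 (MonoidAlgebra R (FreeGroup ℕ))) :=
  H64.kfree (H78.lreg H50.ext) H50.free R hR

theorem torsionFree_free (α : Type u) : TorsionFree (FreeGroup α) := by
  intro g n hn hg
  have h1 : g ^ n = 1 ^ n := by rw [hg, one_pow]
  exact (pow_left_injective hn.ne') h1

theorem torsionFree_prod {G : Type u} {H : Type v} [Group G] [Group H] (hG : TorsionFree G)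
    (hH : TorsionFree H) (x : G × H) (n : ℕ) (hn : 0 < n) (hx : x ^ n = 1) : x = 1 := by
  rw [Prod.ext_iff] at hx
  exact Prod.ext (hG _ n hn hx.1) (hH _ n hn hx.2)

/-- A retract. -/
theorem kneg_prod_left (R : Type u) [Ring R] (G H : Type) [Group G] [Group H]
    (h : Subsingleton (KNeg 1 (MonoidAlgebra R (G × H)))) :
    Subsingleton (KNeg 1 (MonoidAlgebra R G)) := by
  refine (KNegFun 1).subsingleton_of_retract
    (MonoidAlgebra.mapDomainRingHom R (MonoidHom.inl G H))
    (MonoidAlgebra.mapDomainRingHom R (MonoidHom.fst G H)) ?_ h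
  rw [← MonoidAlgebra.mapDomainRingHom_comp, MonoidHom.fst_comp_inl,
    MonoidAlgebra.mapDomainRingHom_id]

theorem exists_gamma : ∃ (Γ : Type) (_ : Group Γ), TorsionFree Γ ∧
    (∃ a b : Γ, Subgroup.closure {a, b} = ⊤) ∧
    ∀ (R : Type u) [Ring R], RegularRing R →
      ((∀ (G : Type u) [Group G], TorsionFree G →
        ∀ n : ℕ, Subsingleton (KNeg (n + 1) (MonoidAlgebra R G))) ↔
      Subsingleton (KNeg 1 (MonoidAlgebra R Γ))) := by
  have : Countable UGrp := countable_UGrp
  obtain ⟨A, B, φ, ⟨hA⟩, a, b, hab⟩ := H12.emb UGrp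
  have htf : TorsionFree (HNNExtension (UGrp × FreeGroup Bool) A B φ) :=
    H12.hnntf _ A B φ (fun x n hn hx =>
      torsionFree_prod torsionFree_UGrp (torsionFree_free Bool) x n hn hx)
  refine ⟨HNNExtension (UGrp × FreeGroup Bool) A B φ, inferInstance, htf, ⟨a, b, hab⟩,
    fun R _ hR => ⟨fun h => ?_, fun h => ?_⟩⟩
  · have h1 := h (ULift.{u} (HNNExtension (UGrp × FreeGroup Bool) A B φ))
      (torsionFree_ulift htf) 0
    exact (KNegFun 1).subsingleton_congr
      (MonoidAlgebra.mapDomainRingEquiv R (MulEquiv.ulift :
        ULift.{u} (HNNExtension (UGrp × FreeGroup Bool) A B φ) ≃* _).symm) h1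
  · have h1 : Subsingleton (KNeg 1 (MonoidAlgebra R A)) :=
      (KNegFun 1).subsingleton_congr (MonoidAlgebra.mapDomainRingEquiv R hA) (kneg_free R hR)
    have h2 := kneg_hnn R (UGrp × FreeGroup Bool) A B φ h1 h
    exact (univ_iff R).2 (kneg_prod_left R UGrp (FreeGroup Bool) h2)

end Pool.Agent.NegK
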