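import Pool.Agent.Lib.MP_28303a_al.NK.Close

/-! # The map `K₀(M_ι(B)) → K₀(B)` -/

set_option autoImplicit false

namespace Pool.Agent.NegK

universe u v w

open Matrix

section

variable {A : Type u} [Ring A] {B : Type u} [Ring B]

/-- Homomorphisms out of `K₀`. -/
def K0.lift {M : Type v} [AddCommGroup M] (φ : Idem A → M)
    (h1 : ∀ p q : Idem A, p.Equiv q → φ p = φ q)
    (h2 : ∀ p q : Idem A, φ (p.sum q) = φ p + φ q) : K0 A →+ M :=
  QuotientAddGroup.lift (K0Rel A) (FreeAbelianGroup.lift φ) (by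
    intro x hx
    have : K0Rel A ≤ (FreeAbelianGroup.lift φ).ker := by
      unfold K0Rel
      rw [AddSubgroup.closure_le]
      rintro x (⟨p, q, h, rfl⟩ | ⟨p, q, rfl⟩)
      · show FreeAbelianGroup.lift φ _ = 0
        simp [h1 p q h]
      · show FreeAbelianGroup.lift φ _ = 0
        simp [h2 p q]
    exact this hx)

theorem K0.lift_cls {M : Type v} [AddCommGroup M] (φ : Idem A → M)
    (h1 : ∀ p q : Idem A, p.Equiv q → φ p = φ q)
    (h2 : ∀ p q : Idem A, φ (p.sum q) = φ p + φ q) (p : Idem A) :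
    K0.lift φ h1 h2 (K0.cls p) = φ p := by
  unfold K0.lift K0.cls
  simp

theorem mcls_reindex {ι κ : Type} [Fintype ι] [DecidableEq ι] [Fintype κ] [DecidableEq κ]
    (σ : ι ≃ κ) {e : Matrix ι ι A} {f : Matrix κ κ A} (he : e * e = e) (hf : f * f = f)
    (h : ∀ i j, f (σ i) (σ j) = e i j) : mcls e he = mcls f hf := by
  have h1 : f.submatrix σ σ = e := by
    ext i j
    exact h i j
  subst h1
  refine mcls_eq _ _ (f.submatrix σ id) (f.submatrix id σ) ?_ ?_
  · exact (Matrix.submatrix_mul_equiv f f σ (Equiv.refl _) σ).trans (by rw [hf])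
  · exact (Matrix.submatrix_mul_equiv f f id σ id).trans (by rw [hf]; rfl)

theorem comp_mul {I J K : Type} {ι : Type} [Fintype ι] [Fintype J]
    (a : Matrix I J (Matrix ι ι A)) (b : Matrix J K (Matrix ι ι A)) :
    Matrix.comp I K ι ι A (a * b) = Matrix.comp I J ι ι A a * Matrix.comp J K ι ι A b := by
  ext ⟨i, x⟩ ⟨k, y⟩
  rw [Matrix.comp_apply, Matrix.mul_apply, Matrix.mul_apply, Fintype.sum_prod_type,
    Matrix.sum_apply]
  rfl

/-- The class in `K₀(B)` of an idempotent matrix over `M_ι(B)`. -/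
noncomputable def fcls {ι : Type} [Fintype ι] [DecidableEq ι] {κ : Type} [Fintype κ]
    [DecidableEq κ] (e : Matrix κ κ (Matrix ι ι B)) (he : e * e = e) : K0 B :=
  mcls (Matrix.comp κ κ ι ι B e) (by rw [← comp_mul, he])

theorem fcls_eq {ι : Type} [Fintype ι] [DecidableEq ι] {κ κ' : Type} [Fintype κ]
    [DecidableEq κ] [Fintype κ'] [DecidableEq κ'] {e : Matrix κ κ (Matrix ι ι B)}
    {f : Matrix κ' κ' (Matrix ι ι B)} (he : e * e = e) (hf : f * f = f)
    (a : Matrix κ κ' (Matrix ι ι B)) (b : Matrix κ' κ (Matrix ι ι B)) (h1 : a * b = e)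
    (h2 : b * a = f) : fcls e he = fcls f hf := by
  refine mcls_eq _ _ (Matrix.comp _ _ _ _ B a) (Matrix.comp _ _ _ _ B b) ?_ ?_
  · rw [← comp_mul, h1]
  · rw [← comp_mul, h2]

/-- The homomorphism `K₀(M_ι(B)) → K₀(B)`. -/
noncomputable def K0.flat (ι : Type) [Fintype ι] [DecidableEq ι] (B : Type u) [Ring B] :
    K0 (Matrix ι ι B) →+ K0 B :=
  K0.lift (fun p => fcls p.e p.idem)
    (by
      rintro p q ⟨a, b, h1, h2⟩
      exact fcls_eq p.idem q.idem a b h1 h2)
    (by
      intro p q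
      have h := mcls_blocks (e := Matrix.comp (Fin p.n) (Fin p.n) ι ι B p.e)
        (f := Matrix.comp (Fin q.n) (Fin q.n) ι ι B q.e)
        (by rw [← comp_mul, p.idem]) (by rw [← comp_mul, q.idem])
      refine Eq.trans ?_ h
      let σ : (Fin p.n × ι) ⊕ (Fin q.n × ι) ≃ Fin (p.n + q.n) × ι :=
        (Equiv.sumProdDistrib _ _ _).symm.trans (Equiv.prodCongr finSumFinEquiv (Equiv.refl ι))
      symm
      refine mcls_reindex σ _ _ ?_
      have key : ∀ i j : Fin p.n ⊕ Fin q.n, (p.sum q).e (finSumFinEquiv i) (finSumFinEquiv j) =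
          fromBlocks p.e 0 0 q.e i j := by
        intro i j
        show (fromBlocks p.e 0 0 q.e) (finSumFinEquiv.symm (finSumFinEquiv i))
          (finSumFinEquiv.symm (finSumFinEquiv j)) = _
        rw [Equiv.symm_apply_apply, Equiv.symm_apply_apply]
      rintro (⟨i, x⟩ | ⟨i, x⟩) (⟨j, y⟩ | ⟨j, y⟩)
      · show (p.sum q).e (finSumFinEquiv (Sum.inl i)) (finSumFinEquiv (Sum.inl j)) x y = _
        rw [key]; rfl
      · show (p.sum q).e (finSumFinEquiv (Sum.inl i)) (finSumFinEquiv (Sum.inr j)) x y = _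
        rw [key]; rfl
      · show (p.sum q).e (finSumFinEquiv (Sum.inr i)) (finSumFinEquiv (Sum.inl j)) x y = _
        rw [key]; rfl
      · show (p.sum q).e (finSumFinEquiv (Sum.inr i)) (finSumFinEquiv (Sum.inr j)) x y = _
        rw [key]; rfl)

theorem K0.flat_cls {ι : Type} [Fintype ι] [DecidableEq ι] (p : Idem (Matrix ι ι B)) :
    K0.flat ι B (K0.cls p) = fcls p.e p.idem := K0.lift_cls _ _ _ p

theorem K0.flat_mcls {ι : Type} [Fintype ι] [DecidableEq ι] {κ : Type} [Fintype κ]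
    [DecidableEq κ] (e : Matrix κ κ (Matrix ι ι B)) (he : e * e = e) :
    K0.flat ι B (mcls e he) = fcls e he := by
  unfold mcls
  rw [K0.flat_cls]
  symm
  refine fcls_eq _ _ (e.submatrix id (Fintype.equivFin κ).symm)
    (e.submatrix (Fintype.equivFin κ).symm id) ?_ ?_
  · exact (Matrix.submatrix_mul_equiv e e id (Fintype.equivFin κ).symm id).trans
      (by rw [he]; rfl)
  · exact (Matrix.submatrix_mul_equiv e e (Fintype.equivFin κ).symm (Equiv.refl _)
      (Fintype.equivFin κ).symm).trans (by rw [he]; rfl)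

/-- Naturality of `K0.flat`. -/
theorem K0.flat_map {ι : Type} [Fintype ι] [DecidableEq ι] (f : A →+* B)
    (z : K0 (Matrix ι ι A)) :
    K0.flat ι B (K0.map f.mapMatrix z) = K0.map f (K0.flat ι A z) := by
  have h : (K0.flat ι B).comp (K0.map f.mapMatrix) = (K0.map f).comp (K0.flat ι A) := by
    refine K0.hom_ext fun p => ?_
    rw [AddMonoidHom.comp_apply, AddMonoidHom.comp_apply, K0.map_cls, K0.flat_cls, K0.flat_cls]
    unfold fcls
    rw [mcls_map]
    rfl
  exact DFunLike.congr_fun h z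

end

end Pool.Agent.NegK
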