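import Pool.Agent.Lib.MP_28303a_al.NK.Defs

/-! # The universal torsionfree quotient and the group `U` -/

set_option autoImplicit false

namespace Pool.Agent.NegK

universe u v

/-- The intersection of all normal subgroups `N` such that `g ^ n ∈ N`, `0 < n`, implies
`g ∈ N` (that is, `G / N` is torsionfree). -/
def tfKer (G : Type u) [Group G] : Subgroup G :=
  sInf {N : Subgroup G | N.Normal ∧ ∀ (g : G) (n : ℕ), 0 < n → g ^ n ∈ N → g ∈ N}

instance (G : Type u) [Group G] : (tfKer G).Normal := by
  refine ⟨fun x hx g => ?_⟩
  unfold tfKer at hx ⊢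
  rw [Subgroup.mem_sInf] at hx ⊢
  intro N hN
  exact hN.1.conj_mem x (hx N hN) g

theorem mem_tfKer_of_pow (G : Type u) [Group G] (g : G) (n : ℕ) (hn : 0 < n)
    (h : g ^ n ∈ tfKer G) : g ∈ tfKer G := by
  unfold tfKer at h ⊢
  rw [Subgroup.mem_sInf] at h ⊢
  intro N hN
  exact hN.2 g n hn (h N hN)

/-- The largest torsionfree quotient of a group. -/
abbrev TF (G : Type u) [Group G] : Type u := G ⧸ tfKer G

theorem torsionFree_TF (G : Type u) [Group G] : TorsionFree (TF G) := by
  intro x n hn hx
  induction x using QuotientGroup.induction_on with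
  | H g =>
    rw [QuotientGroup.eq_one_iff]
    refine mem_tfKer_of_pow G g n hn ?_
    rw [← QuotientGroup.eq_one_iff, QuotientGroup.mk_pow]
    exact hx

theorem tfKer_le_ker {G : Type u} {H : Type v} [Group G] [Group H] (hH : TorsionFree H)
    (f : G →* H) : tfKer G ≤ f.ker := by
  refine sInf_le ⟨inferInstance, fun g n hn hg => ?_⟩
  rw [MonoidHom.mem_ker, map_pow] at hg
  rw [MonoidHom.mem_ker]
  exact hH _ n hn hg

/-- The homomorphism induced on the largest torsionfree quotient. -/
def TF.lift {G : Type u} {H : Type v} [Group G] [Group H] (hH : TorsionFree H) (f : G →* H) :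
    TF G →* H :=
  QuotientGroup.lift (tfKer G) f (fun _ hx => (MonoidHom.mem_ker).1 (tfKer_le_ker hH f hx))

theorem TF.lift_mk {G : Type u} {H : Type v} [Group G] [Group H] (hH : TorsionFree H)
    (f : G →* H) (g : G) : TF.lift hH f (QuotientGroup.mk' (tfKer G) g) = f g := rfl

/-- The finite multiplication tables (not necessarily complete). -/
abbrev Table : Type := Σ m : ℕ, Finset (Fin m × Fin m × Fin m)

/-- The relators `x_i x_j x_k⁻¹` of a table. -/
def Table.rels (T : Table) : Set (FreeGroup (Fin T.1)) :=
  {w | ∃ i j k, (i, j, k) ∈ T.2 ∧ w = FreeGroup.of i * FreeGroup.of j * (FreeGroup.of k)⁻¹}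

/-- The finitely presented group of a table: generators `x_i`, relations `x_i x_j = x_k`. -/
abbrev Table.grp (T : Table) : Type := PresentedGroup T.rels

/-- The finitely supported elements of a product of groups. -/
def finSupp {ι : Type u} (G : ι → Type v) [∀ i, Group (G i)] : Subgroup (∀ i, G i) where
  carrier := {f | {i | f i ≠ 1}.Finite}
  one_mem' := by simp
  mul_mem' := by
    intro a b ha hb
    refine (ha.union hb).subset fun i hi => ?_
    by_contra hc
    rw [Set.mem_union, not_or, Set.mem_ofPred_eq, Set.mem_ofPred_eq, not_not, not_not] at hc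
    exact hi (by rw [Pi.mul_apply, hc.1, hc.2, one_mul])
  inv_mem' := by
    intro a ha
    simpa using ha

/-- The universal group: the direct sum of the largest torsionfree quotients of all groups
given by finite tables. -/
abbrev UGrp : Type := finSupp (fun T : Table => TF T.grp)

theorem torsionFree_finSupp {ι : Type u} (G : ι → Type v) [∀ i, Group (G i)]
    (h : ∀ i, TorsionFree (G i)) : TorsionFree (finSupp G) := by
  intro x n hn hx
  refine Subtype.ext (funext fun i => ?_)
  refine h i _ n hn ?_
  have := congrArg (fun y : finSupp G => (y : ∀ i, G i) i) hx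
  simpa using this

theorem torsionFree_UGrp : TorsionFree UGrp :=
  torsionFree_finSupp _ fun _ => torsionFree_TF _

theorem countable_finSupp {ι : Type u} [Countable ι] (G : ι → Type v) [∀ i, Group (G i)]
    [∀ i, Countable (G i)] : Countable (finSupp G) := by
  classical
  let φ : finSupp G → Σ s : Finset ι, (∀ i : s, G i) := fun f =>
    ⟨(f.2 : {i | (f : ∀ i, G i) i ≠ 1}.Finite).toFinset, fun i => (f : ∀ i, G i) i⟩
  refine Function.Injective.countable (f := φ) fun f g h => ?_
  refine Subtype.ext (funext fun i => ?_)
  have h1 : ∀ (s t : Finset ι) (a : ∀ i : s, G i) (b : ∀ i : t, G i),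
      (⟨s, a⟩ : Σ s : Finset ι, (∀ i : s, G i)) = ⟨t, b⟩ →
      ∃ hst : s = t, ∀ (i : ι) (hi : i ∈ s), a ⟨i, hi⟩ = b ⟨i, hst ▸ hi⟩ := by
    rintro s t a b h
    cases h
    exact ⟨rfl, fun i hi => rfl⟩
  obtain ⟨hst, hab⟩ := h1 _ _ _ _ h
  by_cases hi : (f : ∀ i, G i) i = 1
  · by_cases hj : (g : ∀ i, G i) i = 1
    · rw [hi, hj]
    · exfalso
      have h2 : i ∈ (g.2 : {i | (g : ∀ i, G i) i ≠ 1}.Finite).toFinset := by simpa using hj
      rw [← hst] at h2
      simp at h2
      exact h2 hi
  · exact hab i (by simpa using hi)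

theorem countable_quot {G : Type u} [Group G] [h : Countable G] (N : Subgroup G) :
    Countable (G ⧸ N) :=
  (Quotient.mk_surjective (s := QuotientGroup.leftRel N)).countable

instance (T : Table) : Countable (T.grp) := by
  have h : Countable (FreeGroup (Fin T.1)) := by
    unfold FreeGroup
    infer_instance
  exact countable_quot _

instance (T : Table) : Countable (TF T.grp) := countable_quot _

theorem countable_UGrp : Countable UGrp := countable_finSupp _

/-- The inclusion of a summand. -/
noncomputable def toSum {ι : Type u} (G : ι → Type v) [∀ i, Group (G i)] (i : ι) :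
    G i →* finSupp G := by
  classical
  exact (MonoidHom.mulSingle G i).codRestrict (finSupp G) (fun x => by
    refine (Set.finite_singleton i).subset fun j hj => ?_
    by_contra hc
    exact hj (by simp [Pi.mulSingle_eq_of_ne hc]))

/-- The projection to a summand. -/
def fromSum {ι : Type u} (G : ι → Type v) [∀ i, Group (G i)] (i : ι) : finSupp G →* G i :=
  (Pi.evalMonoidHom G i).comp (finSupp G).subtype

theorem fromSum_comp_toSum {ι : Type u} (G : ι → Type v) [∀ i, Group (G i)] (i : ι) :
    (fromSum G i).comp (toSum G i) = MonoidHom.id _ := by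
  ext x
  simp [fromSum, toSum]

end Pool.Agent.NegK
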