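import Pool.Agent.Lib.MP_28303a_al.NK.TrMain

/-! # INJ: injectivity on `K_{-1}` from injectivity on `K₀` of Laurent polynomials -/

set_option autoImplicit false

namespace Pool.Agent.NegK

universe u v w

open Matrix

section

variable {A : Type u} [Ring A]

theorem Filt.zpow_hom {M : Type v} [Ring M] (F : Filt M) {α : Mˣ} (h1 : (1 : M) ∈ F.W 0) (c : ℤ)
    (hx : (α : M) ∈ F.W c) (hx' : ((α⁻¹ : Mˣ) : M) ∈ F.W (-c)) (n : ℤ) :
    ((α ^ n : Mˣ) : M) ∈ F.W (c * n) := by
  have key : ∀ (x : M) (c : ℤ), x ∈ F.W c → ∀ m : ℕ, x ^ m ∈ F.W (c * m) := by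
    intro x c hx m
    induction m with
    | zero => rw [pow_zero]; simpa using h1
    | succ m ih =>
      rw [pow_succ]
      have := F.mul ih hx
      refine F.mono (le_of_eq ?_) this
      push_cast; ring
  obtain ⟨m, rfl | rfl⟩ := n.eq_nat_or_neg
  · rw [zpow_natCast, Units.val_pow_eq_pow_val]
    exact key _ _ hx m
  · rw [_root_.zpow_neg, zpow_natCast, ← inv_pow, Units.val_pow_eq_pow_val]
    refine F.mono (le_of_eq ?_) (key _ _ hx' m)
    ring

theorem theta_mem_hom {M : Type v} [Ring M] (F : Filt M) (f : A →+* M) (hf : ∀ a, f a ∈ F.W 0)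
    {α : Mˣ} (h : ∀ a, Commute (f a) (α : M)) (c : ℤ) (hx : (α : M) ∈ F.W c)
    (hx' : ((α⁻¹ : Mˣ) : M) ∈ F.W (-c)) (r : ℤ) (x : LaurentPolynomial A)
    (hd : ∀ l, x.coeff l ≠ 0 → c * l ≤ r) : theta f α h x ∈ F.W r := by
  have h1 : (1 : M) ∈ F.W 0 := by rw [← map_one f]; exact hf 1
  rw [theta_apply]
  refine (F.W _).sum_mem fun k hk => ?_
  have h2 := F.mul (hf (x.coeff k)) (F.zpow_hom h1 c hx hx' k)
  refine F.mono ?_ h2
  rw [zero_add]
  exact hd k (Finsupp.mem_support_iff.1 hk)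

/-- The weights of the entries of the matrix of `x`. -/
theorem Th_u0_coeff (k : ℕ) (x : LaurentPolynomial A) (a b : ℤ)
    (h : ∀ l, x.coeff l ≠ 0 → a ≤ l ∧ l ≤ b) (i j : Ix k) (l : ℤ)
    (hl : (Th A (u0 k) x i j).coeff l ≠ 0) :
    a ≤ wi k i - wi k j + ((k : ℤ) + 3) * l ∧ wi k i - wi k j + ((k : ℤ) + 3) * l ≤ b := by
  have h1 : Th A (u0 k) x ∈ (wFilt A (wi k) ((k : ℤ) + 3)).W b := by
    refine theta_mem_hom _ (sc (Ix k) A) (sc_mem _ _) (zu_comm A (u0 k)) 1 ?_ ?_ b x ?_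
    · exact zu_val_mem A _ _ 1 (u0_mem k)
    · exact zu_val_mem A _ _ (-1) (fun i j l h => (u0_inv_hom k i j l h).le)
    · intro l hl
      rw [one_mul]
      exact (h l hl).2
  have h2 : Th A (u0 k) x ∈ (wFilt A (fun i => - wi k i) (-((k : ℤ) + 3))).W (-a) := by
    refine theta_mem_hom _ (sc (Ix k) A) (sc_mem _ _) (zu_comm A (u0 k)) (-1) ?_ ?_ (-a) x ?_
    · refine zu_val_mem A _ _ (-1) (fun i j l h => ?_)
      have := u0_hom k i j l h
      show - wi k i - - wi k j + -((k : ℤ) + 3) * l ≤ -1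
      linarith
    · refine zu_val_mem A _ _ (- -1) (fun i j l h => ?_)
      have := u0_inv_hom k i j l h
      show - wi k i - - wi k j + -((k : ℤ) + 3) * l ≤ - -1
      linarith
    · intro l hl
      have := (h l hl).1
      linarith
  have h3 := h1 i j l hl
  have h4 := h2 i j l hl
  constructor
  · linarith
  · exact h3

theorem wi_bounds (k : ℕ) (i : Ix k) : 0 ≤ wi k i ∧ wi k i ≤ (k : ℤ) + 2 := by
  rcases i with i | i
  · have := val_le k i
    exact ⟨Int.natCast_nonneg _, by show (i.val : ℤ) ≤ _; linarith⟩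
  · exact ⟨by show (0 : ℤ) ≤ (k : ℤ) + 2; have := Int.natCast_nonneg k; linarith, le_rfl⟩

/-- The transfer sends polynomials to constants. -/
theorem Tr_pos (k : ℕ) (p : Idem (LaurentPolynomial A))
    (hd : ∀ i j l, (p.e i j).coeff l ≠ 0 → 0 ≤ l ∧ l ≤ (k : ℤ) + 3) :
    Tr A (u0 k) (K0.cls p) ∈
      (K0.map (LaurentPolynomial.C : A →+* LaurentPolynomial A)).range := by
  rw [Tr_cls]
  refine mcls_linear _ 1 one_ne_zero ?_
  rintro ⟨i, i'⟩ ⟨j, j'⟩ l hl
  have h1 := Th_u0_coeff k (p.e i j) 0 ((k : ℤ) + 3) (hd i j) i' j' l hl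
  have h2 := wi_bounds k i'
  have h3 := wi_bounds k j'
  have hk := Int.natCast_nonneg k
  have h4 : -1 < l := by
    by_contra hc
    have : l ≤ -1 := by omega
    nlinarith
  have h5 : l < 2 := by
    by_contra hc
    have : 2 ≤ l := by omega
    nlinarith
  omega

theorem Tr_neg (k : ℕ) (p : Idem (LaurentPolynomial A))
    (hd : ∀ i j l, (p.e i j).coeff l ≠ 0 → -((k : ℤ) + 3) ≤ l ∧ l ≤ 0) :
    Tr A (u0 k) (K0.cls p) ∈
      (K0.map (LaurentPolynomial.C : A →+* LaurentPolynomial A)).range := by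
  rw [Tr_cls]
  refine mcls_linear _ (-1) (by norm_num) ?_
  rintro ⟨i, i'⟩ ⟨j, j'⟩ l hl
  have h1 := Th_u0_coeff k (p.e i j) (-((k : ℤ) + 3)) 0 (hd i j) i' j' l hl
  have h2 := wi_bounds k i'
  have h3 := wi_bounds k j'
  have hk := Int.natCast_nonneg k
  have h4 : -2 < l := by
    by_contra hc
    have : l ≤ -2 := by omega
    nlinarith
  have h5 : l < 1 := by
    by_contra hc
    have : 1 ≤ l := by omega
    nlinarith
  omega

theorem exists_bound (p : Idem (LaurentPolynomial A)) :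
    ∃ d : ℕ, ∀ i j l, (p.e i j).coeff l ≠ 0 → |l| ≤ d := by
  refine ⟨Finset.univ.sup fun i => Finset.univ.sup fun j =>
    (p.e i j).coeff.support.sup Int.natAbs, fun i j l h => ?_⟩
  have h1 : Int.natAbs l ≤ (p.e i j).coeff.support.sup Int.natAbs :=
    Finset.le_sup (f := Int.natAbs) (Finsupp.mem_support_iff.2 h)
  have h2 : (p.e i j).coeff.support.sup Int.natAbs ≤
      Finset.univ.sup fun j => (p.e i j).coeff.support.sup Int.natAbs :=
    Finset.le_sup (f := fun j => (p.e i j).coeff.support.sup Int.natAbs) (Finset.mem_univ j)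
  have h3 : (Finset.univ.sup fun j => (p.e i j).coeff.support.sup Int.natAbs) ≤
      Finset.univ.sup fun i => Finset.univ.sup fun j => (p.e i j).coeff.support.sup Int.natAbs :=
    Finset.le_sup (f := fun i => Finset.univ.sup fun j =>
      (p.e i j).coeff.support.sup Int.natAbs) (Finset.mem_univ i)
  have h4 := (h1.trans h2).trans h3
  rw [Int.abs_eq_natAbs]
  exact_mod_cast h4

theorem K0.map_map {A B C : Type u} [Ring A] [Ring B] [Ring C] (g : B →+* C) (f : A →+* B)
    (z : K0 A) : K0.map g (K0.map f z) = K0.map (g.comp f) z := by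
  have h := K0Fun.hom_comp g f
  exact (DFunLike.congr_fun h z).symm

theorem K0.map_id {A : Type u} [Ring A] (z : K0 A) : K0.map (RingHom.id A) z = z :=
  DFunLike.congr_fun (K0Fun.hom_id (A := A)) z

/-- The augmentation `t ↦ 1`. -/
noncomputable def ev1 (A : Type u) [Ring A] : LaurentPolynomial A →+* A :=
  theta (RingHom.id A) 1 (fun _ => Commute.one_right _)

theorem ev1_comp_C (A : Type u) [Ring A] :
    (ev1 A).comp (LaurentPolynomial.C : A →+* LaurentPolynomial A) = RingHom.id A := by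
  ext a
  exact theta_C (RingHom.id A) 1 (fun _ => Commute.one_right _) a

theorem ev1_lmap {A B : Type u} [Ring A] [Ring B] (f : A →+* B) :
    (ev1 B).comp (lmap f) = f.comp (ev1 A) := by
  refine laurent_ext (fun a => ?_) (fun n => ?_)
  · rw [RingHom.comp_apply, RingHom.comp_apply, lmap_C]
    unfold ev1
    rw [theta_C, theta_C]
    rfl
  · rw [RingHom.comp_apply, RingHom.comp_apply, lmap_T]
    unfold ev1
    rw [theta_T, theta_T, _root_.one_zpow, _root_.one_zpow, Units.val_one, Units.val_one, map_one]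

theorem map_C_mem_polySub (c : K0 A) :
    K0.map (LaurentPolynomial.C : A →+* LaurentPolynomial A) c ∈ K0Fun.polySub A := by
  refine AddSubgroup.mem_sup_left ⟨K0.map (Polynomial.C : A →+* Polynomial A) c, ?_⟩
  show K0.map (posMap A) (K0.map _ c) = _
  rw [K0.map_map]
  congr 2
  ext1 a
  show Polynomial.toLaurent (Polynomial.C a) = LaurentPolynomial.C a
  rw [Polynomial.toLaurent_C]

/-- INJ. -/
theorem inj : InjStatement.{u} := by
  intro A B _ _ f hker z hz
  obtain ⟨p, q, rfl⟩ := exists_sub z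
  obtain ⟨y1, hy1, y2, hy2, hy⟩ := AddSubgroup.mem_sup.1 hz
  obtain ⟨w1, rfl⟩ := hy1
  obtain ⟨w2, rfl⟩ := hy2
  obtain ⟨p1, q1, rfl⟩ := exists_sub w1
  obtain ⟨p2, q2, rfl⟩ := exists_sub w2
  obtain ⟨dp, hdp⟩ := exists_bound p
  obtain ⟨dq, hdq⟩ := exists_bound q
  obtain ⟨d1, hd1⟩ := exists_bound (p1.map (posMap B))
  obtain ⟨e1, he1⟩ := exists_bound (q1.map (posMap B))
  obtain ⟨d2, hd2⟩ := exists_bound (p2.map (negMap B))
  obtain ⟨e2, he2⟩ := exists_bound (q2.map (negMap B))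
  let k : ℕ := 3 * dp + 3 * dq + d1 + e1 + d2 + e2
  set z : K0 (LaurentPolynomial A) := K0.cls p - K0.cls q with hzdef
  have h1 : Tr A (u0 k) z - z ∈ K0Fun.polySub A := by
    have g1 := Tr_u0_sub k p dp hdp (by show 3 * dp ≤ 3 * dp + 3 * dq + d1 + e1 + d2 + e2; omega)
    have g2 := Tr_u0_sub k q dq hdq (by show 3 * dq ≤ 3 * dp + 3 * dq + d1 + e1 + d2 + e2; omega)
    have g3 : Tr A (u0 k) z - z = (Tr A (u0 k) (K0.cls p) - K0.cls p) -
        (Tr A (u0 k) (K0.cls q) - K0.cls q) := by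
      rw [hzdef, map_sub]
      abel
    rw [g3]
    exact AddSubgroup.sub_mem _ g1 g2
  have hpos : ∀ (r : Idem (Polynomial B)) (d : ℕ), d ≤ k →
      (∀ i j l, ((r.map (posMap B)).e i j).coeff l ≠ 0 → |l| ≤ d) →
      Tr B (u0 k) (K0.map (posMap B) (K0.cls r)) ∈
        (K0.map (LaurentPolynomial.C : B →+* LaurentPolynomial B)).range := by
    intro r d hdk hr
    rw [K0.map_cls]
    refine Tr_pos k _ fun i j l hl => ⟨?_, ?_⟩
    · exact (posMap_coeff (r.e i j) hl).1
    · have := hr i j l hl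
      have h2 := le_abs_self l
      have h3 : (d : ℤ) ≤ k := by exact_mod_cast hdk
      linarith
  have hneg : ∀ (r : Idem (Polynomial B)) (d : ℕ), d ≤ k →
      (∀ i j l, ((r.map (negMap B)).e i j).coeff l ≠ 0 → |l| ≤ d) →
      Tr B (u0 k) (K0.map (negMap B) (K0.cls r)) ∈
        (K0.map (LaurentPolynomial.C : B →+* LaurentPolynomial B)).range := by
    intro r d hdk hr
    rw [K0.map_cls]
    refine Tr_neg k _ fun i j l hl => ⟨?_, ?_⟩
    · have := hr i j l hl
      have h2 := neg_abs_le l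
      have h3 : (d : ℤ) ≤ k := by exact_mod_cast hdk
      linarith
    · exact (negMap_coeff (r.e i j) hl).1
  have h2 : K0.map (lmap f) (Tr A (u0 k) z) ∈
      (K0.map (LaurentPolynomial.C : B →+* LaurentPolynomial B)).range := by
    rw [← Tr_map]
    have hy' : K0.map (posMap B) (K0.cls p1 - K0.cls q1) +
        K0.map (negMap B) (K0.cls p2 - K0.cls q2) = K0.map (lmap f) z := hy
    rw [← hy', map_sub, map_sub, map_add, map_sub, map_sub]
    refine AddSubgroup.add_mem _ (AddSubgroup.sub_mem _ ?_ ?_) (AddSubgroup.sub_mem _ ?_ ?_)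
    · exact hpos p1 d1 (by show d1 ≤ 3 * dp + 3 * dq + d1 + e1 + d2 + e2; omega) hd1
    · exact hpos q1 e1 (by show e1 ≤ 3 * dp + 3 * dq + d1 + e1 + d2 + e2; omega) he1
    · exact hneg p2 d2 (by show d2 ≤ 3 * dp + 3 * dq + d1 + e1 + d2 + e2; omega) hd2
    · exact hneg q2 e2 (by show e2 ≤ 3 * dp + 3 * dq + d1 + e1 + d2 + e2; omega) he2
  obtain ⟨c, hc⟩ := h2
  have hc2 : c = K0.map f (K0.map (ev1 A) (Tr A (u0 k) z)) := by
    have g1 := congrArg (K0.map (ev1 B)) hc
    rw [K0.map_map, ev1_comp_C, K0.map_id, K0.map_map, ev1_lmap, ← K0.map_map] at g1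
    exact g1
  have h3 : K0.map (lmap f) (Tr A (u0 k) z -
      K0.map (LaurentPolynomial.C : A →+* LaurentPolynomial A)
        (K0.map (ev1 A) (Tr A (u0 k) z))) = 0 := by
    rw [map_sub, ← hc, K0.map_map]
    have g2 : (lmap f).comp (LaurentPolynomial.C : A →+* LaurentPolynomial A) =
        (LaurentPolynomial.C : B →+* LaurentPolynomial B).comp f := by
      ext1 a
      exact lmap_C f a
    rw [g2, ← K0.map_map, ← hc2, sub_self]
  have h4 := hker _ h3
  have h5 := AddSubgroup.add_mem _ h4 (map_C_mem_polySub (K0.map (ev1 A) (Tr A (u0 k) z)))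
  have e5 : Tr A (u0 k) z - K0.map (LaurentPolynomial.C : A →+* LaurentPolynomial A)
      (K0.map (ev1 A) (Tr A (u0 k) z)) + K0.map (LaurentPolynomial.C : A →+* LaurentPolynomial A)
      (K0.map (ev1 A) (Tr A (u0 k) z)) = Tr A (u0 k) z := sub_add_cancel _ _
  have h5' : Tr A (u0 k) z ∈ K0Fun.polySub A := by
    rw [← e5]
    exact h5
  have e6 : Tr A (u0 k) z - (Tr A (u0 k) z - z) = z := sub_sub_cancel _ _
  rw [← e6]
  exact AddSubgroup.sub_mem _ h5' h1

end

end Pool.Agent.NegK
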