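import Pool.Agent.Lib.MP_28303a_al.NK.Basic

/-! # Calculus of `K₀`: idempotent matrices with arbitrary finite index types -/

set_option autoImplicit false

namespace Pool.Agent.NegK

universe u v w

open Matrix

section

variable {A : Type u} [Ring A] {B : Type u} [Ring B]

/-- An idempotent matrix with a finite index type as an `Idem`. -/
noncomputable def toIdem {ι : Type} [Fintype ι] [DecidableEq ι] (e : Matrix ι ι A)
    (he : e * e = e) : Idem A where
  n := Fintype.card ι
  e := e.submatrix (Fintype.equivFin ι).symm (Fintype.equivFin ι).symm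
  idem := by rw [Matrix.submatrix_mul_equiv, he]

/-- The class in `K₀` of an idempotent matrix with a finite index type. -/
noncomputable def mcls {ι : Type} [Fintype ι] [DecidableEq ι] (e : Matrix ι ι A)
    (he : e * e = e) : K0 A := K0.cls (toIdem e he)

theorem cls_eq_of_equiv {p q : Idem A} (h : p.Equiv q) : K0.cls p = K0.cls q := by
  unfold K0.cls
  rw [QuotientAddGroup.eq]
  have h1 : FreeAbelianGroup.of p - FreeAbelianGroup.of q ∈ K0Rel A :=
    AddSubgroup.subset_closure (Or.inl ⟨p, q, h, rfl⟩)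
  have h2 := (K0Rel A).neg_mem h1
  rw [neg_sub] at h2
  rw [neg_add_eq_sub]
  exact h2

theorem cls_sum (p q : Idem A) : K0.cls (p.sum q) = K0.cls p + K0.cls q := by
  unfold K0.cls
  rw [← QuotientAddGroup.mk_add, QuotientAddGroup.eq]
  have h1 : FreeAbelianGroup.of (p.sum q) - (FreeAbelianGroup.of p + FreeAbelianGroup.of q) ∈
      K0Rel A := AddSubgroup.subset_closure (Or.inr ⟨p, q, rfl⟩)
  have h2 := (K0Rel A).neg_mem h1
  rw [neg_sub] at h2
  rw [neg_add_eq_sub]
  exact h2

theorem toIdem_equiv {ι κ : Type} [Fintype ι] [DecidableEq ι] [Fintype κ] [DecidableEq κ]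
    {e : Matrix ι ι A} {f : Matrix κ κ A} (he : e * e = e) (hf : f * f = f)
    (a : Matrix ι κ A) (b : Matrix κ ι A) (h1 : a * b = e) (h2 : b * a = f) :
    (toIdem e he).Equiv (toIdem f hf) := by
  refine ⟨a.submatrix (Fintype.equivFin ι).symm (Fintype.equivFin κ).symm,
    b.submatrix (Fintype.equivFin κ).symm (Fintype.equivFin ι).symm, ?_, ?_⟩
  · exact (Matrix.submatrix_mul_equiv a b (Fintype.equivFin ι).symm (Fintype.equivFin κ).symm
      (Fintype.equivFin ι).symm).trans (by rw [h1]; rfl)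
  · exact (Matrix.submatrix_mul_equiv b a (Fintype.equivFin κ).symm (Fintype.equivFin ι).symm
      (Fintype.equivFin κ).symm).trans (by rw [h2]; rfl)

theorem mcls_eq {ι κ : Type} [Fintype ι] [DecidableEq ι] [Fintype κ] [DecidableEq κ]
    {e : Matrix ι ι A} {f : Matrix κ κ A} (he : e * e = e) (hf : f * f = f)
    (a : Matrix ι κ A) (b : Matrix κ ι A) (h1 : a * b = e) (h2 : b * a = f) :
    mcls e he = mcls f hf := cls_eq_of_equiv (toIdem_equiv he hf a b h1 h2)

theorem toIdem_self_equiv (p : Idem A) : (toIdem p.e p.idem).Equiv p := by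
  let σ := (Fintype.equivFin (Fin p.n)).symm
  refine ⟨p.e.submatrix σ id, p.e.submatrix id σ, ?_, ?_⟩
  · have := Matrix.submatrix_mul_equiv p.e p.e σ (Equiv.refl _) σ
    show p.e.submatrix σ (Equiv.refl _) * p.e.submatrix (Equiv.refl _) σ = _
    rw [this, p.idem]; rfl
  · show p.e.submatrix id σ * p.e.submatrix σ id = p.e
    rw [Matrix.submatrix_mul_equiv, p.idem]
    rfl

theorem mcls_self (p : Idem A) : mcls p.e p.idem = K0.cls p :=
  cls_eq_of_equiv (toIdem_self_equiv p)

theorem mcls_congr {ι : Type} [Fintype ι] [DecidableEq ι] {e f : Matrix ι ι A}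
    (he : e * e = e) (h : e = f) : mcls e he = mcls f (by rw [← h, he]) := by
  subst h
  rfl

theorem idem_blocks {ι κ : Type} [Fintype ι] [DecidableEq ι] [Fintype κ] [DecidableEq κ]
    {e : Matrix ι ι A} {f : Matrix κ κ A} (he : e * e = e) (hf : f * f = f) :
    fromBlocks e 0 0 f * fromBlocks e 0 0 f = fromBlocks e 0 0 f := by
  rw [Matrix.fromBlocks_multiply]
  simp [he, hf]

theorem mcls_blocks {ι κ : Type} [Fintype ι] [DecidableEq ι] [Fintype κ] [DecidableEq κ]
    {e : Matrix ι ι A} {f : Matrix κ κ A} (he : e * e = e) (hf : f * f = f) :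
    mcls (fromBlocks e 0 0 f) (idem_blocks he hf) = mcls e he + mcls f hf := by
  unfold mcls
  rw [← cls_sum]
  rw [← mcls_self ((toIdem e he).sum (toIdem f hf))]
  let σ : ι ⊕ κ ≃ Fin (Fintype.card ι + Fintype.card κ) :=
    (Equiv.sumCongr (Fintype.equivFin ι) (Fintype.equivFin κ)).trans finSumFinEquiv
  have hσ : (fromBlocks e 0 0 f).submatrix σ.symm σ.symm =
      ((toIdem e he).sum (toIdem f hf)).e := by
    have h1 : ∀ i : Fin (Fintype.card ι + Fintype.card κ), σ.symm i =
        Sum.map (Fintype.equivFin ι).symm (Fintype.equivFin κ).symm (finSumFinEquiv.symm i) :=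
      fun i => rfl
    ext i j
    rw [Matrix.submatrix_apply, h1, h1]
    show _ = (Matrix.fromBlocks (e.submatrix (Fintype.equivFin ι).symm
      (Fintype.equivFin ι).symm) 0 0 (f.submatrix (Fintype.equivFin κ).symm
      (Fintype.equivFin κ).symm)) (finSumFinEquiv.symm i) (finSumFinEquiv.symm j)
    rcases finSumFinEquiv.symm i with i | i <;> rcases finSumFinEquiv.symm j with j | j <;>
      simp [Matrix.fromBlocks]
  refine mcls_eq (idem_blocks he hf) _ ((fromBlocks e 0 0 f).submatrix id σ.symm)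
    ((fromBlocks e 0 0 f).submatrix σ.symm id) ?_ ?_
  · exact (Matrix.submatrix_mul_equiv (fromBlocks e 0 0 f) (fromBlocks e 0 0 f) id σ.symm
      id).trans (by rw [idem_blocks he hf]; rfl)
  · rw [← hσ]
    exact (Matrix.submatrix_mul_equiv (fromBlocks e 0 0 f) (fromBlocks e 0 0 f) σ.symm
      (Equiv.refl _) σ.symm).trans (by rw [idem_blocks he hf])

theorem mcls_map {ι : Type} [Fintype ι] [DecidableEq ι] {e : Matrix ι ι A} (he : e * e = e)
    (f : A →+* B) : K0.map f (mcls e he) =
      mcls (e.map f) (by rw [← Matrix.map_mul, he]) := by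
  unfold mcls
  rw [K0.map_cls]
  rfl

theorem mcls_conj {ι : Type} [Fintype ι] [DecidableEq ι] {e f : Matrix ι ι A} (he : e * e = e)
    (hf : f * f = f) (U V : Matrix ι ι A) (h1 : V * U = 1) (h2 : U * e * V = f) :
    mcls e he = mcls f hf := by
  refine mcls_eq he hf (e * V) (U * e) ?_ ?_
  · rw [Matrix.mul_assoc, ← Matrix.mul_assoc V, h1, Matrix.one_mul, he]
  · rw [← Matrix.mul_assoc, Matrix.mul_assoc U, he, h2]

theorem mcls_zero {ι : Type} [Fintype ι] [DecidableEq ι] :
    mcls (0 : Matrix ι ι A) (by simp) = 0 := by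
  have h1 := mcls_blocks (A := A) (e := (0 : Matrix ι ι A)) (f := (0 : Matrix ι ι A))
    (by simp) (by simp)
  have h2 : mcls (fromBlocks (0 : Matrix ι ι A) 0 0 (0 : Matrix ι ι A))
      (idem_blocks (by simp) (by simp)) = mcls (0 : Matrix ι ι A) (by simp) := by
    refine mcls_eq _ _ (0 : Matrix (ι ⊕ ι) ι A) (0 : Matrix ι (ι ⊕ ι) A) ?_ ?_
    · ext i j
      rcases i with i | i <;> rcases j with j | j <;> simp
    · simp
  rw [h2] at h1
  exact left_eq_add.1 h1

/-- Orthogonal idempotents. -/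
theorem mcls_orth {ι : Type} [Fintype ι] [DecidableEq ι] {e f : Matrix ι ι A} (he : e * e = e)
    (hf : f * f = f) (hef : e * f = 0) (hfe : f * e = 0)
    (h : (e + f) * (e + f) = e + f) : mcls (e + f) h = mcls e he + mcls f hf := by
  rw [← mcls_blocks he hf]
  refine mcls_eq _ _ (Matrix.fromCols e f) (Matrix.fromRows e f) ?_ ?_
  · rw [Matrix.fromCols_mul_fromRows, he, hf]
  · rw [Matrix.fromRows_mul_fromCols, he, hf, hef, hfe]

theorem idem_compl {ι : Type} [Fintype ι] [DecidableEq ι] {e : Matrix ι ι A} (he : e * e = e) :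
    (1 - e) * (1 - e) = 1 - e := by
  rw [mul_sub, sub_mul, sub_mul, one_mul, one_mul, mul_one, he, sub_self, sub_zero]

theorem mcls_compl {ι : Type} [Fintype ι] [DecidableEq ι] {e : Matrix ι ι A} (he : e * e = e) :
    mcls e he + mcls (1 - e) (idem_compl he) = mcls (1 : Matrix ι ι A) (one_mul 1) := by
  rw [← mcls_orth he (idem_compl he) (by rw [mul_sub, mul_one, he, sub_self])
    (by rw [sub_mul, one_mul, he, sub_self])
    (by rw [add_sub_cancel, one_mul])]
  exact mcls_congr _ (add_sub_cancel e 1)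

/-- Lower block triangular idempotents. -/
theorem mcls_triangular {ι κ : Type} [Fintype ι] [DecidableEq ι] [Fintype κ] [DecidableEq κ]
    {e : Matrix ι ι A} {y : Matrix κ ι A} {f : Matrix κ κ A}
    (h : fromBlocks e 0 y f * fromBlocks e 0 y f = fromBlocks e 0 y f)
    (he : e * e = e) (hf : f * f = f) :
    mcls (fromBlocks e 0 y f) h = mcls e he + mcls f hf := by
  have hy : y * e + f * y = y := by
    have h1 := h
    rw [Matrix.fromBlocks_multiply, Matrix.fromBlocks_inj] at h1
    exact h1.2.2.1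
  have hz : f * y * e = 0 := by
    have h1 : y * e = y - f * y := eq_sub_of_add_eq hy
    rw [Matrix.mul_assoc, h1, Matrix.mul_sub, ← Matrix.mul_assoc, hf, sub_self]
  rw [← mcls_blocks he hf]
  let c : Matrix κ ι A := y * e - f * y
  have hc : c * e - f * c = y := by
    show (y * e - f * y) * e - f * (y * e - f * y) = y
    rw [Matrix.sub_mul, Matrix.mul_sub, Matrix.mul_assoc y, he, hz, ← Matrix.mul_assoc f y e, hz,
      ← Matrix.mul_assoc f f y, hf, sub_zero, zero_sub, sub_neg_eq_add, hy]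
  symm
  refine mcls_conj (idem_blocks he hf) h (fromBlocks 1 0 c 1) (fromBlocks 1 0 (-c) 1) ?_ ?_
  · rw [Matrix.fromBlocks_multiply, ← Matrix.fromBlocks_one]
    simp
  · rw [Matrix.fromBlocks_multiply, Matrix.fromBlocks_multiply, Matrix.fromBlocks_inj]
    refine ⟨by simp, by simp, ?_, by simp⟩
    simp only [Matrix.mul_zero, Matrix.one_mul, Matrix.mul_one, add_zero, zero_add,
      Matrix.mul_neg]
    rw [← sub_eq_add_neg, hc]

theorem exists_sub (z : K0 A) : ∃ p q : Idem A, z = K0.cls p - K0.cls q := by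
  obtain ⟨x, rfl⟩ := QuotientAddGroup.mk_surjective z
  induction x using FreeAbelianGroup.induction_on with
  | zero => exact ⟨toIdem (0 : Matrix (Fin 0) (Fin 0) A) (by simp),
      toIdem (0 : Matrix (Fin 0) (Fin 0) A) (by simp), by simp⟩
  | of p =>
    refine ⟨p, toIdem (0 : Matrix (Fin 0) (Fin 0) A) (by simp), ?_⟩
    have : K0.cls (toIdem (0 : Matrix (Fin 0) (Fin 0) A) (by simp)) = 0 := mcls_zero
    rw [this, sub_zero]; rfl
  | neg p _ =>
    refine ⟨toIdem (0 : Matrix (Fin 0) (Fin 0) A) (by simp), p, ?_⟩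
    have : K0.cls (toIdem (0 : Matrix (Fin 0) (Fin 0) A) (by simp)) = 0 := mcls_zero
    rw [this, zero_sub]; rfl
  | add x y hx hy =>
    obtain ⟨p, q, h1⟩ := hx
    obtain ⟨p', q', h2⟩ := hy
    refine ⟨p.sum p', q.sum q', ?_⟩
    rw [QuotientAddGroup.mk_add, h1, h2, cls_sum, cls_sum]
    abel

end

end Pool.Agent.NegK
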