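import Pool.Agent.Lib.MP_28303a_al.NK.Basic
import Pool.Agent.Lib.MP_28303a_al.NK.Group

/-! # Lifting idempotent matrices over `R[G][t, t⁻¹]` to finitely presented groups -/

set_option autoImplicit false

namespace Pool.Agent.NegK

universe u v w

/-- `mapDomain s` is multiplicative on elements whose supports lie in a set on which `s` is
multiplicative. -/
theorem mapDomain_mul_of {R : Type u} [Ring R] {H : Type v} {K : Type w} [Monoid H] [Monoid K]
    (s : H → K) (S : Set H) (hs : ∀ a ∈ S, ∀ b ∈ S, s (a * b) = s a * s b)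
    (x y : MonoidAlgebra R H) (hx : (x.coeff.support : Set H) ⊆ S)
    (hy : (y.coeff.support : Set H) ⊆ S) :
    MonoidAlgebra.mapDomain s (x * y) =
      MonoidAlgebra.mapDomain s x * MonoidAlgebra.mapDomain s y := by
  have h1 : MonoidAlgebra.mapDomain s (x * y) = x.coeff.sum fun a r => y.coeff.sum fun b t =>
      MonoidAlgebra.single (s a * s b) (r * t) := by
    rw [MonoidAlgebra.mul_def, MonoidAlgebra.mapDomain_sum]
    refine Finsupp.sum_congr fun a ha => ?_
    rw [MonoidAlgebra.mapDomain_sum]
    refine Finsupp.sum_congr fun b hb => ?_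
    rw [MonoidAlgebra.mapDomain_single, hs a (hx ha) b (hy hb)]
  rw [h1, MonoidAlgebra.mul_def]
  simp [Finsupp.sum_mapDomain_index, add_mul, mul_add]

/-- `mapDomain` as an additive homomorphism. -/
noncomputable def mapDomainAdd {R : Type u} [Ring R] {H : Type v} {K : Type w} (s : H → K) :
    MonoidAlgebra R H →+ MonoidAlgebra R K :=
  AddMonoidHom.mk' (MonoidAlgebra.mapDomain s) (MonoidAlgebra.mapDomain_add s)

theorem mapDomain_eq_self {R : Type u} [Ring R] {H : Type v} {K : Type w}
    (s : H → K) (p : K → H) (S : Set H) (hs : ∀ a ∈ S, p (s a) = a)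
    (x : MonoidAlgebra R H) (hx : (x.coeff.support : Set H) ⊆ S) :
    MonoidAlgebra.mapDomain p (MonoidAlgebra.mapDomain s x) = x := by
  refine MonoidAlgebra.ext ?_
  show Finsupp.mapDomain p (Finsupp.mapDomain s x.coeff) = x.coeff
  rw [← Finsupp.mapDomain_comp]
  have h1 : Finsupp.mapDomain (p ∘ s) x.coeff = Finsupp.mapDomain id x.coeff :=
    Finsupp.mapDomain_congr fun a ha => hs a (hx ha)
  rw [h1, Finsupp.mapDomain_id]

/-- The transported idempotent matrix. -/
noncomputable def Idem.push {R : Type u} [Ring R] {H : Type v} {K : Type w} [Monoid H] [Monoid K]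
    (s : H → K) (S : Set H) (hs : ∀ a ∈ S, ∀ b ∈ S, s (a * b) = s a * s b)
    (p : Idem (MonoidAlgebra R H))
    (hp : ∀ i j, ((p.e i j).coeff.support : Set H) ⊆ S) : Idem (MonoidAlgebra R K) where
  n := p.n
  e := p.e.map (MonoidAlgebra.mapDomain s)
  idem := by
    ext1 i j
    rw [Matrix.mul_apply]
    have h1 : ∀ k, (p.e.map (MonoidAlgebra.mapDomain s)) i k *
        (p.e.map (MonoidAlgebra.mapDomain s)) k j = mapDomainAdd s (p.e i k * p.e k j) :=
      fun k => (mapDomain_mul_of s S hs _ _ (hp i k) (hp k j)).symm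
    rw [Finset.sum_congr rfl fun k _ => h1 k, ← _root_.map_sum, ← Matrix.mul_apply, p.idem]
    rfl

/-- Every idempotent matrix over a group ring `R[N × G]` comes from a finitely presented group:
the group of a finite multiplication table of `G`. -/
theorem exists_table {G : Type v} [Group G] (S : Finset G) :
    ∃ (T : Table) (π : T.grp →* G) (s : G → T.grp),
      (∀ a ∈ S, ∀ b ∈ S, s (a * b) = s a * s b) ∧ ∀ a ∈ S, π (s a) = a := by
  classical
  let X : Finset G := S ∪ Finset.image₂ (· * ·) S S
  let e : X ≃ Fin X.card := X.equivFin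
  let T : Table := ⟨X.card, Finset.univ.filter fun q : Fin X.card × Fin X.card × Fin X.card =>
    ((e.symm q.1 : X) : G) * ((e.symm q.2.1 : X) : G) = ((e.symm q.2.2 : X) : G)⟩
  let f : Fin T.1 → G := fun i => ((e.symm i : X) : G)
  have hf : ∀ r ∈ T.rels, FreeGroup.lift f r = 1 := by
    rintro r ⟨i, j, k, h, rfl⟩
    have h1 : f i * f j = f k := by
      have := (Finset.mem_filter.1 h).2
      exact this
    rw [map_mul, map_mul, map_inv, FreeGroup.lift_apply_of, FreeGroup.lift_apply_of,
      FreeGroup.lift_apply_of, h1, mul_inv_cancel]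
  let s : G → T.grp := fun g => if h : g ∈ X then PresentedGroup.of (e ⟨g, h⟩) else 1
  have hs : ∀ (g : G) (h : g ∈ X), s g = PresentedGroup.of (rels := T.rels) (e ⟨g, h⟩) := by
    intro g h
    exact dif_pos h
  refine ⟨T, PresentedGroup.toGroup hf, s, ?_, ?_⟩
  · intro a ha b hb
    have ha' : a ∈ X := Finset.mem_union_left _ ha
    have hb' : b ∈ X := Finset.mem_union_left _ hb
    have hab : a * b ∈ X := Finset.mem_union_right _ (Finset.mem_image₂_of_mem ha hb)
    rw [hs a ha', hs b hb', hs _ hab]
    have h1 : (QuotientGroup.mk (FreeGroup.of (e ⟨a, ha'⟩) * FreeGroup.of (e ⟨b, hb'⟩) *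
        (FreeGroup.of (e ⟨a * b, hab⟩))⁻¹) : T.grp) = 1 := by
      rw [QuotientGroup.eq_one_iff]
      refine Subgroup.subset_normalClosure ⟨_, _, _, ?_, rfl⟩
      refine Finset.mem_filter.2 ⟨Finset.mem_univ _, ?_⟩
      simp
    rw [QuotientGroup.mk_mul, QuotientGroup.mk_mul, QuotientGroup.mk_inv] at h1
    exact (mul_inv_eq_one.1 h1).symm
  · intro a ha
    have ha' : a ∈ X := Finset.mem_union_left _ ha
    rw [hs a ha', PresentedGroup.toGroup.of]
    simp [f]

theorem laurentEquiv_single {R : Type u} [Ring R] {G : Type v} [Group G] (n : ℤ) (g : G)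
    (r : R) : laurentEquiv R G (AddMonoidAlgebra.single n (MonoidAlgebra.single g r)) =
      MonoidAlgebra.single (Multiplicative.ofAdd n, g) r := by
  show (MonoidAlgebra.curryRingEquiv (R := R) (M := Multiplicative ℤ) (N := G)).symm
    ((AddMonoidAlgebra.toMultiplicative (MonoidAlgebra R G) ℤ) _) = _
  rw [AddMonoidAlgebra.toMultiplicative_single, MonoidAlgebra.curryRingEquiv_symm_single]

theorem laurentEquiv_natural {R : Type u} [Ring R] {P : Type v} {G : Type w} [Group P] [Group G]
    (f : P →* G) (x : LaurentPolynomial (MonoidAlgebra R P)) :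
    laurentEquiv R G (AddMonoidAlgebra.mapRingHom ℤ (MonoidAlgebra.mapDomainRingHom R f) x) =
      MonoidAlgebra.mapDomainRingHom R (MonoidHom.prodMap (MonoidHom.id (Multiplicative ℤ)) f)
        (laurentEquiv R P x) := by
  induction x using AddMonoidAlgebra.induction_linear with
  | zero => simp
  | add x y hx hy => rw [map_add, map_add, map_add, map_add, hx, hy]
  | single n a =>
    rw [AddMonoidAlgebra.mapRingHom_single]
    induction a using MonoidAlgebra.induction_linear with
    | zero => simp
    | add x y hx hy =>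
      rw [map_add, AddMonoidAlgebra.single_add, AddMonoidAlgebra.single_add, map_add, map_add,
        map_add, hx, hy]
    | single g r =>
      rw [laurentEquiv_single]
      have h1 : MonoidAlgebra.mapDomainRingHom R f (MonoidAlgebra.single g r) =
          MonoidAlgebra.single (f g) r := MonoidAlgebra.mapDomain_single
      have h2 : MonoidAlgebra.mapDomainRingHom R
          (MonoidHom.prodMap (MonoidHom.id (Multiplicative ℤ)) f)
          (MonoidAlgebra.single (Multiplicative.ofAdd n, g) r) =
          MonoidAlgebra.single (Multiplicative.ofAdd n, f g) r := MonoidAlgebra.mapDomain_single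
      rw [h1, h2, laurentEquiv_single]

theorem Idem.ext' {A : Type u} [Ring A] {p q : Idem A} (h1 : p.n = q.n)
    (h2 : ∀ i j, p.e i j = q.e (Fin.cast h1 i) (Fin.cast h1 j)) : p = q := by
  obtain ⟨n, e, h⟩ := p
  obtain ⟨m, f, h'⟩ := q
  obtain rfl : n = m := h1
  obtain rfl : e = f := by
    ext i j
    exact h2 i j
  rfl

theorem Idem.map_map {A B C : Type u} [Ring A] [Ring B] [Ring C] (f : A →+* B) (g : B →+* C)
    (p : Idem A) : (p.map f).map g = p.map (g.comp f) := rfl

/-- Every idempotent matrix over `R[G][t, t⁻¹]` comes from `R[P][t, t⁻¹]` for the group `P` of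
a finite multiplication table and a homomorphism `P → G`. -/
theorem lift_idem {R : Type u} [Ring R] {G : Type u} [Group G]
    (p : Idem (LaurentPolynomial (MonoidAlgebra R G))) :
    ∃ (T : Table) (π : T.grp →* G) (p₀ : Idem (LaurentPolynomial (MonoidAlgebra R T.grp))),
      p₀.map (lmap (MonoidAlgebra.mapDomainRingHom R π)) = p := by
  classical
  let q : Idem (MonoidAlgebra R (Multiplicative ℤ × G)) := p.map (laurentEquiv R G : _ →+* _)
  let S : Finset G := Finset.univ.biUnion fun ij : Fin q.n × Fin q.n =>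
    (q.e ij.1 ij.2).coeff.support.image Prod.snd
  obtain ⟨T, π, s, h1, h2⟩ := exists_table S
  let s' : Multiplicative ℤ × G → Multiplicative ℤ × T.grp := fun x => (x.1, s x.2)
  let S' : Set (Multiplicative ℤ × G) := {x | x.2 ∈ S}
  have hq : ∀ i j, ((q.e i j).coeff.support : Set (Multiplicative ℤ × G)) ⊆ S' := by
    intro i j x hx
    refine Finset.mem_biUnion.2 ⟨(i, j), Finset.mem_univ _, ?_⟩
    exact Finset.mem_image.2 ⟨x, hx, rfl⟩
  have hs' : ∀ a ∈ S', ∀ b ∈ S', s' (a * b) = s' a * s' b := by
    intro a ha b hb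
    exact Prod.ext rfl (h1 _ ha _ hb)
  let q₀ : Idem (MonoidAlgebra R (Multiplicative ℤ × T.grp)) := q.push s' S' hs' hq
  refine ⟨T, π, q₀.map ((laurentEquiv R T.grp).symm : _ →+* _), ?_⟩
  refine Idem.ext' rfl fun i j => ?_
  apply (laurentEquiv R G).injective
  show laurentEquiv R G (AddMonoidAlgebra.mapRingHom ℤ (MonoidAlgebra.mapDomainRingHom R π)
    ((laurentEquiv R T.grp).symm (MonoidAlgebra.mapDomain s' (q.e i j)))) = q.e i j
  rw [laurentEquiv_natural, RingEquiv.apply_symm_apply]
  refine mapDomain_eq_self s' _ S' ?_ _ (hq i j)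
  intro a ha
  exact Prod.ext rfl (h2 _ ha)

/-- The coefficients of an idempotent matrix over `R[G][t, t⁻¹]` lie in a finite set; over every
subring containing this set, the matrix is defined. -/
theorem restrict_idem {R : Type u} [Ring R] {G : Type u} [Group G]
    (p : Idem (LaurentPolynomial (MonoidAlgebra R G))) :
    ∃ F : Finset R, ∀ R₀ : Subring R, (F : Set R) ⊆ R₀ →
      ∃ p₀ : Idem (LaurentPolynomial (MonoidAlgebra R₀ G)),
        p₀.map (lmap (MonoidAlgebra.mapRingHom G R₀.subtype)) = p := by
  classical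
  let F : Finset R := Finset.univ.biUnion fun ij : Fin p.n × Fin p.n =>
    (p.e ij.1 ij.2).coeff.support.biUnion fun k =>
      ((p.e ij.1 ij.2).coeff k).coeff.support.image ((p.e ij.1 ij.2).coeff k).coeff
  refine ⟨F, fun R₀ hF => ?_⟩
  have hmem : ∀ i j k g, ((p.e i j).coeff k).coeff g ∈ R₀ := by
    intro i j k g
    by_cases h1 : (p.e i j).coeff k = 0
    · rw [h1]
      exact R₀.zero_mem
    by_cases h2 : ((p.e i j).coeff k).coeff g = 0
    · rw [h2]
      exact R₀.zero_mem
    · refine hF ?_
      refine Finset.mem_coe.2 (Finset.mem_biUnion.2 ⟨(i, j), Finset.mem_univ _, ?_⟩)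
      refine Finset.mem_biUnion.2 ⟨k, Finsupp.mem_support_iff.2 h1, ?_⟩
      exact Finset.mem_image.2 ⟨g, Finsupp.mem_support_iff.2 h2, rfl⟩
  let φ : LaurentPolynomial (MonoidAlgebra R₀ G) →+* LaurentPolynomial (MonoidAlgebra R G) :=
    lmap (MonoidAlgebra.mapRingHom G R₀.subtype)
  have hinj : Function.Injective φ :=
    AddMonoidAlgebra.map_injective (M := ℤ)
      ((MonoidAlgebra.mapRingHom G R₀.subtype : MonoidAlgebra R₀ G →+* MonoidAlgebra R G) :
        MonoidAlgebra R₀ G →+ MonoidAlgebra R G)
      (MonoidAlgebra.map_injective (M := G) ((R₀.subtype : R₀ →+* R) : R₀ →+ R)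
        Subtype.val_injective)
  have hsurj : ∀ i j, ∃ x, φ x = p.e i j := by
    intro i j
    have h1 : p.e i j ∈ Set.range (AddMonoidAlgebra.map (M := ℤ)
        ((MonoidAlgebra.mapRingHom G R₀.subtype : MonoidAlgebra R₀ G →+* MonoidAlgebra R G) :
          MonoidAlgebra R₀ G →+ MonoidAlgebra R G)) := by
      rw [AddMonoidAlgebra.range_map]
      intro k
      have h2 : (p.e i j).coeff k ∈ Set.range (MonoidAlgebra.map (M := G)
          ((R₀.subtype : R₀ →+* R) : R₀ →+ R)) := by
        rw [MonoidAlgebra.range_map]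
        intro g
        exact ⟨⟨_, hmem i j k g⟩, rfl⟩
      exact h2
    exact h1
  choose e he using hsurj
  refine ⟨⟨p.n, Matrix.of e, ?_⟩, ?_⟩
  · ext1 i j
    apply hinj
    rw [Matrix.mul_apply, _root_.map_sum]
    simp only [Matrix.of_apply, map_mul, he]
    rw [← Matrix.mul_apply, p.idem]
  · exact Idem.ext' rfl fun i j => he i j

end Pool.Agent.NegK
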