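import Pool.Agent.Lib.MP_28303a_al.NK.Wt

/-! # Idempotent matrices of degree one are conjugate to constant ones -/

set_option autoImplicit false

namespace Pool.Agent.NegK

universe u v w

open Matrix

section

variable {A : Type u} [Ring A]

/-- Idempotents of degree one in a graded sense: `E₀ + s E₁`. -/
theorem linear_conj {M : Type v} [Ring M] (E₀ E₁ s : M) (hs0 : Commute s E₀)
    (hs1 : Commute s E₁) (h0 : E₀ * E₀ = E₀) (h1 : E₀ * E₁ + E₁ * E₀ = E₁) (h2 : E₁ * E₁ = 0) :
    (1 - s * (E₁ * E₀ - E₀ * E₁)) * (1 + s * (E₁ * E₀ - E₀ * E₁)) = 1 ∧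
    (1 + s * (E₁ * E₀ - E₀ * E₁)) * E₀ * (1 - s * (E₁ * E₀ - E₀ * E₁)) = E₀ + s * E₁ := by
  have h3 : E₀ * E₁ * E₀ = 0 := by
    have h4 : E₀ * (E₀ * E₁ + E₁ * E₀) = E₀ * E₁ := by rw [h1]
    rw [mul_add, ← mul_assoc, h0, ← mul_assoc] at h4
    exact left_eq_add.1 h4.symm
  have h5 : E₁ * E₀ * E₁ = 0 := by
    have h4 : E₁ * (E₀ * E₁ + E₁ * E₀) = E₁ * E₁ := by rw [h1]
    rw [mul_add, ← mul_assoc, ← mul_assoc, h2, zero_mul, add_zero] at h4
    exact h4
  set D : M := E₁ * E₀ - E₀ * E₁ with hD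
  have hsD : Commute s D := (hs1.mul_right hs0).sub_right (hs0.mul_right hs1)
  have hDD : D * D = 0 := by
    rw [hD]
    have e1 : E₁ * E₀ * (E₁ * E₀) = 0 := by rw [← mul_assoc, h5, zero_mul]
    have e2 : E₁ * E₀ * (E₀ * E₁) = 0 := by
      rw [mul_assoc, ← mul_assoc E₀, h0, ← mul_assoc, h5]
    have e3 : E₀ * E₁ * (E₁ * E₀) = 0 := by
      rw [mul_assoc, ← mul_assoc E₁, h2, zero_mul, mul_zero]
    have e4 : E₀ * E₁ * (E₀ * E₁) = 0 := by rw [← mul_assoc, h3, zero_mul]
    rw [sub_mul, mul_sub, mul_sub, e1, e2, e3, e4]; simp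
  have hsDD : s * D * (s * D) = 0 := by
    rw [mul_assoc, ← mul_assoc D, ← hsD.eq, mul_assoc, hDD, mul_zero, mul_zero]
  refine ⟨?_, ?_⟩
  · rw [sub_mul, one_mul, mul_add, mul_one, hsDD]
    abel
  · have hDE : D * E₀ = E₁ * E₀ := by
      rw [hD, sub_mul, mul_assoc, h0, h3, sub_zero]
    have hED : E₀ * D = -(E₀ * E₁) := by
      rw [hD, mul_sub, ← mul_assoc, h3, ← mul_assoc, h0, zero_sub]
    have hEE : E₁ * E₀ * (s * D) = 0 := by
      rw [← mul_assoc, ← (hs1.mul_right hs0).eq, mul_assoc, hD, mul_sub]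
      have e1 : E₁ * E₀ * (E₁ * E₀) = 0 := by rw [← mul_assoc, h5, zero_mul]
      have e2 : E₁ * E₀ * (E₀ * E₁) = 0 := by
        rw [mul_assoc, ← mul_assoc E₀, h0, ← mul_assoc, h5]
      rw [e1, e2]; simp
    rw [add_mul, one_mul, mul_assoc s D, hDE, mul_sub, mul_one, add_mul, mul_assoc s, hEE,
      mul_zero, add_zero, ← mul_assoc E₀ s D, ← hs0.eq, mul_assoc s E₀ D, hED]
    rw [mul_neg, sub_neg_eq_add, add_assoc, ← mul_add, add_comm (E₁ * E₀), h1]

theorem map_C_coeff {ι : Type} (E : Matrix ι ι A) (i j : ι) (l : ℤ) :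
    ((E.map (LaurentPolynomial.C : A →+* LaurentPolynomial A)) i j).coeff l =
      if l = 0 then E i j else 0 := by
  classical
  show (AddMonoidAlgebra.single (0 : ℤ) (E i j)).coeff l = _
  rw [AddMonoidAlgebra.coeff_single, Finsupp.single_apply]
  simp [eq_comm]

/-- Coefficient matrices. -/
def cf {ι : Type} (X : Matrix ι ι (LaurentPolynomial A)) (l : ℤ) : Matrix ι ι A :=
  Matrix.of fun i j => (X i j).coeff l

theorem cf_mul {ι : Type} [Fintype ι] [DecidableEq ι] (X : Matrix ι ι (LaurentPolynomial A))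
    (ε : ℤ) (hε : ε ≠ 0) (h : ∀ i j l, (X i j).coeff l ≠ 0 → l = 0 ∨ l = ε) (l : ℤ) :
    cf (X * X) l = (if l = 0 then cf X 0 * cf X 0 else 0) +
      (if l = ε then cf X 0 * cf X ε + cf X ε * cf X 0 else 0) +
      (if l = ε + ε then cf X ε * cf X ε else 0) := by
  classical
  have hx : ∀ i j, X i j = AddMonoidAlgebra.single 0 ((X i j).coeff 0) +
      AddMonoidAlgebra.single ε ((X i j).coeff ε) := by
    intro i j
    refine AddMonoidAlgebra.ext (Finsupp.ext fun l => ?_)
    rw [AddMonoidAlgebra.coeff_add, Finsupp.add_apply, AddMonoidAlgebra.coeff_single,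
      AddMonoidAlgebra.coeff_single, Finsupp.single_apply, Finsupp.single_apply]
    by_cases h0 : l = 0
    · subst h0
      rw [if_pos rfl, if_neg hε, add_zero]
    · by_cases h1 : l = ε
      · subst h1
        rw [if_neg (Ne.symm h0), if_pos rfl, zero_add]
      · rw [if_neg (Ne.symm h0), if_neg (Ne.symm h1), add_zero]
        by_contra hc
        rcases h i j l hc with h2 | h2
        · exact h0 h2
        · exact h1 h2
  ext i j
  show ((X * X) i j).coeff l = _
  rw [Matrix.mul_apply, AddMonoidAlgebra.coeff_sum, Finsupp.finsetSum_apply]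
  have e1 : ∀ k, (X i k * X k j).coeff l =
      (if l = 0 then (X i k).coeff 0 * (X k j).coeff 0 else 0) +
      (if l = ε then (X i k).coeff 0 * (X k j).coeff ε + (X i k).coeff ε * (X k j).coeff 0
        else 0) + (if l = ε + ε then (X i k).coeff ε * (X k j).coeff ε else 0) := by
    intro k
    conv_lhs => rw [hx i k, hx k j]
    rw [add_mul, mul_add, mul_add, AddMonoidAlgebra.single_mul_single,
      AddMonoidAlgebra.single_mul_single, AddMonoidAlgebra.single_mul_single,
      AddMonoidAlgebra.single_mul_single, add_zero, zero_add, add_zero]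
    simp only [AddMonoidAlgebra.coeff_add, Finsupp.add_apply, AddMonoidAlgebra.coeff_single,
      Finsupp.single_apply, @eq_comm _ l]
    split_ifs <;> abel
  rw [Finset.sum_congr rfl fun k _ => e1 k, Finset.sum_add_distrib, Finset.sum_add_distrib]
  congr 1
  · congr 1
    · by_cases h0 : l = 0
      · simp only [if_pos h0]
        rfl
      · simp only [if_neg h0, Finset.sum_const_zero]
        rfl
    · by_cases h0 : l = ε
      · simp only [if_pos h0]
        rw [Finset.sum_add_distrib]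
        rfl
      · simp only [if_neg h0, Finset.sum_const_zero]
        rfl
  · by_cases h0 : l = ε + ε
    · simp only [if_pos h0]
      rfl
    · simp only [if_neg h0, Finset.sum_const_zero]
      rfl

theorem mcls_linear {ι : Type} [Fintype ι] [DecidableEq ι]
    {X : Matrix ι ι (LaurentPolynomial A)} (hX : X * X = X) (ε : ℤ) (hε : ε ≠ 0)
    (h : ∀ i j l, (X i j).coeff l ≠ 0 → l = 0 ∨ l = ε) :
    mcls X hX ∈ (K0.map (LaurentPolynomial.C : A →+* LaurentPolynomial A)).range := by
  have hε2 : ε + ε ≠ 0 := by omega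
  have hε3 : ε + ε ≠ ε := by omega
  have h0 : cf X 0 * cf X 0 = cf X 0 := by
    have := cf_mul X ε hε h 0
    rw [hX, if_pos rfl, if_neg (Ne.symm hε), if_neg (Ne.symm hε2), add_zero, add_zero] at this
    exact this.symm
  have h1 : cf X 0 * cf X ε + cf X ε * cf X 0 = cf X ε := by
    have := cf_mul X ε hε h ε
    rw [hX, if_neg hε, if_pos rfl, if_neg (Ne.symm hε3), add_zero, zero_add] at this
    exact this.symm
  have h2 : cf X ε * cf X ε = 0 := by
    have := cf_mul X ε hε h (ε + ε)
    rw [hX, if_neg hε2, if_neg hε3, if_pos rfl, zero_add, zero_add] at this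
    rw [← this]
    ext i j
    show (X i j).coeff (ε + ε) = 0
    by_contra hc
    rcases h i j _ hc with h4 | h4
    · exact hε2 h4
    · exact hε3 h4
  let Cm : Matrix ι ι A →+* Matrix ι ι (LaurentPolynomial A) :=
    (LaurentPolynomial.C : A →+* LaurentPolynomial A).mapMatrix
  let s : Matrix ι ι (LaurentPolynomial A) := Matrix.scalar ι (LaurentPolynomial.T ε)
  have hs : ∀ E : Matrix ι ι A, Commute s (Cm E) := by
    intro E
    show Matrix.scalar ι (LaurentPolynomial.T ε) * E.map LaurentPolynomial.C =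
      E.map LaurentPolynomial.C * Matrix.scalar ι (LaurentPolynomial.T ε)
    rw [Matrix.scalar_apply]
    ext1 i j
    rw [Matrix.diagonal_mul, Matrix.mul_diagonal]
    show AddMonoidAlgebra.single ε 1 * AddMonoidAlgebra.single 0 (E i j) =
      AddMonoidAlgebra.single 0 (E i j) * AddMonoidAlgebra.single ε 1
    rw [AddMonoidAlgebra.single_mul_single, AddMonoidAlgebra.single_mul_single, one_mul, mul_one,
      add_zero, zero_add]
  have hXe : X = Cm (cf X 0) + s * Cm (cf X ε) := by
    show X = (cf X 0).map LaurentPolynomial.C +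
      Matrix.scalar ι (LaurentPolynomial.T ε) * (cf X ε).map LaurentPolynomial.C
    rw [Matrix.scalar_apply]
    ext1 i j
    rw [Matrix.add_apply, Matrix.diagonal_mul]
    show X i j = AddMonoidAlgebra.single 0 ((X i j).coeff 0) +
      AddMonoidAlgebra.single ε 1 * AddMonoidAlgebra.single 0 ((X i j).coeff ε)
    rw [AddMonoidAlgebra.single_mul_single, one_mul, add_zero]
    refine AddMonoidAlgebra.ext (Finsupp.ext fun l => ?_)
    rw [AddMonoidAlgebra.coeff_add, Finsupp.add_apply, AddMonoidAlgebra.coeff_single,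
      AddMonoidAlgebra.coeff_single, Finsupp.single_apply, Finsupp.single_apply]
    by_cases h0 : l = 0
    · subst h0
      rw [if_pos rfl, if_neg hε, add_zero]
    · by_cases h1 : l = ε
      · subst h1
        rw [if_neg (Ne.symm h0), if_pos rfl, zero_add]
      · rw [if_neg (Ne.symm h0), if_neg (Ne.symm h1), add_zero]
        by_contra hc
        rcases h i j l hc with h2 | h2
        · exact h0 h2
        · exact h1 h2
  obtain ⟨k1, k2⟩ := linear_conj (Cm (cf X 0)) (Cm (cf X ε)) s (hs _) (hs _)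
    (by rw [← map_mul, h0]) (by rw [← map_mul, ← map_mul, ← map_add, h1])
    (by rw [← map_mul, h2, map_zero])
  refine ⟨mcls (cf X 0) h0, ?_⟩
  rw [mcls_map]
  exact mcls_conj _ hX _ _ k1 (k2.trans hXe.symm)

end

end Pool.Agent.NegK
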