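import Pool.Agent.Lib.MP_28303a_al.NK.Wt

/-! # The explicit unit matrices over `ℤ[s, s⁻¹]` -/

set_option autoImplicit false

namespace Pool.Agent.NegK

universe u v w

open Matrix

/-- `ℤ[s, s⁻¹]`. -/
abbrev Lz : Type := LaurentPolynomial ℤ

/-- The index type. -/
abbrev Ix (k : ℕ) : Type := Fin (k + 2) ⊕ Unit

/-- A unit matrix from two mutually inverse linear maps. -/
noncomputable def mkU {ι : Type} [Fintype ι] [DecidableEq ι] (f g : (ι → Lz) →ₗ[Lz] (ι → Lz))
    (h1 : ∀ x, f (g x) = x) (h2 : ∀ x, g (f x) = x) : (Matrix ι ι Lz)ˣ where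
  val := LinearMap.toMatrix' f
  inv := LinearMap.toMatrix' g
  val_inv := by
    rw [← LinearMap.toMatrix'_comp]
    have : f ∘ₗ g = LinearMap.id := LinearMap.ext h1
    rw [this, LinearMap.toMatrix'_id]
  inv_val := by
    rw [← LinearMap.toMatrix'_comp]
    have : g ∘ₗ f = LinearMap.id := LinearMap.ext h2
    rw [this, LinearMap.toMatrix'_id]

variable (k : ℕ)

/-- `T n`. -/
noncomputable abbrev tt (n : ℤ) : Lz := LaurentPolynomial.T n

theorem tt_mul (a b : ℤ) : tt a * tt b = tt (a + b) := (LaurentPolynomial.T_add a b).symm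

theorem tt_zero : tt 0 = 1 := LaurentPolynomial.T_zero

/-- The cyclic matrix `t^{k+3} = s`. -/
noncomputable def f0 : (Ix k → Lz) →ₗ[Lz] (Ix k → Lz) where
  toFun x := Sum.elim (fun i => if i = 0 then tt 1 * x (Sum.inr ()) else x (Sum.inl (i - 1)))
    (fun _ => x (Sum.inl (-1)))
  map_add' x y := by
    funext i
    rcases i with i | i
    · simp only [Sum.elim_inl, Pi.add_apply]
      split_ifs
      · ring
      · rfl
    · rfl
  map_smul' r x := by
    funext i
    rcases i with i | i
    · simp only [Sum.elim_inl, Pi.smul_apply, smul_eq_mul, RingHom.id_apply]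
      split_ifs
      · ring
      · rfl
    · rfl

/-- Its inverse. -/
noncomputable def g0 : (Ix k → Lz) →ₗ[Lz] (Ix k → Lz) where
  toFun y := Sum.elim (fun j => if j + 1 = 0 then y (Sum.inr ()) else y (Sum.inl (j + 1)))
    (fun _ => tt (-1) * y (Sum.inl 0))
  map_add' x y := by
    funext i
    rcases i with i | i
    · simp only [Sum.elim_inl, Pi.add_apply]
      split_ifs <;> rfl
    · simp only [Sum.elim_inr, Pi.add_apply]
      ring
  map_smul' r x := by
    funext i
    rcases i with i | i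
    · simp only [Sum.elim_inl, Pi.smul_apply, smul_eq_mul, RingHom.id_apply]
      split_ifs <;> rfl
    · simp only [Sum.elim_inr, Pi.smul_apply, smul_eq_mul, RingHom.id_apply]
      ring

theorem f0_g0 (y : Ix k → Lz) : f0 k (g0 k y) = y := by
  funext i
  rcases i with i | i
  · show (if i = 0 then tt 1 * (tt (-1) * y (Sum.inl 0)) else
      (if (i - 1) + 1 = 0 then y (Sum.inr ()) else y (Sum.inl ((i - 1) + 1)))) = y (Sum.inl i)
    by_cases hi : i = 0
    · rw [if_pos hi, ← mul_assoc, tt_mul, hi]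
      simp
    · rw [if_neg hi, sub_add_cancel, if_neg hi]
  · show (if (-1 : Fin (k + 2)) + 1 = 0 then y (Sum.inr ()) else y (Sum.inl ((-1) + 1))) = _
    rw [if_pos (by simp)]

theorem g0_f0 (x : Ix k → Lz) : g0 k (f0 k x) = x := by
  funext i
  rcases i with i | i
  · show (if i + 1 = 0 then x (Sum.inl (-1)) else
      (if i + 1 = 0 then tt 1 * x (Sum.inr ()) else x (Sum.inl (i + 1 - 1)))) = x (Sum.inl i)
    by_cases hi : i + 1 = 0
    · rw [if_pos hi, eq_neg_of_add_eq_zero_left hi]
    · rw [if_neg hi, if_neg hi, add_sub_cancel_right]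
  · show tt (-1) * (if (0 : Fin (k + 2)) = 0 then tt 1 * x (Sum.inr ()) else
      x (Sum.inl (0 - 1))) = _
    rw [if_pos rfl, ← mul_assoc, tt_mul]
    simp

/-- The unit `t^{k+3} = s`. -/
noncomputable def u0 : (Matrix (Ix k) (Ix k) Lz)ˣ := mkU (f0 k) (g0 k) (f0_g0 k) (g0_f0 k)

/-- The matrix `t^{k+3} + t = s`. -/
noncomputable def f1 : (Ix k → Lz) →ₗ[Lz] (Ix k → Lz) where
  toFun x := Sum.elim (fun i => if i = 0 then tt 1 * x (Sum.inr ()) else
      if i = 1 then x (Sum.inl 0) - x (Sum.inr ()) else x (Sum.inl (i - 1)))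
    (fun _ => x (Sum.inl (-1)))
  map_add' x y := by
    funext i
    rcases i with i | i
    · simp only [Sum.elim_inl, Pi.add_apply]
      split_ifs
      · ring
      · ring
      · rfl
    · rfl
  map_smul' r x := by
    funext i
    rcases i with i | i
    · simp only [Sum.elim_inl, Pi.smul_apply, smul_eq_mul, RingHom.id_apply]
      split_ifs
      · ring
      · ring
      · rfl
    · rfl

/-- Its inverse. -/
noncomputable def g1 : (Ix k → Lz) →ₗ[Lz] (Ix k → Lz) where
  toFun y := Sum.elim (fun j => if j + 1 = 0 then y (Sum.inr ()) else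
      if j = 0 then y (Sum.inl 1) + tt (-1) * y (Sum.inl 0) else y (Sum.inl (j + 1)))
    (fun _ => tt (-1) * y (Sum.inl 0))
  map_add' x y := by
    funext i
    rcases i with i | i
    · simp only [Sum.elim_inl, Pi.add_apply]
      split_ifs
      · rfl
      · ring
      · rfl
    · simp only [Sum.elim_inr, Pi.add_apply]
      ring
  map_smul' r x := by
    funext i
    rcases i with i | i
    · simp only [Sum.elim_inl, Pi.smul_apply, smul_eq_mul, RingHom.id_apply]
      split_ifs
      · rfl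
      · ring
      · rfl
    · simp only [Sum.elim_inr, Pi.smul_apply, smul_eq_mul, RingHom.id_apply]
      ring

theorem one_ne : (1 : Fin (k + 2)) ≠ 0 := by
  simp

theorem f1_g1 (y : Ix k → Lz) : f1 k (g1 k y) = y := by
  have h01 : (0 : Fin (k + 2)) + 1 ≠ 0 := by rw [zero_add]; exact one_ne k
  funext i
  rcases i with i | i
  · show (if i = 0 then tt 1 * (tt (-1) * y (Sum.inl 0)) else
      if i = 1 then (if (0 : Fin (k + 2)) + 1 = 0 then y (Sum.inr ()) else
        if (0 : Fin (k + 2)) = 0 then y (Sum.inl 1) + tt (-1) * y (Sum.inl 0) else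
          y (Sum.inl (0 + 1))) -
          tt (-1) * y (Sum.inl 0) else
      (if (i - 1) + 1 = 0 then y (Sum.inr ()) else
        if i - 1 = 0 then y (Sum.inl 1) + tt (-1) * y (Sum.inl 0) else
          y (Sum.inl ((i - 1) + 1)))) = y (Sum.inl i)
    by_cases hi : i = 0
    · rw [if_pos hi, ← mul_assoc, tt_mul, hi]
      simp
    · rw [if_neg hi]
      by_cases hi1 : i = 1
      · rw [if_pos hi1, if_neg h01, if_pos rfl, hi1, add_sub_cancel_right]
      · rw [if_neg hi1, sub_add_cancel, if_neg hi, if_neg (sub_ne_zero.2 hi1)]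
  · show (if (-1 : Fin (k + 2)) + 1 = 0 then y (Sum.inr ()) else _) = _
    rw [if_pos (by simp)]

theorem g1_f1 (x : Ix k → Lz) : g1 k (f1 k x) = x := by
  have h10 := one_ne k
  funext i
  rcases i with i | i
  · show (if i + 1 = 0 then x (Sum.inl (-1)) else
      if i = 0 then (if (1 : Fin (k + 2)) = 0 then tt 1 * x (Sum.inr ()) else
        if (1 : Fin (k + 2)) = 1 then x (Sum.inl 0) - x (Sum.inr ()) else
          x (Sum.inl (1 - 1))) +
        tt (-1) * (if (0 : Fin (k + 2)) = 0 then tt 1 * x (Sum.inr ()) else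
          if (0 : Fin (k + 2)) = 1 then x (Sum.inl 0) - x (Sum.inr ()) else
          x (Sum.inl (0 - 1))) else
      (if i + 1 = 0 then tt 1 * x (Sum.inr ()) else
        if i + 1 = 1 then x (Sum.inl 0) - x (Sum.inr ()) else
        x (Sum.inl (i + 1 - 1)))) = x (Sum.inl i)
    by_cases hi : i + 1 = 0
    · rw [if_pos hi, eq_neg_of_add_eq_zero_left hi]
    · rw [if_neg hi]
      by_cases hi0 : i = 0
      · rw [if_pos hi0, if_neg h10, if_pos rfl, if_pos rfl, ← mul_assoc, tt_mul, hi0]
        simp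
      · have hi1 : ¬ i + 1 = 1 := fun h => hi0 (by simpa using h)
        rw [if_neg hi0, if_neg hi, if_neg hi1, add_sub_cancel_right]
  · show tt (-1) * (if (0 : Fin (k + 2)) = 0 then tt 1 * x (Sum.inr ()) else
      if (0 : Fin (k + 2)) = 1 then x (Sum.inl 0) - x (Sum.inr ()) else
      x (Sum.inl (0 - 1))) = _
    rw [if_pos rfl, ← mul_assoc, tt_mul]
    simp

/-- The unit `t^{k+3} + t = s`. -/
noncomputable def u1 : (Matrix (Ix k) (Ix k) Lz)ˣ := mkU (f1 k) (g1 k) (f1_g1 k) (g1_f1 k)

/-- The vector `w`. -/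
noncomputable def ww (i : Fin (k + 2)) : Lz := if i = 0 then 1 else tt ((k + 2 : ℤ) - i.val)

/-- The change of basis. -/
noncomputable def fP : (Ix k → Lz) →ₗ[Lz] (Ix k → Lz) where
  toFun x := Sum.elim (fun i => x (Sum.inl i) + x (Sum.inr ()) * ww k i)
    (fun _ => x (Sum.inr ()))
  map_add' x y := by
    funext i
    rcases i with i | i
    · simp only [Sum.elim_inl, Pi.add_apply]
      ring
    · rfl
  map_smul' r x := by
    funext i
    rcases i with i | i
    · simp only [Sum.elim_inl, Pi.smul_apply, smul_eq_mul, RingHom.id_apply]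
      ring
    · rfl

/-- Its inverse. -/
noncomputable def gP : (Ix k → Lz) →ₗ[Lz] (Ix k → Lz) where
  toFun x := Sum.elim (fun i => x (Sum.inl i) - x (Sum.inr ()) * ww k i)
    (fun _ => x (Sum.inr ()))
  map_add' x y := by
    funext i
    rcases i with i | i
    · simp only [Sum.elim_inl, Pi.add_apply]
      ring
    · rfl
  map_smul' r x := by
    funext i
    rcases i with i | i
    · simp only [Sum.elim_inl, Pi.smul_apply, smul_eq_mul, RingHom.id_apply]
      ring
    · rfl

/-- The unit `P`. -/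
noncomputable def uP : (Matrix (Ix k) (Ix k) Lz)ˣ := mkU (fP k) (gP k)
  (fun x => by
    funext i
    rcases i with i | i
    · show x (Sum.inl i) - x (Sum.inr ()) * ww k i + x (Sum.inr ()) * ww k i = _
      ring
    · rfl)
  (fun x => by
    funext i
    rcases i with i | i
    · show x (Sum.inl i) + x (Sum.inr ()) * ww k i - x (Sum.inr ()) * ww k i = _
      ring
    · rfl)

/-- The block `c`: `t^{k+2} + s t^{k+1} + ... + s^{k+1} t + 1 = 0`. -/
noncomputable def fc : (Fin (k + 2) → Lz) →ₗ[Lz] (Fin (k + 2) → Lz) where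
  toFun x := fun i => if i = 0 then - x (-1) else x (i - 1) - tt ((k + 2 : ℤ) - i.val) * x (-1)
  map_add' x y := by
    funext i
    simp only [Pi.add_apply]
    split_ifs <;> ring
  map_smul' r x := by
    funext i
    simp only [Pi.smul_apply, smul_eq_mul, RingHom.id_apply]
    split_ifs <;> ring

/-- Its inverse. -/
noncomputable def gc : (Fin (k + 2) → Lz) →ₗ[Lz] (Fin (k + 2) → Lz) where
  toFun y := fun j => if j + 1 = 0 then - y 0 else
    y (j + 1) - tt ((k + 2 : ℤ) - (j + 1).val) * y 0
  map_add' x y := by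
    funext i
    simp only [Pi.add_apply]
    split_ifs <;> ring
  map_smul' r x := by
    funext i
    simp only [Pi.smul_apply, smul_eq_mul, RingHom.id_apply]
    split_ifs <;> ring

theorem fc_gc (y : Fin (k + 2) → Lz) : fc k (gc k y) = y := by
  funext i
  show (if i = 0 then - (if (-1 : Fin (k + 2)) + 1 = 0 then - y 0 else
    y (-1 + 1) - tt ((k + 2 : ℤ) - (-1 + 1 : Fin (k + 2)).val) * y 0) else
    (if i - 1 + 1 = 0 then - y 0 else
      y (i - 1 + 1) - tt ((k + 2 : ℤ) - (i - 1 + 1).val) * y 0) -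
    tt ((k + 2 : ℤ) - i.val) * (if (-1 : Fin (k + 2)) + 1 = 0 then - y 0 else
    y (-1 + 1) - tt ((k + 2 : ℤ) - (-1 + 1 : Fin (k + 2)).val) * y 0)) = y i
  by_cases hi : i = 0
  · rw [if_pos hi, if_pos (by simp), hi, neg_neg]
  · rw [if_neg hi, sub_add_cancel, if_neg hi, if_pos (by simp)]
    ring

theorem gc_fc (x : Fin (k + 2) → Lz) : gc k (fc k x) = x := by
  funext j
  show (if j + 1 = 0 then - (if (0 : Fin (k + 2)) = 0 then - x (-1) else
    x (0 - 1) - tt ((k + 2 : ℤ) - (0 : Fin (k + 2)).val) * x (-1)) else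
    (if j + 1 = 0 then - x (-1) else
      x (j + 1 - 1) - tt ((k + 2 : ℤ) - (j + 1).val) * x (-1)) -
    tt ((k + 2 : ℤ) - (j + 1).val) * (if (0 : Fin (k + 2)) = 0 then - x (-1) else
    x (0 - 1) - tt ((k + 2 : ℤ) - (0 : Fin (k + 2)).val) * x (-1))) = x j
  by_cases hj : j + 1 = 0
  · rw [if_pos hj, if_pos rfl, neg_neg, eq_neg_of_add_eq_zero_left hj]
  · rw [if_neg hj, if_neg hj, if_pos rfl, add_sub_cancel_right]
    ring

/-- The unit `c`. -/
noncomputable def uc : (Matrix (Fin (k + 2)) (Fin (k + 2)) Lz)ˣ :=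
  mkU (fc k) (gc k) (fc_gc k) (gc_fc k)

/-- The block triangular matrix. -/
noncomputable def f2 : (Ix k → Lz) →ₗ[Lz] (Ix k → Lz) where
  toFun x := Sum.elim (fc k (fun i => x (Sum.inl i)))
    (fun _ => x (Sum.inl (-1)) + tt 1 * x (Sum.inr ()))
  map_add' x y := by
    funext i
    rcases i with i | i
    · show fc k (fun i => x (Sum.inl i) + y (Sum.inl i)) i = _
      have := (fc k).map_add (fun i => x (Sum.inl i)) (fun i => y (Sum.inl i))
      exact congrFun this i
    · simp only [Sum.elim_inr, Pi.add_apply]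
      ring
  map_smul' r x := by
    funext i
    rcases i with i | i
    · show fc k (fun i => r • x (Sum.inl i)) i = _
      have := (fc k).map_smul r (fun i => x (Sum.inl i))
      exact congrFun this i
    · simp only [Sum.elim_inr, Pi.smul_apply, smul_eq_mul, RingHom.id_apply]
      ring

/-- Its inverse. -/
noncomputable def g2 : (Ix k → Lz) →ₗ[Lz] (Ix k → Lz) where
  toFun y := Sum.elim (gc k (fun i => y (Sum.inl i)))
    (fun _ => tt (-1) * (y (Sum.inr ()) + y (Sum.inl 0)))
  map_add' x y := by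
    funext i
    rcases i with i | i
    · show gc k (fun i => x (Sum.inl i) + y (Sum.inl i)) i = _
      have := (gc k).map_add (fun i => x (Sum.inl i)) (fun i => y (Sum.inl i))
      exact congrFun this i
    · simp only [Sum.elim_inr, Pi.add_apply]
      ring
  map_smul' r x := by
    funext i
    rcases i with i | i
    · show gc k (fun i => r • x (Sum.inl i)) i = _
      have := (gc k).map_smul r (fun i => x (Sum.inl i))
      exact congrFun this i
    · simp only [Sum.elim_inr, Pi.smul_apply, smul_eq_mul, RingHom.id_apply]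
      ring

theorem f2_g2 (y : Ix k → Lz) : f2 k (g2 k y) = y := by
  funext i
  rcases i with i | i
  · exact congrFun (fc_gc k (fun i => y (Sum.inl i))) i
  · show (if (-1 : Fin (k + 2)) + 1 = 0 then - y (Sum.inl 0) else
      y (Sum.inl (-1 + 1)) - tt ((k + 2 : ℤ) - (-1 + 1 : Fin (k + 2)).val) * y (Sum.inl 0)) +
      tt 1 * (tt (-1) * (y (Sum.inr ()) + y (Sum.inl 0))) = _
    rw [if_pos (by simp), ← mul_assoc, tt_mul]
    simp

theorem g2_f2 (x : Ix k → Lz) : g2 k (f2 k x) = x := by
  funext i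
  rcases i with i | i
  · exact congrFun (gc_fc k (fun i => x (Sum.inl i))) i
  · show tt (-1) * (x (Sum.inl (-1)) + tt 1 * x (Sum.inr ()) +
      (if (0 : Fin (k + 2)) = 0 then - x (Sum.inl (-1)) else
      x (Sum.inl (0 - 1)) - tt ((k + 2 : ℤ) - (0 : Fin (k + 2)).val) * x (Sum.inl (-1)))) = _
    rw [if_pos rfl]
    have : x (Sum.inl (-1)) + tt 1 * x (Sum.inr ()) + - x (Sum.inl (-1)) =
        tt 1 * x (Sum.inr ()) := by ring
    rw [this, ← mul_assoc, tt_mul]
    simp

/-- The block triangular unit. -/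
noncomputable def u2 : (Matrix (Ix k) (Ix k) Lz)ˣ := mkU (f2 k) (g2 k) (f2_g2 k) (g2_f2 k)

/-- The perturbation. -/
noncomputable def fd : (Ix k → Lz) →ₗ[Lz] (Ix k → Lz) where
  toFun x := Sum.elim (fun i => if i = 1 then tt (k + 2 : ℤ) * x (Sum.inr ()) else 0)
    (fun _ => 0)
  map_add' x y := by
    funext i
    rcases i with i | i
    · simp only [Sum.elim_inl, Pi.add_apply]
      split_ifs <;> ring
    · simp
  map_smul' r x := by
    funext i
    rcases i with i | i
    · simp only [Sum.elim_inl, Pi.smul_apply, smul_eq_mul, RingHom.id_apply]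
      split_ifs <;> ring
    · simp

/-- `P⁻¹ u₁ P = u₂ - d`. -/
theorem conj_eq (x : Ix k → Lz) : gP k (f1 k (fP k x)) = f2 k x - fd k x := by
  have h1v : ((1 : Fin (k + 2)).val : ℤ) = 1 := by simp
  have hneg : (-1 : Fin (k + 2)).val = k + 1 := by
    have : (-1 : Fin (k + 2)) = Fin.last (k + 1) := by
      rw [eq_comm, ← add_eq_zero_iff_eq_neg]
      simp
    rw [this]; rfl
  have hneg0 : (-1 : Fin (k + 2)) ≠ 0 := by
    intro h
    have := congrArg Fin.val h
    rw [hneg] at this
    simp at this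
  have hw : ww k (-1) = tt 1 := by
    unfold ww
    rw [if_neg hneg0, hneg]
    congr 1
    push_cast
    ring
  have hw0 : ww k 0 = 1 := if_pos rfl
  funext i
  rcases i with i | i
  · show (if i = 0 then tt 1 * x (Sum.inr ()) else
      if i = 1 then (x (Sum.inl 0) + x (Sum.inr ()) * ww k 0) - x (Sum.inr ()) else
        x (Sum.inl (i - 1)) + x (Sum.inr ()) * ww k (i - 1)) -
      (x (Sum.inl (-1)) + x (Sum.inr ()) * ww k (-1)) * ww k i =
      (if i = 0 then - x (Sum.inl (-1)) else
        x (Sum.inl (i - 1)) - tt ((k + 2 : ℤ) - i.val) * x (Sum.inl (-1))) -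
      (if i = 1 then tt (k + 2 : ℤ) * x (Sum.inr ()) else 0)
    by_cases hi : i = 0
    · subst hi
      rw [if_pos rfl, if_pos rfl, if_neg (one_ne k).symm, hw, hw0]
      ring
    · rw [if_neg hi, if_neg hi]
      have hwi : ww k i = tt ((k + 2 : ℤ) - i.val) := if_neg hi
      by_cases hi1 : i = 1
      · subst hi1
        rw [if_pos rfl, if_pos rfl, hw, hw0, hwi, h1v, sub_self]
        have e1 : tt 1 * tt ((k + 2 : ℤ) - 1) = tt (k + 2 : ℤ) := by
          rw [tt_mul]
          congr 1
          ring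
        have e2 : (x (Sum.inl 0) + x (Sum.inr ()) * 1) - x (Sum.inr ()) -
            (x (Sum.inl (-1)) + x (Sum.inr ()) * tt 1) * tt ((k + 2 : ℤ) - 1) =
            x (Sum.inl 0) - tt ((k + 2 : ℤ) - 1) * x (Sum.inl (-1)) -
              (tt 1 * tt ((k + 2 : ℤ) - 1)) * x (Sum.inr ()) := by ring
        rw [e2, e1]
      · rw [if_neg hi1, if_neg hi1, hw, hwi]
        have hi0' : i - 1 ≠ 0 := sub_ne_zero.2 hi1
        have hwi' : ww k (i - 1) = tt ((k + 2 : ℤ) - (i - 1).val) := if_neg hi0'
        have hv : ((i - 1 : Fin (k + 2)).val : ℤ) = i.val - 1 := by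
          have h2 : (i - 1 : Fin (k + 2)).val = i.val - 1 := by
            rw [Fin.val_sub_one_of_ne_zero hi]
          rw [h2]
          have h3 : 1 ≤ i.val := Nat.one_le_iff_ne_zero.2 (fun h => hi (Fin.ext h))
          omega
        have e1 : tt ((k + 2 : ℤ) - (i - 1 : Fin (k + 2)).val) =
            tt 1 * tt ((k + 2 : ℤ) - i.val) := by
          rw [tt_mul, hv]
          congr 1
          ring
        rw [hwi', e1]
        ring
  · show x (Sum.inl (-1)) + x (Sum.inr ()) * ww k (-1) =
      x (Sum.inl (-1)) + tt 1 * x (Sum.inr ()) - 0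
    rw [hw]
    ring

end Pool.Agent.NegK
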