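import Pool.Agent.Lib.MP_28303a_al.NK.Defs

/-! # Skolem hulls: countable subrings in which linear problems can be solved -/

set_option autoImplicit false

namespace Pool.Agent.NegK

universe u v w

/-- Closure of a countable set under countably many operations of finite arity with countable
sets of values. -/
theorem exists_closed {R : Type u} {ι : Type} [Countable ι] (α : ι → Type) [∀ i, Finite (α i)]
    (f : ∀ i, (α i → R) → Set R) (hf : ∀ i x, (f i x).Countable) (X : Set R) (hX : X.Countable) :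
    ∃ Y : Set R, X ⊆ Y ∧ Y.Countable ∧ ∀ (i : ι) (x : α i → R), (∀ a, x a ∈ Y) → f i x ⊆ Y := by
  classical
  let step : Set R → Set R := fun Z => Z ∪ ⋃ q : (Σ i, (α i → Z)), f q.1 (fun a => (q.2 a : R))
  let Z : ℕ → Set R := fun n => step^[n] X
  have hZ0 : Z 0 = X := rfl
  have hZs : ∀ n, Z (n + 1) = step (Z n) := fun n => Function.iterate_succ_apply' step n X
  have hcount : ∀ n, (Z n).Countable := by
    intro n
    induction n with
    | zero => exact hX
    | succ n ih =>
      rw [hZs]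
      have : Countable (Z n) := ih.to_subtype
      exact ih.union (Set.countable_iUnion fun q => hf _ _)
  have hmono : Monotone Z := by
    refine monotone_nat_of_le_succ fun n => ?_
    rw [hZs]
    exact Set.subset_union_left
  refine ⟨⋃ n, Z n, Set.subset_iUnion Z 0, Set.countable_iUnion hcount, fun i x hx => ?_⟩
  have h1 : ∀ a, ∃ n, x a ∈ Z n := fun a => Set.mem_iUnion.1 (hx a)
  choose n hn using h1
  obtain ⟨N, hN⟩ := (Set.finite_range n).bddAbove
  have h2 : ∀ a, x a ∈ Z N := fun a => hmono (hN ⟨a, rfl⟩) (hn a)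
  refine Set.Subset.trans ?_ (Set.subset_iUnion Z (N + 1))
  rw [hZs]
  refine Set.Subset.trans ?_ Set.subset_union_right
  exact Set.subset_iUnion (fun q : (Σ i, (α i → Z N)) => f q.1 (fun a => (q.2 a : R)))
    ⟨i, fun a => ⟨x a, h2 a⟩⟩

/-- Subrings in which linear problems can be solved. -/
structure Good {R : Type u} [Ring R] (R₀ : Subring R) : Prop where
  solve : ∀ (n m : ℕ) (A : Matrix (Fin n) (Fin m) R) (b : Fin m → R), (∀ i j, A i j ∈ R₀) →
    (∀ j, b j ∈ R₀) → (∃ x : Fin n → R, Matrix.vecMul x A = b) →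
    ∃ x : Fin n → R, (∀ i, x i ∈ R₀) ∧ Matrix.vecMul x A = b
  ker : ∀ (n m : ℕ) (A : Matrix (Fin n) (Fin m) R), (∀ i j, A i j ∈ R₀) →
    ∃ (k : ℕ) (B : Matrix (Fin k) (Fin n) R), (∀ i j, B i j ∈ R₀) ∧ B * A = 0 ∧
      ∀ x : Fin n → R, Matrix.vecMul x A = 0 → ∃ y : Fin k → R, Matrix.vecMul y B = x
  split : ∀ (k n m : ℕ) (B : Matrix (Fin k) (Fin n) R) (A : Matrix (Fin n) (Fin m) R),
    (∀ i j, B i j ∈ R₀) → (∀ i j, A i j ∈ R₀) →
    (∃ E : Matrix (Fin n) (Fin n) R, B * E = 0 ∧ E * A = A) →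
    ∃ E : Matrix (Fin n) (Fin n) R, (∀ i j, E i j ∈ R₀) ∧ B * E = 0 ∧ E * A = A

/-- Over a left noetherian ring the left kernel of a matrix is generated by the rows of a
matrix. -/
theorem exists_kernel_matrix {R : Type u} [Ring R] (hR : IsNoetherian R R) {n m : ℕ}
    (A : Matrix (Fin n) (Fin m) R) :
    ∃ (k : ℕ) (B : Matrix (Fin k) (Fin n) R), B * A = 0 ∧
      ∀ x : Fin n → R, Matrix.vecMul x A = 0 → ∃ y : Fin k → R, Matrix.vecMul y B = x := by
  have h1 : (LinearMap.ker A.vecMulLinear).FG := IsNoetherian.noetherian _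
  rw [Submodule.fg_iff_exists_fin_generating_family] at h1
  obtain ⟨k, B, hB⟩ := h1
  refine ⟨k, B, ?_, ?_⟩
  · ext i j
    have h2 : B i ∈ LinearMap.ker A.vecMulLinear := by
      rw [← hB]
      exact Submodule.subset_span ⟨i, rfl⟩
    exact congrFun (LinearMap.mem_ker.1 h2) j
  · intro x hx
    have h2 : x ∈ LinearMap.range (Matrix.vecMulLinear (B : Matrix (Fin k) (Fin n) R)) := by
      rw [range_vecMulLinear]
      have h3 : x ∈ LinearMap.ker A.vecMulLinear := hx
      rw [← hB] at h3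
      exact h3
    obtain ⟨y, hy⟩ := h2
    exact ⟨y, hy⟩

/-- The index types of the Skolem operations. -/
abbrev SkIdx : Type := Unit ⊕ (ℕ × ℕ) ⊕ (ℕ × ℕ) ⊕ (ℕ × ℕ × ℕ)

/-- The arities of the Skolem operations. -/
def SkAr : SkIdx → Type
  | Sum.inl _ => Bool
  | Sum.inr (Sum.inl (n, m)) => (Fin n × Fin m) ⊕ Fin m
  | Sum.inr (Sum.inr (Sum.inl (n, m))) => Fin n × Fin m
  | Sum.inr (Sum.inr (Sum.inr (k, n, m))) => (Fin k × Fin n) ⊕ (Fin n × Fin m)

instance (i : SkIdx) : Finite (SkAr i) := by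
  rcases i with _ | ⟨n, m⟩ | ⟨n, m⟩ | ⟨k, n, m⟩ <;> simp only [SkAr] <;> infer_instance

open Classical in
/-- The solution of a linear system, if there is one. -/
noncomputable def skSolve {R : Type u} [Ring R] {n m : ℕ} (A : Matrix (Fin n) (Fin m) R)
    (b : Fin m → R) : Fin n → R :=
  if h : ∃ x : Fin n → R, Matrix.vecMul x A = b then h.choose else 0

open Classical in
/-- The splitting matrix, if there is one. -/
noncomputable def skSplit {R : Type u} [Ring R] {k n m : ℕ} (B : Matrix (Fin k) (Fin n) R)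
    (A : Matrix (Fin n) (Fin m) R) : Matrix (Fin n) (Fin n) R :=
  if h : ∃ E : Matrix (Fin n) (Fin n) R, B * E = 0 ∧ E * A = A then h.choose else 0

/-- The Skolem operations. -/
noncomputable def skOp {R : Type u} [Ring R] (hR : IsNoetherian R R) :
    ∀ i : SkIdx, (SkAr i → R) → Set R
  | Sum.inl _, x => {x true + x false, x true * x false, - x true, 1, 0}
  | Sum.inr (Sum.inl (n, m)), x =>
      Set.range (skSolve (R := R) (n := n) (m := m) (Matrix.of fun i j => x (Sum.inl (i, j)))
        (fun j => x (Sum.inr j)))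
  | Sum.inr (Sum.inr (Sum.inl (n, m))), x =>
      Set.range (fun p : Fin (exists_kernel_matrix hR (n := n) (m := m)
        (Matrix.of fun i j => x (i, j))).choose × Fin n =>
        (exists_kernel_matrix hR (n := n) (m := m)
          (Matrix.of fun i j => x (i, j))).choose_spec.choose p.1 p.2)
  | Sum.inr (Sum.inr (Sum.inr (k, n, m))), x =>
      Set.range (fun p : Fin n × Fin n =>
        skSplit (R := R) (k := k) (n := n) (m := m) (Matrix.of fun i j => x (Sum.inl (i, j)))
          (Matrix.of fun i j => x (Sum.inr (i, j))) p.1 p.2)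

theorem exists_good {R : Type u} [Ring R] (hR : IsNoetherian R R) (X : Set R)
    (hX : X.Countable) : ∃ R₀ : Subring R, X ⊆ R₀ ∧ Countable R₀ ∧ Good R₀ := by
  obtain ⟨Y, h1, h2, h3⟩ := exists_closed SkAr (skOp hR) (by
    intro i x
    rcases i with _ | ⟨n, m⟩ | ⟨n, m⟩ | ⟨k, n, m⟩
    · exact (Set.toFinite ({x true + x false, x true * x false, - x true, 1, 0} :
        Set R)).countable
    · exact Set.countable_range _
    · exact Set.countable_range _
    · exact Set.countable_range _) X hX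
  have hring : ∀ a ∈ Y, ∀ b ∈ Y, ({a + b, a * b, - a, 1, 0} : Set R) ⊆ Y := by
    intro a ha b hb
    exact h3 (Sum.inl ()) (fun t : Bool => if t then a else b) (by
      intro t
      cases t
      · exact hb
      · exact ha)
  have hne : ∃ a, a ∈ Y := by
    have h4 := h3 (Sum.inr (Sum.inr (Sum.inr (0, 1, 0)))) (fun t => by
      rcases t with ⟨i, _⟩ | ⟨_, i⟩
      · exact i.elim0
      · exact i.elim0) (by
      intro t
      rcases t with ⟨i, _⟩ | ⟨_, i⟩
      · exact i.elim0
      · exact i.elim0)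
    exact ⟨_, h4 ⟨(0, 0), rfl⟩⟩
  obtain ⟨a₀, ha₀⟩ := hne
  let R₀ : Subring R :=
    { carrier := Y
      mul_mem' := fun {a b} ha hb => hring a ha b hb (by simp)
      one_mem' := hring a₀ ha₀ a₀ ha₀ (by simp)
      add_mem' := fun {a b} ha hb => hring a ha b hb (by simp)
      zero_mem' := hring a₀ ha₀ a₀ ha₀ (by simp)
      neg_mem' := fun {a} ha => hring a ha a ha (by simp) }
  refine ⟨R₀, h1, h2.to_subtype, ⟨?_, ?_, ?_⟩⟩
  · intro n m A b hA hb hx
    refine ⟨skSolve A b, fun i => ?_, ?_⟩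
    · refine h3 (Sum.inr (Sum.inl (n, m)))
        (Sum.elim (fun p : Fin n × Fin m => A p.1 p.2) b) ?_ ⟨i, rfl⟩
      rintro (⟨i, j⟩ | j)
      · exact hA i j
      · exact hb j
    · unfold skSolve
      rw [dif_pos hx]
      exact hx.choose_spec
  · intro n m A hA
    refine ⟨(exists_kernel_matrix hR A).choose, (exists_kernel_matrix hR A).choose_spec.choose,
      fun i j => ?_, (exists_kernel_matrix hR A).choose_spec.choose_spec.1,
      (exists_kernel_matrix hR A).choose_spec.choose_spec.2⟩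
    refine h3 (Sum.inr (Sum.inr (Sum.inl (n, m)))) (fun p : Fin n × Fin m => A p.1 p.2) ?_
      ⟨(i, j), rfl⟩
    rintro ⟨i, j⟩
    exact hA i j
  · intro k n m B A hB hA hE
    refine ⟨skSplit B A, fun i j => ?_, ?_⟩
    · refine h3 (Sum.inr (Sum.inr (Sum.inr (k, n, m))))
        (Sum.elim (fun p : Fin k × Fin n => B p.1 p.2) (fun p : Fin n × Fin m => A p.1 p.2)) ?_
        ⟨(i, j), rfl⟩
      rintro (⟨i, j⟩ | ⟨i, j⟩)
      · exact hB i j
      · exact hA i j
    · unfold skSplit
      rw [dif_pos hE]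
      exact hE.choose_spec

end Pool.Agent.NegK
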