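import Pool.Agent.Lib.MP_28303a_al.NK.Flat

/-! # Homomorphisms out of `A[t, t⁻¹]` and filtrations -/

set_option autoImplicit false

namespace Pool.Agent.NegK

universe u v w

open Matrix

section

variable {A : Type u} [Ring A] {M : Type v} [Ring M]

theorem commute_zpow (f : A →+* M) (α : Mˣ) (h : ∀ a, Commute (f a) (α : M)) (a : A) (k : ℤ) :
    Commute (f a) ((α ^ k : Mˣ) : M) := by
  have h1 : Commute (f a) (α : M) := h a
  exact Commute.units_zpow_right h1 k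

/-- The homomorphism `A[t, t⁻¹] → M` which is `f` on `A` and sends `t` to the unit `α`. -/
noncomputable def theta (f : A →+* M) (α : Mˣ) (h : ∀ a, Commute (f a) (α : M)) :
    LaurentPolynomial A →+* M :=
  AddMonoidAlgebra.liftNCRingHom f ((Units.coeHom M).comp (zpowersHom Mˣ α))
    (fun a k => commute_zpow f α h a k.toAdd)

theorem theta_single (f : A →+* M) (α : Mˣ) (h : ∀ a, Commute (f a) (α : M)) (k : ℤ) (a : A) :
    theta f α h (AddMonoidAlgebra.single k a) = f a * ((α ^ k : Mˣ) : M) := by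
  unfold theta
  rw [AddMonoidAlgebra.liftNCRingHom_single]
  rfl

theorem theta_C (f : A →+* M) (α : Mˣ) (h : ∀ a, Commute (f a) (α : M)) (a : A) :
    theta f α h (LaurentPolynomial.C a) = f a := by
  have := theta_single f α h 0 a
  rw [zpow_zero, Units.val_one, mul_one] at this
  exact this

theorem theta_T (f : A →+* M) (α : Mˣ) (h : ∀ a, Commute (f a) (α : M)) (k : ℤ) :
    theta f α h (LaurentPolynomial.T k) = ((α ^ k : Mˣ) : M) := by
  have := theta_single f α h k 1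
  rw [map_one, one_mul] at this
  exact this

theorem theta_apply (f : A →+* M) (α : Mˣ) (h : ∀ a, Commute (f a) (α : M))
    (x : LaurentPolynomial A) :
    theta f α h x = ∑ k ∈ x.coeff.support, f (x.coeff k) * ((α ^ k : Mˣ) : M) := by
  conv_lhs => rw [← AddMonoidAlgebra.sum_coeff_single x]
  rw [Finsupp.sum, map_sum]
  exact Finset.sum_congr rfl fun k _ => theta_single f α h k _

/-- A multiplicative filtration of a ring. -/
structure Filt (M : Type v) [Ring M] where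
  W : ℤ → AddSubgroup M
  mono : ∀ {r s : ℤ}, r ≤ s → W r ≤ W s
  mul : ∀ {r s : ℤ} {x y : M}, x ∈ W r → y ∈ W s → x * y ∈ W (r + s)

variable (F : Filt M)

theorem Filt.pow {x : M} (h1 : (1 : M) ∈ F.W 0) (hx : x ∈ F.W 1) (n : ℕ) : x ^ n ∈ F.W n := by
  induction n with
  | zero => rw [pow_zero]; exact_mod_cast h1
  | succ n ih =>
    rw [pow_succ]
    have := F.mul ih hx
    exact_mod_cast this

theorem Filt.pow_sub {x y : M} (h1 : (1 : M) ∈ F.W 0) (hx : x ∈ F.W 1) (hy : y ∈ F.W 1) (c : ℤ)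
    (hxy : x - y ∈ F.W c) (n : ℕ) : x ^ (n + 1) - y ^ (n + 1) ∈ F.W (c + n) := by
  induction n with
  | zero => simpa using hxy
  | succ n ih =>
    have e : x ^ (n + 1 + 1) - y ^ (n + 1 + 1) =
        x ^ (n + 1) * (x - y) + (x ^ (n + 1) - y ^ (n + 1)) * y := by
      rw [pow_succ x (n + 1), pow_succ y (n + 1)]
      noncomm_ring
    rw [e]
    refine (F.W _).add_mem ?_ ?_
    · have := F.mul (F.pow h1 hx (n + 1)) hxy
      refine F.mono (le_of_eq ?_) this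
      push_cast; ring
    · have := F.mul ih hy
      refine F.mono (le_of_eq ?_) this
      push_cast; ring

theorem Filt.zpow {α : Mˣ} (h1 : (1 : M) ∈ F.W 0) (hx : (α : M) ∈ F.W 1)
    (hx' : ((α⁻¹ : Mˣ) : M) ∈ F.W 1) (k : ℤ) : ((α ^ k : Mˣ) : M) ∈ F.W |k| := by
  obtain ⟨n, rfl | rfl⟩ := k.eq_nat_or_neg
  · rw [zpow_natCast, Units.val_pow_eq_pow_val, Nat.abs_cast]
    exact F.pow h1 hx n
  · rw [_root_.zpow_neg, zpow_natCast, ← inv_pow, Units.val_pow_eq_pow_val, abs_neg, Nat.abs_cast]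
    exact F.pow h1 hx' n

theorem Filt.zpow_sub {α β : Mˣ} (h1 : (1 : M) ∈ F.W 0) (hx : (α : M) ∈ F.W 1)
    (hx' : ((α⁻¹ : Mˣ) : M) ∈ F.W 1) (hy : (β : M) ∈ F.W 1) (hy' : ((β⁻¹ : Mˣ) : M) ∈ F.W 1)
    (N : ℤ) (hxy : (α : M) - (β : M) ∈ F.W (-N)) (k : ℤ) :
    ((α ^ k : Mˣ) : M) - ((β ^ k : Mˣ) : M) ∈ F.W (|k| + 1 - N) := by
  obtain ⟨n, rfl | rfl⟩ := k.eq_nat_or_neg
  · rw [zpow_natCast, zpow_natCast, Units.val_pow_eq_pow_val, Units.val_pow_eq_pow_val,
      Nat.abs_cast]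
    cases n with
    | zero => simp
    | succ n =>
      refine F.mono ?_ (F.pow_sub h1 hx hy (-N) hxy n)
      push_cast; linarith
  · rw [_root_.zpow_neg, _root_.zpow_neg, zpow_natCast, zpow_natCast, ← inv_pow, ← inv_pow,
      Units.val_pow_eq_pow_val, Units.val_pow_eq_pow_val, abs_neg, Nat.abs_cast]
    have h2 : ((α⁻¹ : Mˣ) : M) - ((β⁻¹ : Mˣ) : M) ∈ F.W (2 - N) := by
      have e : ((α⁻¹ : Mˣ) : M) - ((β⁻¹ : Mˣ) : M) =
          -(((α⁻¹ : Mˣ) : M) * ((α : M) - (β : M)) * ((β⁻¹ : Mˣ) : M)) := by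
        rw [mul_sub, sub_mul, Units.inv_mul, one_mul, mul_assoc, Units.mul_inv, mul_one, neg_sub]
      rw [e]
      refine (F.W _).neg_mem ?_
      have := F.mul (F.mul hx' hxy) hy'
      refine F.mono (le_of_eq ?_) this
      ring
    cases n with
    | zero => simp
    | succ n =>
      refine F.mono ?_ (F.pow_sub h1 hx' hy' (2 - N) h2 n)
      push_cast; linarith

theorem theta_mem (f : A →+* M) (hf : ∀ a, f a ∈ F.W 0) {α : Mˣ}
    (h : ∀ a, Commute (f a) (α : M)) (hx : (α : M) ∈ F.W 1) (hx' : ((α⁻¹ : Mˣ) : M) ∈ F.W 1)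
    (d : ℕ) (x : LaurentPolynomial A) (hd : ∀ k, x.coeff k ≠ 0 → |k| ≤ d) :
    theta f α h x ∈ F.W d := by
  have h1 : (1 : M) ∈ F.W 0 := by rw [← map_one f]; exact hf 1
  rw [theta_apply]
  refine (F.W _).sum_mem fun k hk => ?_
  have h2 := F.mul (hf (x.coeff k)) (F.zpow h1 hx hx' k)
  refine F.mono ?_ h2
  rw [zero_add]
  exact hd k (Finsupp.mem_support_iff.1 hk)

theorem theta_sub_mem (f : A →+* M) (hf : ∀ a, f a ∈ F.W 0) {α β : Mˣ}
    (hα : ∀ a, Commute (f a) (α : M)) (hβ : ∀ a, Commute (f a) (β : M))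
    (hx : (α : M) ∈ F.W 1) (hx' : ((α⁻¹ : Mˣ) : M) ∈ F.W 1) (hy : (β : M) ∈ F.W 1)
    (hy' : ((β⁻¹ : Mˣ) : M) ∈ F.W 1) (N : ℤ) (hxy : (α : M) - (β : M) ∈ F.W (-N))
    (d : ℕ) (x : LaurentPolynomial A) (hd : ∀ k, x.coeff k ≠ 0 → |k| ≤ d) :
    theta f α hα x - theta f β hβ x ∈ F.W (d + 1 - N) := by
  have h1 : (1 : M) ∈ F.W 0 := by rw [← map_one f]; exact hf 1
  rw [theta_apply, theta_apply, ← Finset.sum_sub_distrib]
  refine (F.W _).sum_mem fun k hk => ?_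
  rw [← mul_sub]
  have h2 := F.mul (hf (x.coeff k)) (F.zpow_sub h1 hx hx' hy hy' N hxy k)
  refine F.mono ?_ h2
  have := hd k (Finsupp.mem_support_iff.1 hk)
  linarith

end

section

variable {A : Type u} [Ring A] {M : Type u} [Ring M] {M₀ : Type u} [Ring M₀] (F : Filt M)

/-- Two close units give the same class modulo the image of `K₀(M₀)`. -/
theorem theta_close (j : M₀ →+* M) (hj : Function.Injective j)
    (hW : ∀ x ∈ F.W 0, ∃ y, j y = x) (f : A →+* M) (hf : ∀ a, f a ∈ F.W 0) {α β : Mˣ}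
    (hα : ∀ a, Commute (f a) (α : M)) (hβ : ∀ a, Commute (f a) (β : M))
    (hx : (α : M) ∈ F.W 1) (hx' : ((α⁻¹ : Mˣ) : M) ∈ F.W 1) (hy : (β : M) ∈ F.W 1)
    (hy' : ((β⁻¹ : Mˣ) : M) ∈ F.W 1) (N : ℤ) (hxy : (α : M) - (β : M) ∈ F.W (-N))
    (p : Idem (LaurentPolynomial A)) (d : ℕ) (hd : ∀ i j k, (p.e i j).coeff k ≠ 0 → |k| ≤ d)
    (hN : 3 * (d : ℤ) + 1 ≤ N) :
    K0.map (theta f α hα) (K0.cls p) - K0.map (theta f β hβ) (K0.cls p) ∈ (K0.map j).range := by
  let a : Matrix (Fin p.n) (Fin p.n) M := p.e.map (theta f α hα)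
  let b : Matrix (Fin p.n) (Fin p.n) M := p.e.map (theta f β hβ)
  have ha : a * a = a := by
    show p.e.map _ * p.e.map _ = p.e.map _
    rw [← Matrix.map_mul, p.idem]
  have hb : b * b = b := by
    show p.e.map _ * p.e.map _ = p.e.map _
    rw [← Matrix.map_mul, p.idem]
  have hd0 : (0 : ℤ) ≤ d := Int.natCast_nonneg d
  have hb1 : ∀ x y, b x y ∈ F.W d := fun x y => theta_mem F f hf hβ hy hy' d _ (hd x y)
  have hab : ∀ x y, (a - b) x y ∈ F.W (d + 1 - N) := fun x y =>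
    theta_sub_mem F f hf hα hβ hx hx' hy hy' N hxy d _ (hd x y)
  have hmul : ∀ (r s : ℤ) (X Y : Matrix (Fin p.n) (Fin p.n) M), (∀ x y, X x y ∈ F.W r) →
      (∀ x y, Y x y ∈ F.W s) → ∀ x y, (X * Y) x y ∈ F.W (r + s) := by
    intro r s X Y hX hY x y
    rw [Matrix.mul_apply]
    exact (F.W _).sum_mem fun z _ => F.mul (hX x z) (hY z y)
  have hent : ∀ (r : ℤ) (X : Matrix (Fin p.n) (Fin p.n) M), r ≤ 0 → (∀ x y, X x y ∈ F.W r) →
      EntIn j X := by
    intro r X hr hX x y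
    exact hW _ (F.mono hr (hX x y))
  have e1 := cls_eq_of_equiv (toIdem_self_equiv (p.map (theta f α hα)))
  have e2 := cls_eq_of_equiv (toIdem_self_equiv (p.map (theta f β hβ)))
  rw [K0.map_cls, K0.map_cls, ← e1, ← e2]
  refine close j hj ha hb ?_ ?_ ?_ ?_
  · exact hent _ _ (by linarith) hab
  · exact hent _ _ (by linarith) (hmul _ _ _ _ hb1 hab)
  · exact hent _ _ (by linarith) (hmul _ _ _ _ hab hb1)
  · exact hent _ _ (by linarith) (hmul _ _ _ _ (hmul _ _ _ _ hb1 hab) hb1)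

end

end Pool.Agent.NegK
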