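import Pool.Agent.Lib.MP_28303a_al.NK.Wts2
import Pool.Agent.Lib.MP_28303a_al.NK.Lin

/-! # The transfers -/

set_option autoImplicit false

namespace Pool.Agent.NegK

universe u v w

open Matrix

section

variable {A : Type u} [Ring A]

theorem pos_range (x : LaurentPolynomial A) (h : ∀ l, x.coeff l ≠ 0 → 0 ≤ l) :
    ∃ q, posMap A q = x := by
  have h1 : x ∈ (posMap A).range := by
    rw [← AddMonoidAlgebra.sum_coeff_single x, Finsupp.sum]
    refine Subring.sum_mem _ fun l hl => ?_
    obtain ⟨n, rfl⟩ := Int.eq_ofNat_of_zero_le (h l (Finsupp.mem_support_iff.1 hl))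
    refine ⟨Polynomial.monomial n (x.coeff n), ?_⟩
    show Polynomial.toLaurent _ = _
    rw [← Polynomial.C_mul_X_pow_eq_monomial, Polynomial.toLaurent_C_mul_X_pow]
    rw [← LaurentPolynomial.single_eq_C_mul_T]
  exact h1

theorem invMap_single (k : ℤ) (a : A) : invMap A (AddMonoidAlgebra.single k a) =
    AddMonoidAlgebra.single (-k) a := by
  show AddMonoidAlgebra.mapDomain (⇑(-AddMonoidHom.id ℤ)) (AddMonoidAlgebra.single k a) = _
  rw [AddMonoidAlgebra.mapDomain_single]
  rfl

theorem neg_range (x : LaurentPolynomial A) (h : ∀ l, x.coeff l ≠ 0 → l ≤ 0) :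
    ∃ q, negMap A q = x := by
  have h1 : x ∈ (negMap A).range := by
    rw [← AddMonoidAlgebra.sum_coeff_single x, Finsupp.sum]
    refine Subring.sum_mem _ fun l hl => ?_
    have h2 := h l (Finsupp.mem_support_iff.1 hl)
    obtain ⟨n, hn⟩ := Int.eq_ofNat_of_zero_le (show 0 ≤ -l by linarith)
    have hl : l = -(n : ℤ) := by
      have : -l = (n : ℤ) := hn
      linarith
    subst hl
    refine ⟨Polynomial.monomial n (x.coeff (-(n : ℤ))), ?_⟩
    show invMap A (Polynomial.toLaurent _) = _
    rw [← Polynomial.C_mul_X_pow_eq_monomial, Polynomial.toLaurent_C_mul_X_pow,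
      ← LaurentPolynomial.single_eq_C_mul_T, invMap_single]
  exact h1

theorem posMap_injective : Function.Injective (posMap A) := Polynomial.toLaurent_injective

theorem invMap_invMap (x : LaurentPolynomial A) : invMap A (invMap A x) = x := by
  have h : (invMap A).comp (invMap A) = RingHom.id _ := by
    refine laurent_ext (fun a => ?_) (fun n => ?_)
    · rw [RingHom.comp_apply, invMap_C, invMap_C]; rfl
    · rw [RingHom.comp_apply, invMap_T, invMap_T, neg_neg]; rfl
  exact RingHom.congr_fun h x

theorem negMap_injective : Function.Injective (negMap A) := by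
  intro x y h
  have h1 := congrArg (invMap A) h
  change invMap A (invMap A _) = invMap A (invMap A _) at h1
  rw [invMap_invMap, invMap_invMap] at h1
  exact posMap_injective h1

theorem posMap_coeff (q : Polynomial A) {l : ℤ} (h : (posMap A q).coeff l ≠ 0) :
    0 ≤ l ∧ l ≤ q.natDegree := by
  have h1 : posMap A q = ∑ n ∈ q.support, AddMonoidAlgebra.single (n : ℤ) (q.coeff n) := by
    conv_lhs => rw [q.as_sum_support]
    rw [map_sum]
    refine Finset.sum_congr rfl fun n _ => ?_
    show Polynomial.toLaurent _ = _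
    rw [← Polynomial.C_mul_X_pow_eq_monomial, Polynomial.toLaurent_C_mul_X_pow,
      ← LaurentPolynomial.single_eq_C_mul_T]
  rw [h1, AddMonoidAlgebra.coeff_sum, Finsupp.finsetSum_apply] at h
  obtain ⟨n, hn, h2⟩ := Finset.exists_ne_zero_of_sum_ne_zero h
  rw [AddMonoidAlgebra.coeff_single] at h2
  have h3 : l = n := by
    by_contra hc
    exact h2 (Finsupp.single_eq_of_ne hc)
  subst h3
  exact ⟨Int.natCast_nonneg n, by exact_mod_cast Polynomial.le_natDegree_of_mem_supp n hn⟩

theorem negMap_coeff (q : Polynomial A) {l : ℤ} (h : (negMap A q).coeff l ≠ 0) :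
    l ≤ 0 ∧ -(q.natDegree : ℤ) ≤ l := by
  have h1 : (invMap A (posMap A q)).coeff l = (posMap A q).coeff (-l) := by
    have h2 : ∀ x : LaurentPolynomial A, (invMap A x).coeff l = x.coeff (-l) := by
      intro x
      induction x using AddMonoidAlgebra.induction_linear with
      | zero => rw [map_zero]; rfl
      | add x y hx hy =>
        rw [map_add, AddMonoidAlgebra.coeff_add, Finsupp.add_apply, hx, hy]
        rfl
      | single k a =>
        rw [invMap_single, AddMonoidAlgebra.coeff_single, AddMonoidAlgebra.coeff_single]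
        by_cases hk : k = -l
        · rw [hk, neg_neg, Finsupp.single_eq_same, Finsupp.single_eq_same]
        · rw [Finsupp.single_eq_of_ne, Finsupp.single_eq_of_ne]
          · exact fun hc => hk hc.symm
          · exact fun hc => hk (by rw [hc]; ring)
    exact h2 _
  have h2 : (posMap A q).coeff (-l) ≠ 0 := by
    rw [← h1]; exact h
  have := posMap_coeff q h2
  omega

theorem map_eq_of_conj {L M : Type u} [Ring L] [Ring M] (f g : L →+* M) (U V : M)
    (hVU : V * U = 1) (h : ∀ x, g x = U * f x * V) : K0.map g = K0.map f := by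
  refine K0.hom_ext fun p => ?_
  rw [K0.map_cls, K0.map_cls, ← mcls_self (p.map g), ← mcls_self (p.map f)]
  have h1 : ((Matrix.diagonal fun _ => V) : Matrix (Fin p.n) (Fin p.n) M) *
      (Matrix.diagonal fun _ => U) = 1 := by
    rw [Matrix.diagonal_mul_diagonal, hVU]
    exact Matrix.diagonal_one
  have h2 : ((Matrix.diagonal fun _ => U) : Matrix (Fin p.n) (Fin p.n) M) * p.e.map f *
      (Matrix.diagonal fun _ => V) = p.e.map g := by
    ext1 i j
    rw [Matrix.mul_diagonal, Matrix.diagonal_mul]
    exact (h (p.e i j)).symm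
  exact (mcls_conj (ι := Fin p.n) (e := p.e.map f) (f := p.e.map g) (p.map f).idem
    (p.map g).idem _ _ h1 h2).symm

theorem theta_conj {M : Type v} [Ring M] (f : A →+* M) (α β V : Mˣ)
    (hα : ∀ a, Commute (f a) (α : M)) (hβ : ∀ a, Commute (f a) (β : M))
    (hV : ∀ a, Commute (f a) (V : M)) (h : β = V⁻¹ * α * V) (x : LaurentPolynomial A) :
    theta f β hβ x = ((V⁻¹ : Mˣ) : M) * theta f α hα x * (V : M) := by
  subst h
  induction x using AddMonoidAlgebra.induction_linear with
  | zero => rw [map_zero, map_zero, mul_zero, zero_mul]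
  | add x y hx hy => rw [map_add, map_add, hx, hy, mul_add, add_mul]
  | single n a =>
    rw [theta_single, theta_single]
    have e2 : (V⁻¹ * α * V) ^ n = V⁻¹ * α ^ n * V := by
      have := conj_zpow (i := n) (a := V⁻¹) (b := α)
      rw [inv_inv] at this
      exact this
    rw [e2, Units.val_mul, Units.val_mul]
    have e3 : f a * ((V⁻¹ : Mˣ) : M) = ((V⁻¹ : Mˣ) : M) * f a :=
      ((hV a).units_inv_right).eq
    rw [← mul_assoc, ← mul_assoc, e3, ← mul_assoc]

/-- Conjugate units have the same transfer. -/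
theorem Tr_conj {ι : Type} [Fintype ι] [DecidableEq ι] (α V : (Matrix ι ι Lz)ˣ)
    (z : K0 (LaurentPolynomial A)) : Tr A (V⁻¹ * α * V) z = Tr A α z := by
  have h2 : (K0.map (Th A (V⁻¹ * α * V))) = K0.map (Th A α) := by
    refine map_eq_of_conj (Th A α) (Th A (V⁻¹ * α * V)) _ _ (Units.mul_inv (zu A V)) fun x => ?_
    exact theta_conj (sc ι A) (zu A α) (zu A (V⁻¹ * α * V)) (zu A V) (zu_comm A α)
      (zu_comm A _) (zu_comm A V) (by
        unfold zu
        rw [map_mul, map_mul, map_inv]) x
  rw [Tr_apply, Tr_apply, h2]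

end

end Pool.Agent.NegK
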