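import Pool.Agent.Lib.MP_28303a_al.NK.TrLem
import Pool.Agent.Lib.MP_28303a_al.NK.Iface2

/-! # The transfer `T_n` is the identity on `K_{-1}` and constant on polynomials; INJ -/

set_option autoImplicit false

namespace Pool.Agent.NegK

universe u v w

open Matrix

section

variable {A : Type u} [Ring A]

theorem Tr_cls {ι : Type} [Fintype ι] [DecidableEq ι] (α : (Matrix ι ι Lz)ˣ)
    (p : Idem (LaurentPolynomial A)) :
    Tr A α (K0.cls p) = fcls (p.e.map (Th A α)) (p.map (Th A α)).idem := by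
  rw [Tr_apply, K0.map_cls, K0.flat_cls]
  rfl

/-! ## The block triangular case -/

/-- `M` is block triangular with blocks `c`, `y`. -/
def Bl {ι : Type} {L : Type v} [Ring L] (M : Matrix (ι ⊕ Unit) (ι ⊕ Unit) L)
    (c : Matrix ι ι L) (y : L) : Prop :=
  (∀ i j, M (Sum.inl i) (Sum.inl j) = c i j) ∧ (∀ i, M (Sum.inl i) (Sum.inr ()) = 0) ∧
    M (Sum.inr ()) (Sum.inr ()) = y

theorem Bl.add {ι : Type} {L : Type v} [Ring L] {M M' : Matrix (ι ⊕ Unit) (ι ⊕ Unit) L}
    {c c' : Matrix ι ι L} {y y' : L} (h : Bl M c y) (h' : Bl M' c' y') :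
    Bl (M + M') (c + c') (y + y') := by
  refine ⟨fun i j => ?_, fun i => ?_, ?_⟩
  · rw [Matrix.add_apply, h.1, h'.1]; rfl
  · rw [Matrix.add_apply, h.2.1, h'.2.1, add_zero]
  · rw [Matrix.add_apply, h.2.2, h'.2.2]

theorem Bl.mul {ι : Type} [Fintype ι] {L : Type v} [Ring L]
    {M M' : Matrix (ι ⊕ Unit) (ι ⊕ Unit) L}
    {c c' : Matrix ι ι L} {y y' : L} (h : Bl M c y) (h' : Bl M' c' y') :
    Bl (M * M') (c * c') (y * y') := by
  refine ⟨fun i j => ?_, fun i => ?_, ?_⟩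
  · rw [Matrix.mul_apply, Fintype.sum_sum_type, Matrix.mul_apply]
    simp [h.1, h'.1, h.2.1]
  · rw [Matrix.mul_apply, Fintype.sum_sum_type]
    simp [h'.2.1, h.2.1]
  · rw [Matrix.mul_apply, Fintype.sum_sum_type]
    simp [h'.2.1, h.2.2, h'.2.2]

theorem Bl.one {ι : Type} [DecidableEq ι] {L : Type v} [Ring L] :
    Bl (1 : Matrix (ι ⊕ Unit) (ι ⊕ Unit) L) (1 : Matrix ι ι L) 1 := by
  refine ⟨fun i j => ?_, fun i => ?_, ?_⟩
  · rw [Matrix.one_apply, Matrix.one_apply]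
    simp
  · rw [Matrix.one_apply]
    simp
  · rw [Matrix.one_apply]
    simp

theorem Bl.pow {ι : Type} [Fintype ι] [DecidableEq ι] {L : Type v} [Ring L]
    {M : Matrix (ι ⊕ Unit) (ι ⊕ Unit) L} {c : Matrix ι ι L} {y : L} (h : Bl M c y) (n : ℕ) :
    Bl (M ^ n) (c ^ n) (y ^ n) := by
  induction n with
  | zero => rw [pow_zero, pow_zero, pow_zero]; exact Bl.one
  | succ n ih => rw [pow_succ, pow_succ, pow_succ]; exact ih.mul h

theorem bl_u2 (k : ℕ) : Bl (u2 k : Matrix (Ix k) (Ix k) Lz)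
    (uc k : Matrix (Fin (k + 2)) (Fin (k + 2)) Lz) (tt 1) := by
  refine ⟨fun i j => ?_, fun i => ?_, ?_⟩
  · show LinearMap.toMatrix' (f2 k) (Sum.inl i) (Sum.inl j) = LinearMap.toMatrix' (fc k) i j
    rw [toMat_apply, toMat_apply]
    show fc k (fun i => dl (Sum.inl j) (Sum.inl i)) i = fc k (dl j) i
    have : (fun i : Fin (k + 2) => (dl (Sum.inl j : Ix k) (Sum.inl i) : Lz)) = dl j := by
      funext i
      unfold dl
      simp
    rw [this]
  · show LinearMap.toMatrix' (f2 k) (Sum.inl i) (Sum.inr ()) = 0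
    rw [toMat_apply]
    show fc k (fun i => dl (Sum.inr ()) (Sum.inl i)) i = 0
    have : (fun i : Fin (k + 2) => (dl (Sum.inr () : Ix k) (Sum.inl i) : Lz)) = 0 := by
      funext i
      unfold dl
      simp
    rw [this, map_zero]
    rfl
  · show LinearMap.toMatrix' (f2 k) (Sum.inr ()) (Sum.inr ()) = tt 1
    rw [toMat_apply]
    show dl (Sum.inr ()) (Sum.inl (-1)) + tt 1 * dl (Sum.inr ()) (Sum.inr ()) = tt 1
    unfold dl
    simp

theorem bl_u2_inv (k : ℕ) : Bl (((u2 k)⁻¹ : _ˣ) : Matrix (Ix k) (Ix k) Lz)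
    (((uc k)⁻¹ : _ˣ) : Matrix (Fin (k + 2)) (Fin (k + 2)) Lz) (tt (-1)) := by
  refine ⟨fun i j => ?_, fun i => ?_, ?_⟩
  · show LinearMap.toMatrix' (g2 k) (Sum.inl i) (Sum.inl j) = LinearMap.toMatrix' (gc k) i j
    rw [toMat_apply, toMat_apply]
    show gc k (fun i => dl (Sum.inl j) (Sum.inl i)) i = gc k (dl j) i
    have : (fun i : Fin (k + 2) => (dl (Sum.inl j : Ix k) (Sum.inl i) : Lz)) = dl j := by
      funext i
      unfold dl
      simp
    rw [this]
  · show LinearMap.toMatrix' (g2 k) (Sum.inl i) (Sum.inr ()) = 0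
    rw [toMat_apply]
    show gc k (fun i => dl (Sum.inr ()) (Sum.inl i)) i = 0
    have : (fun i : Fin (k + 2) => (dl (Sum.inr () : Ix k) (Sum.inl i) : Lz)) = 0 := by
      funext i
      unfold dl
      simp
    rw [this, map_zero]
    rfl
  · show LinearMap.toMatrix' (g2 k) (Sum.inr ()) (Sum.inr ()) = tt (-1)
    rw [toMat_apply]
    show tt (-1) * (dl (Sum.inr ()) (Sum.inr ()) + dl (Sum.inr ()) (Sum.inl 0)) = tt (-1)
    unfold dl
    simp

theorem bl_map {ι : Type} {L : Type v} [Ring L] {M : Matrix (ι ⊕ Unit) (ι ⊕ Unit) Lz}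
    {c : Matrix ι ι Lz} {y : Lz} (h : Bl M c y) (f : Lz →+* L) :
    Bl (M.map f) (c.map f) (f y) := by
  refine ⟨fun i j => ?_, fun i => ?_, ?_⟩
  · rw [Matrix.map_apply, h.1]; rfl
  · rw [Matrix.map_apply, h.2.1, map_zero]
  · rw [Matrix.map_apply, h.2.2]

theorem zl_tt (A : Type u) [Ring A] (n : ℤ) : zl A (tt n) = LaurentPolynomial.T n := by
  show zl A (AddMonoidAlgebra.single n 1) = AddMonoidAlgebra.single n 1
  rw [zl_single, Int.cast_one]

theorem bl_zpow (k : ℕ) (A : Type u) [Ring A] (n : ℤ) :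
    Bl ((zu A (u2 k) ^ n : _ˣ) : Matrix (Ix k) (Ix k) (LaurentPolynomial A))
      ((zu A (uc k) ^ n : _ˣ) : Matrix (Fin (k + 2)) (Fin (k + 2)) (LaurentPolynomial A))
      (LaurentPolynomial.T n) := by
  have h1 := bl_map (bl_u2 k) (zl A)
  have h2 := bl_map (bl_u2_inv k) (zl A)
  rw [zl_tt] at h1 h2
  obtain ⟨m, rfl | rfl⟩ := n.eq_nat_or_neg
  · have h3 := h1.pow m
    rw [LaurentPolynomial.T_pow, mul_one] at h3
    rw [zpow_natCast, zpow_natCast, Units.val_pow_eq_pow_val, Units.val_pow_eq_pow_val]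
    exact h3
  · have h3 := h2.pow m
    rw [LaurentPolynomial.T_pow, mul_neg_one] at h3
    rw [_root_.zpow_neg, _root_.zpow_neg, zpow_natCast, zpow_natCast, ← inv_pow, ← inv_pow,
      Units.val_pow_eq_pow_val, Units.val_pow_eq_pow_val]
    exact h3

theorem bl_sc {ι : Type} [Fintype ι] [DecidableEq ι] (a : A) :
    Bl (sc (ι ⊕ Unit) A a) (sc ι A a) (LaurentPolynomial.C a) := by
  rw [sc_apply, sc_apply]
  refine ⟨fun i j => ?_, fun i => ?_, ?_⟩
  · rw [Matrix.diagonal_apply, Matrix.diagonal_apply]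
    simp
  · rw [Matrix.diagonal_apply]
    simp
  · rw [Matrix.diagonal_apply]
    simp

theorem bl_Th (k : ℕ) (x : LaurentPolynomial A) :
    Bl (Th A (u2 k) x) (Th A (uc k) x) x := by
  induction x using AddMonoidAlgebra.induction_linear with
  | zero =>
    rw [map_zero, map_zero]
    exact ⟨fun _ _ => rfl, fun _ => rfl, rfl⟩
  | add x y hx hy =>
    rw [map_add, map_add]
    exact hx.add hy
  | single n a =>
    unfold Th
    rw [theta_single, theta_single]
    have h1 := (bl_sc (ι := Fin (k + 2)) a).mul (bl_zpow k A n)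
    rw [← LaurentPolynomial.single_eq_C_mul_T] at h1
    exact h1

theorem Tr_u2 (k : ℕ) (p : Idem (LaurentPolynomial A)) :
    Tr A (u2 k) (K0.cls p) = Tr A (uc k) (K0.cls p) + K0.cls p := by
  rw [Tr_cls, Tr_cls]
  let e1 : Matrix (Fin p.n × Fin (k + 2)) (Fin p.n × Fin (k + 2)) (LaurentPolynomial A) :=
    Matrix.comp _ _ _ _ _ (p.e.map (Th A (uc k)))
  let e2 : Matrix (Fin p.n × Ix k) (Fin p.n × Ix k) (LaurentPolynomial A) :=
    Matrix.comp _ _ _ _ _ (p.e.map (Th A (u2 k)))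
  let Y : Matrix (Fin p.n) (Fin p.n × Fin (k + 2)) (LaurentPolynomial A) :=
    Matrix.of fun i j => e2 (i, Sum.inr ()) (j.1, Sum.inl j.2)
  let σ : Fin p.n × Ix k ≃ (Fin p.n × Fin (k + 2)) ⊕ Fin p.n :=
    (Equiv.prodSumDistrib _ _ _).trans (Equiv.sumCongr (Equiv.refl _) (Equiv.prodPUnit _))
  have he1 : e1 * e1 = e1 := by
    show Matrix.comp _ _ _ _ _ _ * Matrix.comp _ _ _ _ _ _ = Matrix.comp _ _ _ _ _ _
    rw [← comp_mul, ← Matrix.map_mul, p.idem]
  have he2 : e2 * e2 = e2 := by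
    show Matrix.comp _ _ _ _ _ _ * Matrix.comp _ _ _ _ _ _ = Matrix.comp _ _ _ _ _ _
    rw [← comp_mul, ← Matrix.map_mul, p.idem]
  have hσ : ∀ i j, (fromBlocks e1 0 Y p.e) (σ i) (σ j) = e2 i j := by
    rintro ⟨i, i' | i'⟩ ⟨j, j' | j'⟩
    · exact ((bl_Th k (p.e i j)).1 i' j').symm
    · exact ((bl_Th k (p.e i j)).2.1 i').symm
    · rfl
    · exact ((bl_Th k (p.e i j)).2.2).symm
  have hT : fromBlocks e1 0 Y p.e * fromBlocks e1 0 Y p.e = fromBlocks e1 0 Y p.e := by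
    have h1 : (fromBlocks e1 0 Y p.e) = e2.submatrix σ.symm σ.symm := by
      ext i j
      rw [Matrix.submatrix_apply, ← hσ, Equiv.apply_symm_apply, Equiv.apply_symm_apply]
    rw [h1]
    rw [Matrix.submatrix_mul_equiv, he2]
  have h1 : mcls e2 he2 = mcls (fromBlocks e1 0 Y p.e) hT := mcls_reindex σ he2 hT hσ
  have h2 := mcls_triangular hT he1 p.idem
  rw [mcls_self] at h2
  exact h1.trans h2

/-! ## The two sides -/

theorem Tr_uc_mem (k : ℕ) (p : Idem (LaurentPolynomial A)) :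
    Tr A (uc k) (K0.cls p) ∈ (K0.map (posMap A)).range := by
  rw [Tr_cls]
  refine mcls_mem_range (posMap A) posMap_injective _ ?_
  rintro ⟨i, i'⟩ ⟨j, j'⟩
  refine pos_range _ fun l hl => ?_
  have h1 : Th A (uc k) (p.e i j) ∈ (wFilt A (fun _ : Fin (k + 2) => (0 : ℤ)) (-1)).W 0 := by
    let F := wFilt A (fun _ : Fin (k + 2) => (0 : ℤ)) (-1)
    have hu := zu_val_mem A (fun _ : Fin (k + 2) => (0 : ℤ)) (-1) 0 (uc_mem k)
    have hu' := zu_val_mem A (fun _ : Fin (k + 2) => (0 : ℤ)) (-1) 0 (uc_inv_mem k)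
    have hone : (1 : Matrix (Fin (k + 2)) (Fin (k + 2)) (LaurentPolynomial A)) ∈ F.W 0 := by
      rw [← map_one (sc (Fin (k + 2)) A)]
      exact sc_mem _ _ 1
    have hpow : ∀ (x : Matrix (Fin (k + 2)) (Fin (k + 2)) (LaurentPolynomial A)),
        x ∈ F.W 0 → ∀ n : ℕ, x ^ n ∈ F.W 0 := by
      intro x hx n
      induction n with
      | zero => rw [pow_zero]; exact hone
      | succ n ih =>
        rw [pow_succ]
        have := F.mul ih hx
        rwa [add_zero] at this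
    have hz : ∀ n : ℤ, ((zu A (uc k) ^ n : _ˣ) :
        Matrix (Fin (k + 2)) (Fin (k + 2)) (LaurentPolynomial A)) ∈ F.W 0 := by
      intro n
      obtain ⟨m, rfl | rfl⟩ := n.eq_nat_or_neg
      · rw [zpow_natCast, Units.val_pow_eq_pow_val]
        exact hpow _ hu m
      · rw [_root_.zpow_neg, zpow_natCast, ← inv_pow, Units.val_pow_eq_pow_val]
        exact hpow _ hu' m
    unfold Th
    rw [theta_apply]
    refine (F.W 0).sum_mem fun n _ => ?_
    have := F.mul (sc_mem (fun _ : Fin (k + 2) => (0 : ℤ)) (-1) ((p.e i j).coeff n)) (hz n)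
    rwa [add_zero] at this
  have h2 := h1 i' j' l hl
  linarith

theorem wFilt_zero_neg (k : ℕ) (x : Matrix (Ix k) (Ix k) (LaurentPolynomial A))
    (hx : x ∈ (wFilt A (wi k) ((k : ℤ) + 3)).W 0) : EntIn (negMap A) x := by
  intro i j
  refine neg_range _ fun l hl => ?_
  have h1 := hx i j l hl
  have hb : ∀ i : Ix k, 0 ≤ wi k i ∧ wi k i ≤ (k : ℤ) + 2 := by
    intro i
    rcases i with i | i
    · have := val_le k i
      exact ⟨Int.natCast_nonneg _, by show (i.val : ℤ) ≤ _; linarith⟩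
    · exact ⟨by show (0 : ℤ) ≤ (k : ℤ) + 2; have := Int.natCast_nonneg k; linarith, le_rfl⟩
  have h2 := hb i
  have h3 := hb j
  by_contra hc
  have hc' : 1 ≤ l := by omega
  have hk := Int.natCast_nonneg k
  nlinarith

theorem wFilt_zero_pos {ι : Type} [Fintype ι] [DecidableEq ι]
    (x : Matrix ι ι (LaurentPolynomial A))
    (hx : x ∈ (wFilt A (fun _ : ι => (0 : ℤ)) (-1)).W 0) : EntIn (posMap A) x := by
  intro i j
  refine pos_range _ fun l hl => ?_
  have h1 := hx i j l hl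
  linarith

/-- The transfer is the identity modulo polynomials. -/
theorem Tr_u0_sub (k : ℕ) (p : Idem (LaurentPolynomial A)) (d : ℕ)
    (hd : ∀ i j l, (p.e i j).coeff l ≠ 0 → |l| ≤ d) (hk : 3 * d ≤ k) :
    Tr A (u0 k) (K0.cls p) - K0.cls p ∈ K0Fun.polySub A := by
  have hk' : 3 * (d : ℤ) ≤ k := by exact_mod_cast hk
  have h1 := Tr_close (A := A) (negMap A) negMap_injective (wi k) ((k : ℤ) + 3)
    (fun x hx => wFilt_zero_neg k x hx) (u0_mem k) (u0_inv_mem k) (u1_mem k) (u1_inv_mem k)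
    ((k : ℤ) + 1) (u01_mem k) p d hd (by linarith)
  have h2 := Tr_close (A := A) (posMap A) posMap_injective (fun _ : Ix k => (0 : ℤ)) (-1)
    (fun x hx => wFilt_zero_pos x hx) (u1'_mem k) (u1'_inv_mem k) (u2_mem k) (u2_inv_mem k)
    ((k : ℤ) + 2) (u12_mem k) p d hd (by linarith)
  have h3 : Tr A (u1' k) (K0.cls p) = Tr A (u1 k) (K0.cls p) := Tr_conj _ _ _
  have h4 := Tr_u2 k p
  have h5 := Tr_uc_mem k p
  have h6 : Tr A (u0 k) (K0.cls p) - K0.cls p =
      (Tr A (u0 k) (K0.cls p) - Tr A (u1 k) (K0.cls p)) +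
      (Tr A (u1' k) (K0.cls p) - Tr A (u2 k) (K0.cls p)) + Tr A (uc k) (K0.cls p) := by
    rw [h3, h4]
    abel
  rw [h6]
  refine AddSubgroup.add_mem _ (AddSubgroup.add_mem _ ?_ ?_) ?_
  · exact AddSubgroup.mem_sup_right h1
  · exact AddSubgroup.mem_sup_left h2
  · exact AddSubgroup.mem_sup_left h5

end

end Pool.Agent.NegK
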