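import Pool.Agent.Lib.MP_28303a_al.NK.Theta
import Pool.Agent.Lib.MP_28303a_al.NK.Lift

/-! # Weight filtrations of `M_ι(A[s, s⁻¹])` -/

set_option autoImplicit false

namespace Pool.Agent.NegK

universe u v w

open Matrix

section

variable {A : Type u} [Ring A]

theorem coeff_mul_ne {x y : LaurentPolynomial A} {l : ℤ} (h : (x * y).coeff l ≠ 0) :
    ∃ a b, a + b = l ∧ x.coeff a ≠ 0 ∧ y.coeff b ≠ 0 := by
  classical
  by_contra hc
  push Not at hc
  apply h
  rw [AddMonoidAlgebra.coeff_mul]
  refine Finset.sum_eq_zero fun a ha => Finset.sum_eq_zero fun b hb => ?_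
  show (if a + b = l then x.coeff a * y.coeff b else 0) = 0
  rw [if_neg]
  intro hab
  exact (Finsupp.mem_support_iff.1 hb) (hc a b hab (Finsupp.mem_support_iff.1 ha))

/-- The filtration: entries at `(i, j)` have exponents `l` with `wt i - wt j + c * l ≤ r`. -/
def wFilt {ι : Type} [Fintype ι] [DecidableEq ι] (A : Type u) [Ring A] (wt : ι → ℤ) (c : ℤ) :
    Filt (Matrix ι ι (LaurentPolynomial A)) where
  W r :=
    { carrier := {M | ∀ i j l, (M i j).coeff l ≠ 0 → wt i - wt j + c * l ≤ r}
      zero_mem' := by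
        intro i j l h
        exact absurd rfl h
      add_mem' := by
        intro M N hM hN i j l h
        by_cases h1 : (M i j).coeff l = 0
        · by_cases h2 : (N i j).coeff l = 0
          · exfalso
            apply h
            show (M i j).coeff l + (N i j).coeff l = 0
            rw [h1, h2, add_zero]
          · exact hN i j l h2
        · exact hM i j l h1
      neg_mem' := by
        intro M hM i j l h
        refine hM i j l fun h1 => h ?_
        show -(M i j).coeff l = 0
        rw [h1, neg_zero] }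
  mono := by
    intro r s hrs M hM i j l h
    exact (hM i j l h).trans hrs
  mul := by
    intro r s M N hM hN i j l h
    rw [Matrix.mul_apply] at h
    have h1 : ∃ k, (M i k * N k j).coeff l ≠ 0 := by
      by_contra hc
      push Not at hc
      apply h
      rw [AddMonoidAlgebra.coeff_sum]
      rw [Finsupp.finsetSum_apply]
      exact Finset.sum_eq_zero fun k _ => hc k
    obtain ⟨k, hk⟩ := h1
    obtain ⟨a, b, hab, ha, hb⟩ := coeff_mul_ne hk
    have h2 := hM i k a ha
    have h3 := hN k j b hb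
    rw [← hab]
    nlinarith

theorem mem_wFilt {ι : Type} [Fintype ι] [DecidableEq ι] {wt : ι → ℤ} {c r : ℤ}
    {M : Matrix ι ι (LaurentPolynomial A)} :
    M ∈ (wFilt A wt c).W r ↔ ∀ i j l, (M i j).coeff l ≠ 0 → wt i - wt j + c * l ≤ r := Iff.rfl

/-- The scalar matrices. -/
noncomputable def sc (ι : Type) [Fintype ι] [DecidableEq ι] (A : Type u) [Ring A] :
    A →+* Matrix ι ι (LaurentPolynomial A) :=
  (Matrix.scalar ι).comp LaurentPolynomial.C

theorem sc_apply {ι : Type} [Fintype ι] [DecidableEq ι] (a : A) :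
    sc ι A a = Matrix.diagonal fun _ => LaurentPolynomial.C a := rfl

theorem sc_mem {ι : Type} [Fintype ι] [DecidableEq ι] (wt : ι → ℤ) (c : ℤ) (a : A) :
    sc ι A a ∈ (wFilt A wt c).W 0 := by
  intro i j l h
  rw [sc_apply] at h
  by_cases hij : i = j
  · subst hij
    rw [Matrix.diagonal_apply_eq] at h
    have h1 : l = 0 := by
      by_contra hl
      apply h
      show (AddMonoidAlgebra.single (0 : ℤ) a).coeff l = 0
      rw [AddMonoidAlgebra.coeff_single, Finsupp.single_eq_of_ne hl]
    subst h1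
    simp
  · rw [Matrix.diagonal_apply_ne _ hij] at h
    exact absurd rfl h

/-- The map `ℤ[s, s⁻¹] → A[s, s⁻¹]`. -/
noncomputable def zl (A : Type u) [Ring A] : LaurentPolynomial ℤ →+* LaurentPolynomial A :=
  AddMonoidAlgebra.mapRingHom ℤ (Int.castRingHom A)

theorem zl_single (A : Type u) [Ring A] (k z : ℤ) :
    zl A (AddMonoidAlgebra.single k z) = AddMonoidAlgebra.single k (z : A) := by
  unfold zl
  rw [AddMonoidAlgebra.mapRingHom_single]
  rfl

theorem zl_coeff (A : Type u) [Ring A] (x : LaurentPolynomial ℤ) (l : ℤ) :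
    (zl A x).coeff l = ((x.coeff l : ℤ) : A) := by
  unfold zl
  rw [AddMonoidAlgebra.coeff_mapRingHom]
  rfl

theorem zl_comm (A : Type u) [Ring A] (x : LaurentPolynomial ℤ) (a : A) :
    Commute (LaurentPolynomial.C a) (zl A x) := by
  induction x using AddMonoidAlgebra.induction_linear with
  | zero => rw [map_zero]; exact Commute.zero_right _
  | add x y hx hy => rw [map_add]; exact hx.add_right hy
  | single k z =>
    rw [zl_single]
    show AddMonoidAlgebra.single 0 a * AddMonoidAlgebra.single k (z : A) =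
      AddMonoidAlgebra.single k (z : A) * AddMonoidAlgebra.single 0 a
    rw [AddMonoidAlgebra.single_mul_single, AddMonoidAlgebra.single_mul_single, zero_add,
      add_zero, (Int.cast_commute z a).eq]

/-- A unit of `M_ι(ℤ[s, s⁻¹])` as a unit of `M_ι(A[s, s⁻¹])`. -/
noncomputable def zu {ι : Type} [Fintype ι] [DecidableEq ι] (A : Type u) [Ring A]
    (α : (Matrix ι ι (LaurentPolynomial ℤ))ˣ) : (Matrix ι ι (LaurentPolynomial A))ˣ :=
  Units.map (((zl A).mapMatrix : Matrix ι ι (LaurentPolynomial ℤ) →+*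
    Matrix ι ι (LaurentPolynomial A)) : Matrix ι ι (LaurentPolynomial ℤ) →*
    Matrix ι ι (LaurentPolynomial A)) α

theorem zu_comm {ι : Type} [Fintype ι] [DecidableEq ι] (A : Type u) [Ring A]
    (α : (Matrix ι ι (LaurentPolynomial ℤ))ˣ) (a : A) :
    Commute (sc ι A a) (zu A α : Matrix ι ι (LaurentPolynomial A)) := by
  show sc ι A a * (α : Matrix ι ι (LaurentPolynomial ℤ)).map (zl A) =
    (α : Matrix ι ι (LaurentPolynomial ℤ)).map (zl A) * sc ι A a
  rw [sc_apply]
  ext1 i j
  rw [Matrix.diagonal_mul, Matrix.mul_diagonal]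
  exact zl_comm A _ a

theorem zu_val_mem {ι : Type} [Fintype ι] [DecidableEq ι] (A : Type u) [Ring A] (wt : ι → ℤ)
    (c r : ℤ) {M : Matrix ι ι (LaurentPolynomial ℤ)} (h : M ∈ (wFilt ℤ wt c).W r) :
    M.map (zl A) ∈ (wFilt A wt c).W r := by
  intro i j l hl
  refine h i j l fun h1 => hl ?_
  show (zl A (M i j)).coeff l = 0
  rw [zl_coeff, h1, Int.cast_zero]

/-- The homomorphism `A[t, t⁻¹] → M_ι(A[s, s⁻¹])` which sends `t` to the unit `α`. -/
noncomputable def Th {ι : Type} [Fintype ι] [DecidableEq ι] (A : Type u) [Ring A]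
    (α : (Matrix ι ι (LaurentPolynomial ℤ))ˣ) :
    LaurentPolynomial A →+* Matrix ι ι (LaurentPolynomial A) :=
  theta (sc ι A) (zu A α) (zu_comm A α)

/-- The transfer `K₀(A[t, t⁻¹]) → K₀(A[s, s⁻¹])` of the unit `α`. -/
noncomputable def Tr {ι : Type} [Fintype ι] [DecidableEq ι] (A : Type u) [Ring A]
    (α : (Matrix ι ι (LaurentPolynomial ℤ))ˣ) :
    K0 (LaurentPolynomial A) →+ K0 (LaurentPolynomial A) :=
  (K0.flat ι (LaurentPolynomial A)).comp (K0.map (Th A α))

theorem Tr_apply {ι : Type} [Fintype ι] [DecidableEq ι] (A : Type u) [Ring A]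
    (α : (Matrix ι ι (LaurentPolynomial ℤ))ˣ) (z : K0 (LaurentPolynomial A)) :
    Tr A α z = K0.flat ι (LaurentPolynomial A) (K0.map (Th A α) z) := rfl

theorem mapMatrix_injective {ι : Type} [Fintype ι] [DecidableEq ι] {B : Type u} {L : Type v}
    [Ring B] [Ring L] (j : B →+* L) (hj : Function.Injective j) :
    Function.Injective (j.mapMatrix : Matrix ι ι B →+* Matrix ι ι L) :=
  Matrix.map_injective hj

/-- Close units give the same transfer modulo the image of `K₀(B)`. -/
theorem Tr_close {ι : Type} [Fintype ι] [DecidableEq ι] {B : Type u} [Ring B]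
    (j : B →+* LaurentPolynomial A) (hj : Function.Injective j) (wt : ι → ℤ) (c : ℤ)
    (hW : ∀ x ∈ (wFilt A wt c).W 0, EntIn j x)
    {α β : (Matrix ι ι (LaurentPolynomial ℤ))ˣ}
    (hx : (α : Matrix ι ι (LaurentPolynomial ℤ)) ∈ (wFilt ℤ wt c).W 1)
    (hx' : ((α⁻¹ : _ˣ) : Matrix ι ι (LaurentPolynomial ℤ)) ∈ (wFilt ℤ wt c).W 1)
    (hy : (β : Matrix ι ι (LaurentPolynomial ℤ)) ∈ (wFilt ℤ wt c).W 1)
    (hy' : ((β⁻¹ : _ˣ) : Matrix ι ι (LaurentPolynomial ℤ)) ∈ (wFilt ℤ wt c).W 1)
    (N : ℤ) (hxy : (α : Matrix ι ι (LaurentPolynomial ℤ)) - (β : Matrix ι ι _) ∈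
      (wFilt ℤ wt c).W (-N))
    (p : Idem (LaurentPolynomial A)) (d : ℕ) (hd : ∀ i j k, (p.e i j).coeff k ≠ 0 → |k| ≤ d)
    (hN : 3 * (d : ℤ) + 1 ≤ N) :
    Tr A α (K0.cls p) - Tr A β (K0.cls p) ∈ (K0.map j).range := by
  have h1 := theta_close (wFilt A wt c) (j.mapMatrix : Matrix ι ι B →+* _)
    (mapMatrix_injective j hj) (by
      intro x hx
      obtain ⟨N, hN⟩ := (hW x hx).exists_eq
      exact ⟨N, hN⟩) (sc ι A) (sc_mem wt c) (zu_comm A α) (zu_comm A β)
    (zu_val_mem A wt c 1 hx) (zu_val_mem A wt c 1 hx') (zu_val_mem A wt c 1 hy)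
    (zu_val_mem A wt c 1 hy') N (by
      have := zu_val_mem A wt c (-N) hxy
      rw [Matrix.map_sub _ (map_sub (zl A))] at this
      exact this) p d hd hN
  obtain ⟨z, hz⟩ := h1
  refine ⟨K0.flat ι B z, ?_⟩
  rw [← K0.flat_map, hz, map_sub]
  rfl

/-- Naturality of the transfer. -/
theorem Tr_map {ι : Type} [Fintype ι] [DecidableEq ι] {B : Type u} [Ring B] (f : A →+* B)
    (α : (Matrix ι ι (LaurentPolynomial ℤ))ˣ) (z : K0 (LaurentPolynomial A)) :
    Tr B α (K0.map (lmap f) z) = K0.map (lmap f) (Tr A α z) := by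
  have h : (Th B α).comp (lmap f) = ((lmap f).mapMatrix).comp (Th A α) := by
    refine laurent_ext (fun a => ?_) (fun n => ?_)
    · rw [RingHom.comp_apply, RingHom.comp_apply, lmap_C]
      unfold Th
      rw [theta_C, theta_C, sc_apply, sc_apply]
      show _ = (Matrix.diagonal fun _ => LaurentPolynomial.C a).map (lmap f)
      rw [Matrix.diagonal_map (map_zero _)]
      simp only [lmap_C]
    · rw [RingHom.comp_apply, RingHom.comp_apply, lmap_T]
      unfold Th
      rw [theta_T, theta_T]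
      have e1 : ∀ (C : Type u) [Ring C], ((zu C α ^ n : _ˣ) : Matrix ι ι (LaurentPolynomial C)) =
          ((α ^ n : _ˣ) : Matrix ι ι (LaurentPolynomial ℤ)).map (zl C) := by
        intro C _
        unfold zu
        rw [← map_zpow]
        rfl
      rw [e1, e1]
      ext1 i j
      show zl B _ = lmap f (zl A _)
      have e2 : (lmap f).comp (zl A) = zl B := by
        unfold lmap zl
        rw [← AddMonoidAlgebra.mapRingHom_comp]
        congr 1
        ext z
        simp
      rw [← e2]; rfl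
  rw [Tr_apply, Tr_apply, ← K0.flat_map]
  congr 1
  have h1 : (K0.map (Th B α)).comp (K0.map (lmap f)) =
      (K0.map (lmap f).mapMatrix).comp (K0.map (Th A α)) := by
    refine K0.hom_ext fun p => ?_
    simp only [AddMonoidHom.comp_apply, K0.map_cls, Idem.map_map, h]
  exact DFunLike.congr_fun h1 z

end

end Pool.Agent.NegK
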