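import Pool.Agent.Lib.MP_28303a_al.NK.Mats

/-! # Weights of the explicit matrices -/

set_option autoImplicit false

namespace Pool.Agent.NegK

universe u v w

open Matrix

variable (k : ℕ)

theorem coeff_tt {a l : ℤ} (h : (tt a).coeff l ≠ 0) : l = a := by
  by_contra hc
  apply h
  show (AddMonoidAlgebra.single a (1 : ℤ)).coeff l = 0
  rw [AddMonoidAlgebra.coeff_single, Finsupp.single_eq_of_ne hc]

theorem coeff_one' {l : ℤ} (h : (1 : Lz).coeff l ≠ 0) : l = 0 := by
  rw [← tt_zero] at h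
  exact coeff_tt h

theorem coeff_neg' {x : Lz} {l : ℤ} (h : (-x).coeff l ≠ 0) : x.coeff l ≠ 0 := by
  intro hc
  apply h
  show -(x.coeff l) = 0
  rw [hc, neg_zero]

theorem coeff_sub' {x y : Lz} {l : ℤ} (h : (x - y).coeff l ≠ 0) :
    x.coeff l ≠ 0 ∨ y.coeff l ≠ 0 := by
  by_contra hc
  push Not at hc
  apply h
  rw [AddMonoidAlgebra.coeff_sub, Finsupp.sub_apply, hc.1, hc.2, sub_zero]

theorem coeff_add' {x y : Lz} {l : ℤ} (h : (x + y).coeff l ≠ 0) :
    x.coeff l ≠ 0 ∨ y.coeff l ≠ 0 := by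
  by_contra hc
  push Not at hc
  apply h
  rw [AddMonoidAlgebra.coeff_add, Finsupp.add_apply, hc.1, hc.2, zero_add]

theorem coeff_zero' {l : ℤ} (h : (0 : Lz).coeff l ≠ 0) : False := h rfl

/-- Basis vectors. -/
noncomputable def dl {ι : Type} [DecidableEq ι] (j : ι) : ι → Lz :=
  fun j' => if j' = j then 1 else 0

theorem toMat_apply {ι : Type} [Fintype ι] [DecidableEq ι] (f : (ι → Lz) →ₗ[Lz] (ι → Lz))
    (i j : ι) : LinearMap.toMatrix' f i j = f (dl j) i := by
  rw [LinearMap.toMatrix'_apply]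
  have : (Pi.single j 1 : ι → Lz) = dl j := by
    funext j'
    rw [Pi.single_apply]
    rfl
  rw [this]

theorem dl_cases {ι : Type} [DecidableEq ι] (j j' : ι) :
    (j' = j ∧ dl j j' = 1) ∨ (j' ≠ j ∧ dl j j' = 0) := by
  unfold dl
  by_cases h : j' = j
  · exact Or.inl ⟨h, if_pos h⟩
  · exact Or.inr ⟨h, if_neg h⟩

/-- The weight at infinity. -/
def wi : Ix k → ℤ := Sum.elim (fun i => (i.val : ℤ)) (fun _ => (k : ℤ) + 2)

theorem val_neg_one : ((-1 : Fin (k + 2)).val : ℤ) = k + 1 := by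
  have : (-1 : Fin (k + 2)) = Fin.last (k + 1) := by
    rw [eq_comm, ← add_eq_zero_iff_eq_neg]
    simp
  rw [this]
  simp

theorem val_sub_one {i : Fin (k + 2)} (hi : i ≠ 0) : ((i - 1 : Fin (k + 2)).val : ℤ) =
    i.val - 1 := by
  have h2 : (i - 1 : Fin (k + 2)).val = i.val - 1 := Fin.val_sub_one_of_ne_zero hi
  rw [h2]
  have h3 : 1 ≤ i.val := Nat.one_le_iff_ne_zero.2 (fun h => hi (Fin.ext h))
  omega

theorem val_add_one {i : Fin (k + 2)} (hi : i + 1 ≠ 0) : ((i + 1 : Fin (k + 2)).val : ℤ) =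
    i.val + 1 := by
  have := val_sub_one k hi
  rw [add_sub_cancel_right] at this
  linarith

theorem val_le (i : Fin (k + 2)) : (i.val : ℤ) ≤ k + 1 := by
  have := i.isLt
  omega

theorem u0_hom (i j : Ix k) (l : ℤ) (h : ((u0 k : Matrix (Ix k) (Ix k) Lz) i j).coeff l ≠ 0) :
    wi k i - wi k j + ((k : ℤ) + 3) * l = 1 := by
  change (LinearMap.toMatrix' (f0 k) i j).coeff l ≠ 0 at h
  rw [toMat_apply] at h
  rcases i with i | i
  · change ((if i = 0 then tt 1 * dl j (Sum.inr ()) else dl j (Sum.inl (i - 1)) : Lz)).coeff l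
      ≠ 0 at h
    by_cases hi : i = 0
    · rw [if_pos hi] at h
      rcases dl_cases j (Sum.inr ()) with ⟨h1, h2⟩ | ⟨h1, h2⟩
      · rw [h2, mul_one] at h
        have hl := coeff_tt h
        subst h1 hl hi
        simp [wi]
      · rw [h2, mul_zero] at h
        exact (coeff_zero' h).elim
    · rw [if_neg hi] at h
      rcases dl_cases j (Sum.inl (i - 1)) with ⟨h1, h2⟩ | ⟨h1, h2⟩
      · rw [h2] at h
        have hl := coeff_one' h
        subst h1 hl
        show (i.val : ℤ) - ((i - 1 : Fin (k + 2)).val : ℤ) + ((k : ℤ) + 3) * 0 = 1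
        rw [val_sub_one k hi]
        ring
      · rw [h2] at h
        exact (coeff_zero' h).elim
  · change (dl j (Sum.inl (-1)) : Lz).coeff l ≠ 0 at h
    rcases dl_cases j (Sum.inl (-1)) with ⟨h1, h2⟩ | ⟨h1, h2⟩
    · rw [h2] at h
      have hl := coeff_one' h
      subst h1 hl
      show (k : ℤ) + 2 - ((-1 : Fin (k + 2)).val : ℤ) + ((k : ℤ) + 3) * 0 = 1
      rw [val_neg_one]
      ring
    · rw [h2] at h
      exact (coeff_zero' h).elim

theorem u0_inv_hom (i j : Ix k) (l : ℤ)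
    (h : ((((u0 k)⁻¹ : (Matrix (Ix k) (Ix k) Lz)ˣ) : Matrix (Ix k) (Ix k) Lz) i j).coeff l ≠ 0) :
    wi k i - wi k j + ((k : ℤ) + 3) * l = -1 := by
  change (LinearMap.toMatrix' (g0 k) i j).coeff l ≠ 0 at h
  rw [toMat_apply] at h
  rcases i with i | i
  · change ((if i + 1 = 0 then dl j (Sum.inr ()) else dl j (Sum.inl (i + 1)) : Lz)).coeff l
      ≠ 0 at h
    by_cases hi : i + 1 = 0
    · rw [if_pos hi] at h
      have hi' : i = -1 := eq_neg_of_add_eq_zero_left hi
      rcases dl_cases j (Sum.inr ()) with ⟨h1, h2⟩ | ⟨h1, h2⟩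
      · rw [h2] at h
        have hl := coeff_one' h
        subst h1 hl hi'
        show ((-1 : Fin (k + 2)).val : ℤ) - ((k : ℤ) + 2) + ((k : ℤ) + 3) * 0 = -1
        rw [val_neg_one]
        ring
      · rw [h2] at h
        exact (coeff_zero' h).elim
    · rw [if_neg hi] at h
      rcases dl_cases j (Sum.inl (i + 1)) with ⟨h1, h2⟩ | ⟨h1, h2⟩
      · rw [h2] at h
        have hl := coeff_one' h
        subst h1 hl
        show (i.val : ℤ) - ((i + 1 : Fin (k + 2)).val : ℤ) + ((k : ℤ) + 3) * 0 = -1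
        rw [val_add_one k hi]
        ring
      · rw [h2] at h
        exact (coeff_zero' h).elim
  · change (tt (-1) * dl j (Sum.inl 0) : Lz).coeff l ≠ 0 at h
    rcases dl_cases j (Sum.inl 0) with ⟨h1, h2⟩ | ⟨h1, h2⟩
    · rw [h2, mul_one] at h
      have hl := coeff_tt h
      subst h1 hl
      simp [wi]
      ring
    · rw [h2, mul_zero] at h
      exact (coeff_zero' h).elim

/-- `u0 - u1`. -/
theorem u01_mem : (u0 k : Matrix (Ix k) (Ix k) Lz) - (u1 k : Matrix (Ix k) (Ix k) Lz) ∈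
    (wFilt ℤ (wi k) ((k : ℤ) + 3)).W (-((k : ℤ) + 1)) := by
  intro i j l h
  change (LinearMap.toMatrix' (f0 k) i j - LinearMap.toMatrix' (f1 k) i j).coeff l ≠ 0 at h
  rw [toMat_apply, toMat_apply] at h
  rcases i with i | i
  · change ((if i = 0 then tt 1 * dl j (Sum.inr ()) else dl j (Sum.inl (i - 1)) : Lz) -
      (if i = 0 then tt 1 * dl j (Sum.inr ()) else
        if i = 1 then dl j (Sum.inl 0) - dl j (Sum.inr ()) else dl j (Sum.inl (i - 1)))).coeff l
      ≠ 0 at h
    by_cases hi : i = 0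
    · rw [if_pos hi, if_pos hi, sub_self] at h
      exact (coeff_zero' h).elim
    · rw [if_neg hi, if_neg hi] at h
      by_cases hi1 : i = 1
      · rw [if_pos hi1, hi1, sub_self, sub_sub_cancel] at h
        rcases dl_cases j (Sum.inr ()) with ⟨h1, h2⟩ | ⟨h1, h2⟩
        · rw [h2] at h
          have hl := coeff_one' h
          subst h1 hl hi1
          have : ((1 : Fin (k + 2)).val : ℤ) = 1 := by simp
          show ((1 : Fin (k + 2)).val : ℤ) - ((k : ℤ) + 2) + ((k : ℤ) + 3) * 0 ≤ -((k : ℤ) + 1)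
          rw [this]
          linarith
        · rw [h2] at h
          exact (coeff_zero' h).elim
      · rw [if_neg hi1, sub_self] at h
        exact (coeff_zero' h).elim
  · change (dl j (Sum.inl (-1)) - dl j (Sum.inl (-1)) : Lz).coeff l ≠ 0 at h
    rw [sub_self] at h
    exact (coeff_zero' h).elim

theorem u0_mem : (u0 k : Matrix (Ix k) (Ix k) Lz) ∈ (wFilt ℤ (wi k) ((k : ℤ) + 3)).W 1 :=
  fun i j l h => (u0_hom k i j l h).le

theorem u0_inv_mem : (((u0 k)⁻¹ : (Matrix (Ix k) (Ix k) Lz)ˣ) : Matrix (Ix k) (Ix k) Lz) ∈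
    (wFilt ℤ (wi k) ((k : ℤ) + 3)).W 1 :=
  fun i j l h => (u0_inv_hom k i j l h).le.trans (by norm_num)

theorem u1_mem : (u1 k : Matrix (Ix k) (Ix k) Lz) ∈ (wFilt ℤ (wi k) ((k : ℤ) + 3)).W 1 := by
  have h1 := (wFilt ℤ (wi k) ((k : ℤ) + 3)).mono
    (show -((k : ℤ) + 1) ≤ 1 by have := Int.natCast_nonneg k; linarith) (u01_mem k)
  have h2 := ((wFilt ℤ (wi k) ((k : ℤ) + 3)).W 1).sub_mem (u0_mem k) h1
  rw [sub_sub_cancel] at h2
  exact h2

theorem u1_inv_mem : (((u1 k)⁻¹ : (Matrix (Ix k) (Ix k) Lz)ˣ) : Matrix (Ix k) (Ix k) Lz) ∈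
    (wFilt ℤ (wi k) ((k : ℤ) + 3)).W 1 := by
  intro i j l h
  have hk0 := Int.natCast_nonneg k
  change (LinearMap.toMatrix' (g1 k) i j).coeff l ≠ 0 at h
  rw [toMat_apply] at h
  rcases i with i | i
  · change ((if i + 1 = 0 then dl j (Sum.inr ()) else
      if i = 0 then dl j (Sum.inl 1) + tt (-1) * dl j (Sum.inl 0) else
        dl j (Sum.inl (i + 1)) : Lz)).coeff l ≠ 0 at h
    by_cases hi : i + 1 = 0
    · rw [if_pos hi] at h
      rcases dl_cases j (Sum.inr ()) with ⟨h1, h2⟩ | ⟨h1, h2⟩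
      · rw [h2] at h
        have hl := coeff_one' h
        subst h1 hl
        show (i.val : ℤ) - ((k : ℤ) + 2) + ((k : ℤ) + 3) * 0 ≤ 1
        have := val_le k i
        linarith
      · rw [h2] at h
        exact (coeff_zero' h).elim
    · rw [if_neg hi] at h
      by_cases hi0 : i = 0
      · rw [if_pos hi0] at h
        subst hi0
        rcases coeff_add' h with h | h
        · rcases dl_cases j (Sum.inl 1) with ⟨h1, h2⟩ | ⟨h1, h2⟩
          · rw [h2] at h
            have hl := coeff_one' h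
            subst h1 hl
            simp [wi]
          · rw [h2] at h
            exact (coeff_zero' h).elim
        · rcases dl_cases j (Sum.inl 0) with ⟨h1, h2⟩ | ⟨h1, h2⟩
          · rw [h2, mul_one] at h
            have hl := coeff_tt h
            subst h1 hl
            simp [wi]
            linarith
          · rw [h2, mul_zero] at h
            exact (coeff_zero' h).elim
      · rw [if_neg hi0] at h
        rcases dl_cases j (Sum.inl (i + 1)) with ⟨h1, h2⟩ | ⟨h1, h2⟩
        · rw [h2] at h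
          have hl := coeff_one' h
          subst h1 hl
          show (i.val : ℤ) - ((i + 1 : Fin (k + 2)).val : ℤ) + ((k : ℤ) + 3) * 0 ≤ 1
          rw [val_add_one k hi]
          linarith
        · rw [h2] at h
          exact (coeff_zero' h).elim
  · change (tt (-1) * dl j (Sum.inl 0) : Lz).coeff l ≠ 0 at h
    rcases dl_cases j (Sum.inl 0) with ⟨h1, h2⟩ | ⟨h1, h2⟩
    · rw [h2, mul_one] at h
      have hl := coeff_tt h
      subst h1 hl
      simp [wi]
      linarith
    · rw [h2, mul_zero] at h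
      exact (coeff_zero' h).elim

end Pool.Agent.NegK
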