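import Pool.Agent.Lib.MP_28303a_al.NK.Wts

/-! # Weights of the explicit matrices at zero -/

set_option autoImplicit false

namespace Pool.Agent.NegK

universe u v w

open Matrix

variable (k : ℕ)

/-- Pole order at most `r` at zero. -/
def Po (r : ℤ) (x : Lz) : Prop := ∀ l, x.coeff l ≠ 0 → -l ≤ r

theorem Po.mono {r s : ℤ} {x : Lz} (h : Po r x) (hrs : r ≤ s) : Po s x :=
  fun l hl => (h l hl).trans hrs

theorem po_zero (r : ℤ) : Po r 0 := fun _ h => (coeff_zero' h).elim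

theorem po_tt {r a : ℤ} (h : -a ≤ r) : Po r (tt a) := fun l hl => by
  rw [coeff_tt hl]; exact h

theorem po_one : Po 0 1 := fun l hl => by rw [coeff_one' hl]; simp

theorem Po.add {r : ℤ} {x y : Lz} (hx : Po r x) (hy : Po r y) : Po r (x + y) :=
  fun l hl => (coeff_add' hl).elim (hx l) (hy l)

theorem Po.sub {r : ℤ} {x y : Lz} (hx : Po r x) (hy : Po r y) : Po r (x - y) :=
  fun l hl => (coeff_sub' hl).elim (hx l) (hy l)

theorem Po.neg {r : ℤ} {x : Lz} (hx : Po r x) : Po r (-x) :=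
  fun l hl => hx l (coeff_neg' hl)

theorem Po.mul {r s : ℤ} {x y : Lz} (hx : Po r x) (hy : Po s y) : Po (r + s) (x * y) := by
  intro l hl
  obtain ⟨a, b, hab, ha, hb⟩ := coeff_mul_ne hl
  have := hx a ha
  have := hy b hb
  linarith

theorem po_dl {ι : Type} [DecidableEq ι] (j j' : ι) : Po 0 (dl j j') := by
  rcases dl_cases j j' with ⟨_, h⟩ | ⟨_, h⟩
  · rw [h]; exact po_one
  · rw [h]; exact po_zero 0

/-- The filtration at zero. -/
abbrev F0 (ι : Type) [Fintype ι] [DecidableEq ι] : Filt (Matrix ι ι Lz) :=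
  wFilt ℤ (fun _ : ι => (0 : ℤ)) (-1)

theorem mem_F0 {ι : Type} [Fintype ι] [DecidableEq ι] {r : ℤ} {M : Matrix ι ι Lz}
    (h : ∀ i j, Po r (M i j)) : M ∈ (F0 ι).W r := by
  intro i j l hl
  have := h i j l hl
  linarith

theorem mem_F0' {ι : Type} [Fintype ι] [DecidableEq ι] {r : ℤ} {f : (ι → Lz) →ₗ[Lz] (ι → Lz)}
    (h : ∀ i j, Po r (f (dl j) i)) : LinearMap.toMatrix' f ∈ (F0 ι).W r := by
  refine mem_F0 fun i j => ?_
  rw [toMat_apply]
  exact h i j

theorem po_ww (i : Fin (k + 2)) : Po 0 (ww k i) := by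
  unfold ww
  split_ifs
  · exact po_one
  · refine po_tt ?_
    have := val_le k i
    linarith

theorem uP_mem : (uP k : Matrix (Ix k) (Ix k) Lz) ∈ (F0 (Ix k)).W 0 := by
  refine mem_F0' fun i j => ?_
  rcases i with i | i
  · show Po 0 (dl j (Sum.inl i) + dl j (Sum.inr ()) * ww k i)
    exact (po_dl _ _).add ((po_dl _ _).mul (po_ww k i))
  · exact po_dl _ _

theorem uP_inv_mem : (((uP k)⁻¹ : (Matrix (Ix k) (Ix k) Lz)ˣ) : Matrix (Ix k) (Ix k) Lz) ∈
    (F0 (Ix k)).W 0 := by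
  refine mem_F0' fun i j => ?_
  rcases i with i | i
  · show Po 0 (dl j (Sum.inl i) - dl j (Sum.inr ()) * ww k i)
    exact (po_dl _ _).sub ((po_dl _ _).mul (po_ww k i))
  · exact po_dl _ _

theorem u1_mem0 : (u1 k : Matrix (Ix k) (Ix k) Lz) ∈ (F0 (Ix k)).W 1 := by
  refine mem_F0' fun i j => ?_
  rcases i with i | i
  · show Po 1 (if i = 0 then tt 1 * dl j (Sum.inr ()) else
      if i = 1 then dl j (Sum.inl 0) - dl j (Sum.inr ()) else dl j (Sum.inl (i - 1)))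
    split_ifs
    · exact ((po_tt (r := 0) (by norm_num)).mul (po_dl _ _)).mono (by norm_num)
    · exact ((po_dl _ _).sub (po_dl _ _)).mono (by norm_num)
    · exact (po_dl _ _).mono (by norm_num)
  · exact (po_dl _ _).mono (by norm_num)

theorem u1_inv_mem0 : (((u1 k)⁻¹ : (Matrix (Ix k) (Ix k) Lz)ˣ) : Matrix (Ix k) (Ix k) Lz) ∈
    (F0 (Ix k)).W 1 := by
  refine mem_F0' fun i j => ?_
  rcases i with i | i
  · show Po 1 (if i + 1 = 0 then dl j (Sum.inr ()) else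
      if i = 0 then dl j (Sum.inl 1) + tt (-1) * dl j (Sum.inl 0) else dl j (Sum.inl (i + 1)))
    split_ifs
    · exact (po_dl _ _).mono (by norm_num)
    · exact ((po_dl _ _).mono (by norm_num)).add
        (((po_tt (r := 1) (by norm_num)).mul (po_dl _ _)).mono (by norm_num))
    · exact (po_dl _ _).mono (by norm_num)
  · show Po 1 (tt (-1) * dl j (Sum.inl 0))
    exact ((po_tt (r := 1) (by norm_num)).mul (po_dl _ _)).mono (by norm_num)

theorem po_fc {r : ℤ} (x : Fin (k + 2) → Lz) (hx : ∀ i, Po r (x i)) (i : Fin (k + 2)) :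
    Po r (fc k x i) := by
  show Po r (if i = 0 then - x (-1) else x (i - 1) - tt ((k + 2 : ℤ) - i.val) * x (-1))
  split_ifs
  · exact (hx _).neg
  · refine (hx _).sub (((po_tt (r := 0) ?_).mul (hx _)).mono (by rw [zero_add]))
    have := val_le k i
    linarith

theorem po_gc {r : ℤ} (x : Fin (k + 2) → Lz) (hx : ∀ i, Po r (x i)) (i : Fin (k + 2)) :
    Po r (gc k x i) := by
  show Po r (if i + 1 = 0 then - x 0 else
    x (i + 1) - tt ((k + 2 : ℤ) - (i + 1 : Fin (k + 2)).val) * x 0)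
  split_ifs
  · exact (hx _).neg
  · refine (hx _).sub (((po_tt (r := 0) ?_).mul (hx _)).mono (by rw [zero_add]))
    have := val_le k (i + 1)
    linarith

theorem uc_mem : (uc k : Matrix (Fin (k + 2)) (Fin (k + 2)) Lz) ∈ (F0 (Fin (k + 2))).W 0 :=
  mem_F0' fun i _ => po_fc k _ (fun _ => po_dl _ _) i

theorem uc_inv_mem : (((uc k)⁻¹ : (Matrix (Fin (k + 2)) (Fin (k + 2)) Lz)ˣ) :
    Matrix (Fin (k + 2)) (Fin (k + 2)) Lz) ∈ (F0 (Fin (k + 2))).W 0 :=
  mem_F0' fun i _ => po_gc k _ (fun _ => po_dl _ _) i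

theorem u2_mem : (u2 k : Matrix (Ix k) (Ix k) Lz) ∈ (F0 (Ix k)).W 1 := by
  refine mem_F0' fun i j => ?_
  rcases i with i | i
  · exact (po_fc k (fun i => dl j (Sum.inl i)) (fun i => po_dl _ _) i).mono (by norm_num)
  · show Po 1 (dl j (Sum.inl (-1)) + tt 1 * dl j (Sum.inr ()))
    exact ((po_dl _ _).mono (by norm_num)).add
      (((po_tt (r := 0) (by norm_num)).mul (po_dl _ _)).mono (by norm_num))

theorem u2_inv_mem : (((u2 k)⁻¹ : (Matrix (Ix k) (Ix k) Lz)ˣ) : Matrix (Ix k) (Ix k) Lz) ∈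
    (F0 (Ix k)).W 1 := by
  refine mem_F0' fun i j => ?_
  rcases i with i | i
  · exact (po_gc k (fun i => dl j (Sum.inl i)) (fun i => po_dl _ _) i).mono (by norm_num)
  · show Po 1 (tt (-1) * (dl j (Sum.inr ()) + dl j (Sum.inl 0)))
    exact ((po_tt (r := 1) (by norm_num)).mul ((po_dl _ _).add (po_dl _ _))).mono (by norm_num)

/-- `u1' = P⁻¹ u1 P`. -/
noncomputable def u1' : (Matrix (Ix k) (Ix k) Lz)ˣ := (uP k)⁻¹ * u1 k * uP k

theorem u1'_mem : (u1' k : Matrix (Ix k) (Ix k) Lz) ∈ (F0 (Ix k)).W 1 := by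
  have h1 := (F0 (Ix k)).mul ((F0 (Ix k)).mul (uP_inv_mem k) (u1_mem0 k)) (uP_mem k)
  exact (F0 (Ix k)).mono (by norm_num) h1

theorem u1'_inv_mem : (((u1' k)⁻¹ : (Matrix (Ix k) (Ix k) Lz)ˣ) : Matrix (Ix k) (Ix k) Lz) ∈
    (F0 (Ix k)).W 1 := by
  have h1 := (F0 (Ix k)).mul ((F0 (Ix k)).mul (uP_inv_mem k) (u1_inv_mem0 k)) (uP_mem k)
  have h2 : (u1' k)⁻¹ = (uP k)⁻¹ * (u1 k)⁻¹ * uP k := by
    unfold u1'
    rw [_root_.mul_inv_rev, _root_.mul_inv_rev, inv_inv, mul_assoc]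
  rw [h2]
  exact (F0 (Ix k)).mono (by norm_num) h1

theorem u12_mem : (u1' k : Matrix (Ix k) (Ix k) Lz) - (u2 k : Matrix (Ix k) (Ix k) Lz) ∈
    (F0 (Ix k)).W (-((k : ℤ) + 2)) := by
  have h1 : (u1' k : Matrix (Ix k) (Ix k) Lz) = (u2 k : Matrix (Ix k) (Ix k) Lz) -
      LinearMap.toMatrix' (fd k) := by
    show LinearMap.toMatrix' (gP k) * LinearMap.toMatrix' (f1 k) * LinearMap.toMatrix' (fP k) =
      LinearMap.toMatrix' (f2 k) - LinearMap.toMatrix' (fd k)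
    rw [← LinearMap.toMatrix'_comp, ← LinearMap.toMatrix'_comp, ← map_sub]
    congr 1
    exact LinearMap.ext fun x => conj_eq k x
  have h2 : (u1' k : Matrix (Ix k) (Ix k) Lz) - (u2 k : Matrix (Ix k) (Ix k) Lz) =
      - LinearMap.toMatrix' (fd k) := by
    rw [h1]; abel
  rw [h2]
  refine ((F0 (Ix k)).W _).neg_mem (mem_F0' fun i j => ?_)
  rcases i with i | i
  · show Po _ (if i = 1 then tt (k + 2 : ℤ) * dl j (Sum.inr ()) else 0)
    split_ifs
    · exact ((po_tt (r := -((k : ℤ) + 2)) le_rfl).mul (po_dl _ _)).mono (by simp)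
    · exact po_zero _
  · exact po_zero _

end Pool.Agent.NegK
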